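import Mathlib
import Pool.Agent.Q268.DL.Tail

/-!
Exponential moments of weighted arrivals, and the lower bound for the probability of a given level.
-/

set_option autoImplicit false

namespace Pool.Agent.Q268.XL

open Filter Finset MeasureTheory ProbabilityTheory
open Pool.Agent.Q268.DP Pool.Agent.Q268.DL
open scoped ENNReal Topology

variable {Ω : Type} [MeasurableSpace Ω] {μ : Measure Ω} {X : ℕ → Ω → ℕ} {D : ℕ → ℕ}

/-- total weight of the arrivals -/
noncomputable def wt (P : ℕ → Prop) (X : ℕ → Ω → ℕ) (N : ℕ) (w : ℕ → ℝ) (ω : Ω) : ℝ :=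
  ∑ q ∈ upto P N, w (q + X q ω)

theorem meas_wt (hX : Disp μ X D) (P : ℕ → Prop) (N : ℕ) (w : ℕ → ℝ) : Measurable (wt P X N w) := by
  unfold wt
  refine Finset.measurable_fun_sum _ fun q _ => ?_
  exact (measurable_of_countable (fun d => w (q + d))).comp (hX.meas q)

theorem one_factor (hX : Disp μ X D) {W : Finset ℕ} {w : ℕ → ℝ} (hw : ∀ m, m ∉ W → w m = 0) (q : ℕ) :
    ∫ ω, Real.exp (w (q + X q ω)) ∂μ = 1 + ∑ m ∈ W, (Real.exp (w m) - 1) * pr D {m} q := by
  classical
  have hP : IsProbabilityMeasure μ := hX.indep.isProbabilityMeasure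
  have h1 : ∀ ω, Real.exp (w (q + X q ω)) = 1 + ∑ m ∈ W, (Real.exp (w m) - 1) *
      {ω | q + X q ω ∈ ({m} : Finset ℕ)}.indicator (fun _ => (1 : ℝ)) ω := by
    intro ω
    have h2 : ∀ m ∈ W, (Real.exp (w m) - 1) * {ω | q + X q ω ∈ ({m} : Finset ℕ)}.indicator (fun _ => (1 : ℝ)) ω =
        if m = q + X q ω then Real.exp (w m) - 1 else 0 := by
      intro m _
      by_cases h : m = q + X q ω
      · simp [h]
      · have h' : q + X q ω ≠ m := fun h' => h h'.symm
        simp [h, h']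
    rw [Finset.sum_congr rfl h2, Finset.sum_ite_eq']
    by_cases h : q + X q ω ∈ W
    · rw [if_pos h]
      ring
    · rw [if_neg h, hw _ h]
      simp
  have hm : ∀ m : ℕ, MeasurableSet {ω | q + X q ω ∈ ({m} : Finset ℕ)} := fun m =>
    meas_set hX q {d | q + d ∈ ({m} : Finset ℕ)}
  have hint : ∀ m : ℕ, Integrable ({ω | q + X q ω ∈ ({m} : Finset ℕ)}.indicator (fun _ => (1 : ℝ))) μ := fun m =>
    (integrable_const (1 : ℝ)).indicator (hm m)
  simp only [h1]
  rw [integral_add (integrable_const _) (integrable_finsetSum _ fun m _ => (hint m).const_mul _),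
    integral_finsetSum _ (fun m _ => (hint m).const_mul _)]
  congr 1
  · simp
  · refine Finset.sum_congr rfl fun m _ => ?_
    rw [integral_const_mul, integral_indicator_const _ (hm m), Measure.real, hit hX,
      ENNReal.toReal_ofReal (pr_nonneg _ _ _)]
    simp

/-- the exponential moment of the weighted arrivals -/
theorem gen_eq (hX : Disp μ X D) (P : ℕ → Prop) {W : Finset ℕ} {w : ℕ → ℝ} (hw : ∀ m, m ∉ W → w m = 0) (N : ℕ) :
    ∫ ω, Real.exp (wt P X N w ω) ∂μ = ∏ q ∈ upto P N, (1 + ∑ m ∈ W, (Real.exp (w m) - 1) * pr D {m} q) := by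
  have hP : IsProbabilityMeasure μ := hX.indep.isProbabilityMeasure
  have h2 : iIndepFun (fun (q : ℕ) (ω : Ω) => w (q + X q ω)) μ :=
    hX.indep.comp (fun (q : ℕ) (d : ℕ) => w (q + d)) (fun q => measurable_of_countable _)
  have h3 : ∀ q : ℕ, Measurable (fun ω => w (q + X q ω)) := fun q =>
    (measurable_of_countable (fun d => w (q + d))).comp (hX.meas q)
  have h4 := h2.mgf_sum (t := 1) h3 (upto P N)
  unfold mgf at h4
  simp only [one_mul] at h4
  have h5 : ∀ ω, (∑ q ∈ upto P N, (fun ω => w (q + X q ω))) ω = wt P X N w ω := by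
    intro ω
    rw [Finset.sum_apply]
    rfl
  simp only [h5] at h4
  rw [h4]
  exact Finset.prod_congr rfl fun q _ => one_factor hX hw q

theorem factor_nonneg (D : ℕ → ℕ) (W : Finset ℕ) (w : ℕ → ℝ) (q : ℕ) :
    0 ≤ 1 + ∑ m ∈ W, (Real.exp (w m) - 1) * pr D {m} q := by
  have h1 : -∑ m ∈ W, pr D {m} q ≤ ∑ m ∈ W, (Real.exp (w m) - 1) * pr D {m} q := by
    rw [← Finset.sum_neg_distrib]
    refine Finset.sum_le_sum fun m _ => ?_
    have := Real.exp_pos (w m)
    nlinarith [pr_nonneg D {m} q]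
  rw [← pr_sum] at h1
  linarith [pr_le_one D W q]

theorem gen_le (hX : Disp μ X D) (P : ℕ → Prop) {W : Finset ℕ} {w : ℕ → ℝ} (hw : ∀ m, m ∉ W → w m = 0) (N : ℕ) :
    ∫ ω, Real.exp (wt P X N w ω) ∂μ ≤ Real.exp (∑ m ∈ W, (Real.exp (w m) - 1) * mn P D N {m}) := by
  rw [gen_eq hX P hw]
  have h1 : ∑ m ∈ W, (Real.exp (w m) - 1) * mn P D N {m} =
      ∑ q ∈ upto P N, ∑ m ∈ W, (Real.exp (w m) - 1) * pr D {m} q := by
    unfold mn
    rw [Finset.sum_comm]
    refine Finset.sum_congr rfl fun m _ => ?_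
    rw [Finset.mul_sum]
  rw [h1, Real.exp_sum]
  apply Finset.prod_le_prod
  · intro q _
    exact factor_nonneg D W w q
  · intro q _
    have := Real.add_one_le_exp (∑ m ∈ W, (Real.exp (w m) - 1) * pr D {m} q)
    linarith

theorem exp_low {x : ℝ} (h : |x| ≤ 1 / 2) : Real.exp (x - 2 * x ^ 2) ≤ 1 + x := by
  rw [abs_le] at h
  have h1 : 0 < 1 + x := by linarith [h.1]
  rw [← Real.exp_log h1]
  apply Real.exp_le_exp.2
  have h2 := Real.one_sub_inv_le_log_of_pos h1
  have h3 : x - 2 * x ^ 2 ≤ 1 - (1 + x)⁻¹ := by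
    have h4 : 1 - (1 + x)⁻¹ - (x - 2 * x ^ 2) = x ^ 2 * (1 + 2 * x) / (1 + x) := by
      field_simp
      ring
    have h5 : 0 ≤ x ^ 2 * (1 + 2 * x) / (1 + x) := by
      have : 0 ≤ 1 + 2 * x := by linarith [h.1]
      positivity
    linarith
  linarith

/-- the number of arrivals in `W` -/
noncomputable def an (P : ℕ → Prop) (X : ℕ → Ω → ℕ) (N : ℕ) (W : Finset ℕ) (ω : Ω) : ℕ :=
  ((upto P N).filter (fun q => q + X q ω ∈ W)).card

/-- the number of arrivals at `m` -/
noncomputable def cq (P : ℕ → Prop) (X : ℕ → Ω → ℕ) (N : ℕ) (m : ℕ) (ω : Ω) : ℕ :=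
  ((upto P N).filter (fun q => q + X q ω = m)).card

omit [MeasurableSpace Ω] in
theorem an_sum (P : ℕ → Prop) (X : ℕ → Ω → ℕ) (N : ℕ) (W : Finset ℕ) (ω : Ω) :
    an P X N W ω = ∑ m ∈ W, cq P X N m ω := by
  classical
  unfold an cq
  rw [Finset.card_eq_sum_card_fiberwise (f := fun q => q + X q ω) (t := W)]
  · refine Finset.sum_congr rfl fun m hm => ?_
    congr 1
    ext q
    simp only [Finset.mem_filter]
    constructor
    · rintro ⟨⟨h1, _⟩, h3⟩
      exact ⟨h1, h3⟩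
    · rintro ⟨h1, h3⟩
      exact ⟨⟨h1, h3 ▸ hm⟩, h3⟩
  · intro q hq
    simp only [Finset.coe_filter, Set.mem_ofPred_eq] at hq
    exact hq.2

omit [MeasurableSpace Ω] in
theorem cn_le_an (P : ℕ → Prop) (X : ℕ → Ω → ℕ) {W : Finset ℕ} {N : ℕ} (hN : ∀ m ∈ W, m ≤ N) (ω : Ω) :
    cn (moved P X ω) W ≤ an P X N W ω := by
  classical
  unfold an cn
  have h3 : W.filter (fun m => m ∈ moved P X ω) ⊆
      ((upto P N).filter (fun q => q + X q ω ∈ W)).image (fun q => q + X q ω) := by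
    intro m hm
    rw [Finset.mem_filter] at hm
    obtain ⟨hmW, q, hq, hmq⟩ := hm
    rw [Finset.mem_image]
    refine ⟨q, ?_, hmq.symm⟩
    rw [Finset.mem_filter, mem_upto]
    have := hN m hmW
    exact ⟨⟨by omega, hq⟩, hmq ▸ hmW⟩
  calc (W.filter (fun m => m ∈ moved P X ω)).card
      ≤ (((upto P N).filter (fun q => q + X q ω ∈ W)).image (fun q => q + X q ω)).card :=
        Finset.card_le_card h3
    _ ≤ _ := Finset.card_image_le

theorem pow_ineq {y : ℝ} (hy : 1 ≤ y) (c : ℕ) :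
    (c : ℝ) ≤ (if 0 < c then 1 else 0) + (1 + y) ^ c / (1 + y) ^ 2 := by
  have hy0 : 0 < 1 + y := by linarith
  rcases Nat.lt_or_ge c 2 with h | h
  · have h2 : 0 ≤ (1 + y) ^ c / (1 + y) ^ 2 := by positivity
    interval_cases c
    · simp only [lt_irrefl, if_false, Nat.cast_zero, zero_add]
      exact h2
    · simp only [Nat.zero_lt_one, if_true, Nat.cast_one]
      linarith
  · obtain ⟨k, rfl⟩ := Nat.exists_eq_add_of_le h
    have h3 : (1 + y) ^ (2 + k) / (1 + y) ^ 2 = (1 + y) ^ k := by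
      rw [pow_add]
      field_simp
    rw [h3, if_pos (by omega)]
    have h4 : 1 + (k : ℝ) * 1 ≤ (1 + 1 : ℝ) ^ k := one_add_mul_le_pow (by norm_num) k
    have h5 : (1 + 1 : ℝ) ^ k ≤ (1 + y) ^ k := by gcongr
    push_cast
    linarith

omit [MeasurableSpace Ω] in
theorem an_le_cn (P : ℕ → Prop) (X : ℕ → Ω → ℕ) {W : Finset ℕ} {N : ℕ} (ω : Ω) {y : ℝ} (hy : 1 ≤ y) :
    (an P X N W ω : ℝ) ≤ cn (moved P X ω) W + ∑ m ∈ W, (1 + y) ^ cq P X N m ω / (1 + y) ^ 2 := by
  classical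
  rw [an_sum]
  push_cast
  have h1 : ∑ m ∈ W, (cq P X N m ω : ℝ) ≤
      ∑ m ∈ W, ((if 0 < cq P X N m ω then 1 else 0) + (1 + y) ^ cq P X N m ω / (1 + y) ^ 2) :=
    Finset.sum_le_sum fun m _ => pow_ineq hy _
  refine h1.trans ?_
  rw [Finset.sum_add_distrib]
  gcongr
  unfold cn
  rw [Finset.card_filter]
  push_cast
  refine Finset.sum_le_sum fun m _ => ?_
  by_cases h : 0 < cq P X N m ω
  · rw [if_pos h]
    unfold cq at h
    obtain ⟨q, hq⟩ := Finset.card_pos.1 h
    rw [Finset.mem_filter, mem_upto] at hq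
    rw [if_pos ⟨q, hq.1.2, hq.2.symm⟩]
  · rw [if_neg h]
    split_ifs <;> norm_num

omit [MeasurableSpace Ω] in
theorem wt_two (P : ℕ → Prop) (X : ℕ → Ω → ℕ) (N : ℕ) (W : Finset ℕ) (θ κ : ℝ) (m₀ : ℕ) (ω : Ω) :
    wt P X N (fun m => (if m ∈ W then θ else 0) + (if m = m₀ then κ else 0)) ω =
      θ * an P X N W ω + κ * cq P X N m₀ ω := by
  classical
  unfold wt an cq
  rw [Finset.sum_add_distrib, ← Finset.sum_filter, ← Finset.sum_filter, Finset.sum_const, Finset.sum_const,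
    nsmul_eq_mul, nsmul_eq_mul, mul_comm, mul_comm (_ : ℝ) κ]

omit [MeasurableSpace Ω] in
theorem wt_one (P : ℕ → Prop) (X : ℕ → Ω → ℕ) (N : ℕ) (W : Finset ℕ) (θ : ℝ) (ω : Ω) :
    wt P X N (fun m => if m ∈ W then θ else 0) ω = θ * an P X N W ω := by
  classical
  unfold wt an
  rw [← Finset.sum_filter, Finset.sum_const, nsmul_eq_mul, mul_comm]

theorem int_wt (hX : Disp μ X D) (P : ℕ → Prop) {W : Finset ℕ} {w : ℕ → ℝ} (hw : ∀ m, m ∉ W → w m = 0) (N : ℕ) :
    Integrable (fun ω => Real.exp (wt P X N w ω)) μ := by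
  have hP : IsProbabilityMeasure μ := hX.indep.isProbabilityMeasure
  refine Integrable.of_bound ((Real.measurable_exp.comp (meas_wt hX P N w)).aestronglyMeasurable)
    (Real.exp ((upto P N).card * ∑ m ∈ W, |w m|)) ?_
  refine Eventually.of_forall fun ω => ?_
  rw [Real.norm_eq_abs, abs_of_pos (Real.exp_pos _)]
  apply Real.exp_le_exp.2
  unfold wt
  have h1 : ∀ m, w m ≤ ∑ m ∈ W, |w m| := by
    intro m
    by_cases h : m ∈ W
    · exact (le_abs_self _).trans (Finset.single_le_sum (f := fun m => |w m|) (fun _ _ => abs_nonneg _) h)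
    · rw [hw m h]
      exact Finset.sum_nonneg fun _ _ => abs_nonneg _
  have h2 := Finset.sum_le_card_nsmul (upto P N) (fun q => w (q + X q ω)) _ (fun q _ => h1 _)
  rwa [nsmul_eq_mul] at h2

theorem low_arr (hX : Disp μ X D) (P : ℕ → Prop) (W : Finset ℕ) (N : ℕ) {θ ρ : ℝ}
    (hρ : ∀ q ∈ upto P N, pr D W q ≤ ρ) (hz : |Real.exp θ - 1| * ρ ≤ 1 / 2) :
    Real.exp ((Real.exp θ - 1) * mn P D N W - 2 * (Real.exp θ - 1) ^ 2 * ρ * mn P D N W) ≤
      ∫ ω, Real.exp (θ * an P X N W ω) ∂μ := by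
  have hw : ∀ m, m ∉ W → (fun m => if m ∈ W then θ else 0) m = 0 := fun m hm => if_neg hm
  have h1 := gen_eq hX P hw N
  simp only [wt_one] at h1
  rw [h1]
  set z := Real.exp θ - 1 with hz'
  have h2 : z * mn P D N W - 2 * z ^ 2 * ρ * mn P D N W = ∑ q ∈ upto P N, (z * pr D W q - 2 * z ^ 2 * ρ * pr D W q) := by
    unfold mn
    rw [Finset.sum_sub_distrib, Finset.mul_sum, Finset.mul_sum]
  rw [h2, Real.exp_sum]
  apply Finset.prod_le_prod
  · intro q _
    exact (Real.exp_pos _).le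
  · intro q hq
    have h3 : ∑ m ∈ W, (Real.exp (if m ∈ W then θ else 0) - 1) * pr D {m} q = z * pr D W q := by
      rw [pr_sum D W q, Finset.mul_sum]
      refine Finset.sum_congr rfl fun m hm => ?_
      rw [if_pos hm]
    rw [h3]
    have h4 := hρ q hq
    have h5 := pr_nonneg D W q
    have h6 : |z * pr D W q| ≤ 1 / 2 := by
      rw [abs_mul, abs_of_nonneg h5]
      refine le_trans ?_ hz
      gcongr
    refine le_trans (Real.exp_le_exp.2 ?_) (exp_low h6)
    have h7 : z ^ 2 * (pr D W q * pr D W q) ≤ z ^ 2 * (ρ * pr D W q) := by gcongr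
    nlinarith

/-- the good event -/
def Good (P : ℕ → Prop) (X : ℕ → Ω → ℕ) (N : ℕ) (W : Finset ℕ) (k₁ k₂ r : ℝ) : Set Ω :=
  {ω | k₁ ≤ an P X N W ω ∧ (an P X N W ω : ℝ) ≤ k₂ ∧ (an P X N W ω : ℝ) ≤ cn (moved P X ω) W + r}

theorem meas_an (hX : Disp μ X D) (P : ℕ → Prop) (N : ℕ) (W : Finset ℕ) :
    Measurable (fun ω => (an P X N W ω : ℝ)) := by
  have h := meas_wt hX P N (fun m => if m ∈ W then (1 : ℝ) else 0)
  have e : (fun ω => (an P X N W ω : ℝ)) = wt P X N (fun m => if m ∈ W then (1 : ℝ) else 0) := by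
    funext ω
    rw [wt_one, one_mul]
  rw [e]
  exact h

theorem meas_Good (hX : Disp μ X D) (P : ℕ → Prop) (N : ℕ) (W : Finset ℕ) (k₁ k₂ r : ℝ) :
    MeasurableSet (Good P X N W k₁ k₂ r) := by
  have h := meas_an hX P N W
  exact (measurableSet_le measurable_const h).inter ((measurableSet_le h measurable_const).inter
    (measurableSet_le h ((meas_cn hX P W).add measurable_const)))

/-- three point inequality -/
theorem three (hX : Disp μ X D) (P : ℕ → Prop) {W : Finset ℕ} {N : ℕ} {θ η k₁ k₂ r y B : ℝ}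
    (hη : 0 ≤ η) (hr : 0 < r) (hy : 1 ≤ y) (hB : ∀ k : ℝ, k₁ ≤ k → k ≤ k₂ → θ * k ≤ B) :
    ∫ ω, Real.exp (θ * an P X N W ω) ∂μ ≤ Real.exp B * μ.real (Good P X N W k₁ k₂ r) +
      Real.exp (η * k₁) * Real.exp ((Real.exp (θ - η) - 1) * mn P D N W) +
      Real.exp (-(η * k₂)) * Real.exp ((Real.exp (θ + η) - 1) * mn P D N W) +
      1 / r * (∑ m ∈ W, Real.exp ((Real.exp θ - 1) * mn P D N W + Real.exp θ * y * mn P D N {m}) / (1 + y) ^ 2) := by
  classical
  have hP : IsProbabilityMeasure μ := hX.indep.isProbabilityMeasure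
  set κ := Real.log (1 + y) with hκ
  have hy0 : 0 < 1 + y := by linarith
  have hκe : Real.exp κ = 1 + y := Real.exp_log hy0
  have hw : ∀ t : ℝ, ∀ m, m ∉ W → (fun m => if m ∈ W then t else 0) m = 0 := fun t m hm => if_neg hm
  have hw2 : ∀ m₀ ∈ W, ∀ m, m ∉ W → (fun m => (if m ∈ W then θ else 0) + (if m = m₀ then κ else 0)) m = 0 := by
    intro m₀ hm₀ m hm
    have : m ≠ m₀ := fun h => hm (h ▸ hm₀)
    simp [hm, this]
  have I1 : ∀ t : ℝ, Integrable (fun ω => Real.exp (t * an P X N W ω)) μ := by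
    intro t
    have := int_wt hX P (hw t) N
    simpa only [wt_one] using this
  have I2 : ∀ m₀ ∈ W, Integrable (fun ω => Real.exp (θ * an P X N W ω + κ * cq P X N m₀ ω)) μ := by
    intro m₀ hm₀
    have := int_wt hX P (hw2 m₀ hm₀) N
    simpa only [wt_two] using this
  have M1 : ∀ t : ℝ, ∫ ω, Real.exp (t * an P X N W ω) ∂μ ≤ Real.exp ((Real.exp t - 1) * mn P D N W) := by
    intro t
    have h := gen_le hX P (hw t) N
    simp only [wt_one] at h
    refine h.trans (le_of_eq ?_)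
    congr 1
    rw [mn_sum P D N W, Finset.mul_sum]
    refine Finset.sum_congr rfl fun m hm => ?_
    rw [if_pos hm]
  have M2 : ∀ m₀ ∈ W, ∫ ω, Real.exp (θ * an P X N W ω + κ * cq P X N m₀ ω) ∂μ ≤
      Real.exp ((Real.exp θ - 1) * mn P D N W + Real.exp θ * y * mn P D N {m₀}) := by
    intro m₀ hm₀
    have h := gen_le hX P (hw2 m₀ hm₀) N
    simp only [wt_two] at h
    refine h.trans (le_of_eq ?_)
    congr 1
    rw [mn_sum P D N W, Finset.mul_sum]
    have h1 : ∀ m ∈ W, (Real.exp ((if m ∈ W then θ else 0) + (if m = m₀ then κ else 0)) - 1) * mn P D N {m} =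
        (Real.exp θ - 1) * mn P D N {m} + if m = m₀ then Real.exp θ * y * mn P D N {m} else 0 := by
      intro m hm
      rw [if_pos hm]
      by_cases h2 : m = m₀
      · rw [if_pos h2, if_pos h2, Real.exp_add, hκe]
        ring
      · rw [if_neg h2, if_neg h2, add_zero, add_zero]
    rw [Finset.sum_congr rfl h1, Finset.sum_add_distrib, Finset.sum_ite_eq' W m₀, if_pos hm₀]
  -- pointwise
  have pw : ∀ ω, Real.exp (θ * an P X N W ω) ≤
      Real.exp B * (Good P X N W k₁ k₂ r).indicator (fun _ => (1 : ℝ)) ω +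
      Real.exp (η * k₁) * Real.exp ((θ - η) * an P X N W ω) +
      Real.exp (-(η * k₂)) * Real.exp ((θ + η) * an P X N W ω) +
      1 / r * (∑ m ∈ W, Real.exp (θ * an P X N W ω + κ * cq P X N m ω) / (1 + y) ^ 2) := by
    intro ω
    set A : ℝ := (an P X N W ω : ℝ) with hA
    have p1 : 0 ≤ Real.exp B * (Good P X N W k₁ k₂ r).indicator (fun _ => (1 : ℝ)) ω :=
      mul_nonneg (Real.exp_pos _).le (Set.indicator_nonneg (fun _ _ => zero_le_one) _)
    have p2 : 0 ≤ Real.exp (η * k₁) * Real.exp ((θ - η) * A) := by positivity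
    have p3 : 0 ≤ Real.exp (-(η * k₂)) * Real.exp ((θ + η) * A) := by positivity
    have p4 : 0 ≤ 1 / r * (∑ m ∈ W, Real.exp (θ * A + κ * cq P X N m ω) / (1 + y) ^ 2) := by
      apply mul_nonneg (by positivity)
      exact Finset.sum_nonneg fun m _ => by positivity
    by_cases c1 : A < k₁
    · have : Real.exp (θ * A) ≤ Real.exp (η * k₁) * Real.exp ((θ - η) * A) := by
        rw [← Real.exp_add]
        apply Real.exp_le_exp.2
        nlinarith
      linarith
    by_cases c2 : k₂ < A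
    · have : Real.exp (θ * A) ≤ Real.exp (-(η * k₂)) * Real.exp ((θ + η) * A) := by
        rw [← Real.exp_add]
        apply Real.exp_le_exp.2
        nlinarith
      linarith
    push Not at c1 c2
    by_cases c3 : A ≤ cn (moved P X ω) W + r
    · have h1 : ω ∈ Good P X N W k₁ k₂ r := ⟨c1, c2, c3⟩
      have h2 : Real.exp (θ * A) ≤ Real.exp B := Real.exp_le_exp.2 (hB A c1 c2)
      rw [Set.indicator_of_mem h1, mul_one]
      linarith
    · push Not at c3
      have h1 := an_le_cn P X (W := W) (N := N) ω hy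
      rw [← hA] at h1
      have h2 : r ≤ ∑ m ∈ W, (1 + y) ^ cq P X N m ω / (1 + y) ^ 2 := by linarith
      have h3 : ∑ m ∈ W, Real.exp (θ * A + κ * cq P X N m ω) / (1 + y) ^ 2 =
          Real.exp (θ * A) * ∑ m ∈ W, (1 + y) ^ cq P X N m ω / (1 + y) ^ 2 := by
        rw [Finset.mul_sum]
        refine Finset.sum_congr rfl fun m _ => ?_
        rw [Real.exp_add, mul_comm κ, Real.exp_nat_mul, hκe]
        ring
      have h4 : Real.exp (θ * A) ≤ 1 / r * (∑ m ∈ W, Real.exp (θ * A + κ * cq P X N m ω) / (1 + y) ^ 2) := by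
        rw [h3]
        have h5 : Real.exp (θ * A) * r ≤ Real.exp (θ * A) * ∑ m ∈ W, (1 + y) ^ cq P X N m ω / (1 + y) ^ 2 := by
          gcongr
        calc Real.exp (θ * A) = 1 / r * (Real.exp (θ * A) * r) := by field_simp
          _ ≤ _ := by gcongr
      linarith
  have J1 : Integrable (fun ω => Real.exp B * (Good P X N W k₁ k₂ r).indicator (fun _ => (1 : ℝ)) ω) μ :=
    ((integrable_const (1 : ℝ)).indicator (meas_Good hX P N W k₁ k₂ r)).const_mul _
  have J2 : Integrable (fun ω => Real.exp (η * k₁) * Real.exp ((θ - η) * an P X N W ω)) μ := (I1 _).const_mul _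
  have J3 : Integrable (fun ω => Real.exp (-(η * k₂)) * Real.exp ((θ + η) * an P X N W ω)) μ := (I1 _).const_mul _
  have J4' : ∀ m ∈ W, Integrable (fun ω => Real.exp (θ * an P X N W ω + κ * cq P X N m ω) / (1 + y) ^ 2) μ :=
    fun m hm => (I2 m hm).div_const _
  have J4 : Integrable (fun ω => 1 / r * (∑ m ∈ W, Real.exp (θ * an P X N W ω + κ * cq P X N m ω) / (1 + y) ^ 2)) μ :=
    (integrable_finsetSum _ J4').const_mul _
  refine (integral_mono (I1 θ) (((J1.add J2).add J3).add J4) pw).trans ?_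
  have E1 : ∫ ω, ((((fun ω => Real.exp B * (Good P X N W k₁ k₂ r).indicator (fun _ => (1 : ℝ)) ω) +
      (fun ω => Real.exp (η * k₁) * Real.exp ((θ - η) * an P X N W ω))) +
      (fun ω => Real.exp (-(η * k₂)) * Real.exp ((θ + η) * an P X N W ω))) +
      (fun ω => 1 / r * (∑ m ∈ W, Real.exp (θ * an P X N W ω + κ * cq P X N m ω) / (1 + y) ^ 2))) ω ∂μ =
      Real.exp B * μ.real (Good P X N W k₁ k₂ r) +
      Real.exp (η * k₁) * ∫ ω, Real.exp ((θ - η) * an P X N W ω) ∂μ +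
      Real.exp (-(η * k₂)) * ∫ ω, Real.exp ((θ + η) * an P X N W ω) ∂μ +
      1 / r * (∑ m ∈ W, (∫ ω, Real.exp (θ * an P X N W ω + κ * cq P X N m ω) ∂μ) / (1 + y) ^ 2) := by
    rw [integral_add' ((J1.add J2).add J3) J4, integral_add' (J1.add J2) J3, integral_add' J1 J2,
      integral_const_mul, integral_const_mul, integral_const_mul, integral_const_mul,
      integral_indicator_const _ (meas_Good hX P N W k₁ k₂ r), integral_finsetSum _ J4']
    simp only [smul_eq_mul, mul_one, integral_div]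
  refine (le_of_eq E1).trans ?_
  have K2 := M1 (θ - η)
  have K3 := M1 (θ + η)
  have K4 : ∑ m ∈ W, (∫ ω, Real.exp (θ * an P X N W ω + κ * cq P X N m ω) ∂μ) / (1 + y) ^ 2 ≤
      ∑ m ∈ W, Real.exp ((Real.exp θ - 1) * mn P D N W + Real.exp θ * y * mn P D N {m}) / (1 + y) ^ 2 :=
    Finset.sum_le_sum fun m hm => by
      have := M2 m hm
      gcongr
  gcongr

/-- the rate function -/
noncomputable def ff (u : ℝ) : ℝ := 1 - u + u * Real.log u

/-- the probability of a level -/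
theorem level (hX : Disp μ X D) (P : ℕ → Prop) {W : Finset ℕ} {N : ℕ} {u ε ρ r y : ℝ}
    (hu : 0 < u) (hε0 : 0 < ε) (hε1 : ε ≤ 1) (hr : 0 < r) (hy : 1 ≤ y)
    (hρ : ∀ q ∈ upto P N, pr D W q ≤ ρ) (h1 : |u - 1| * ρ ≤ 1 / 2)
    (h2 : 2 * (u - 1) ^ 2 * ρ * mn P D N W ≤ 1 / 10) (h3 : 24 ≤ ε ^ 2 * (u * mn P D N W))
    (h4 : 1 / r * (∑ m ∈ W, Real.exp (u * y * mn P D N {m}) / (1 + y) ^ 2) ≤ 1 / 4) :
    1 / 4 * Real.exp (-(mn P D N W * (ff u + ε * (u * |Real.log u|)))) ≤
      μ.real (Good P X N W ((1 - ε) * (u * mn P D N W)) ((1 + ε) * (u * mn P D N W)) r) := by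
  set M := mn P D N W with hM
  have hM0 : 0 ≤ M := mn_nonneg P D N W
  set θ := Real.log u with hθ
  have hθe : Real.exp θ = u := Real.exp_log hu
  set η := ε / 4 with hη
  have hη0 : 0 ≤ η := by positivity
  set B := M * (u * θ + ε * (u * |θ|)) with hB
  have hBk : ∀ k : ℝ, (1 - ε) * (u * M) ≤ k → k ≤ (1 + ε) * (u * M) → θ * k ≤ B := by
    intro k k1 k2
    have e1 : |k - u * M| ≤ ε * (u * M) := by
      rw [abs_le]
      constructor <;> linarith
    have e2 : θ * (k - u * M) ≤ |θ| * (ε * (u * M)) := by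
      calc θ * (k - u * M) ≤ |θ * (k - u * M)| := le_abs_self _
        _ = |θ| * |k - u * M| := abs_mul _ _
        _ ≤ _ := by gcongr
    have e3 : θ * k = θ * (k - u * M) + θ * (u * M) := by ring
    have e4 : B = |θ| * (ε * (u * M)) + θ * (u * M) := by rw [hB]; ring
    rw [e3, e4]
    linarith
  have key := three hX P (W := W) (N := N) (θ := θ) (η := η) (r := r) (y := y) (B := B) hη0 hr hy hBk
  have low := low_arr hX P W N (θ := θ) hρ (by rw [hθe]; exact h1)
  rw [hθe] at key low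
  rw [← hM] at key low
  have L1 : (9 / 10 : ℝ) * Real.exp ((u - 1) * M) ≤ Real.exp ((u - 1) * M - 2 * (u - 1) ^ 2 * ρ * M) := by
    have e1 : Real.exp ((u - 1) * M - 1 / 10) ≤ Real.exp ((u - 1) * M - 2 * (u - 1) ^ 2 * ρ * M) :=
      Real.exp_le_exp.2 (by linarith)
    refine le_trans ?_ e1
    have e0 : Real.exp ((u - 1) * M - 1 / 10) = Real.exp (-(1 / 10)) * Real.exp ((u - 1) * M) := by
      rw [← Real.exp_add]
      congr 1
      ring
    rw [e0]
    have e2 := Real.add_one_le_exp (-(1 / 10 : ℝ))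
    have e3 : (9 / 10 : ℝ) ≤ Real.exp (-(1 / 10)) := by linarith
    gcongr
  have hexp3 : Real.exp (-3) ≤ 1 / 8 := by
    have e1 : (8 : ℝ) ≤ Real.exp 3 := by
      have e2 := Real.add_one_le_exp (1 : ℝ)
      have e3 : Real.exp 3 = Real.exp 1 ^ 3 := by
        rw [← Real.exp_nat_mul]
        norm_num
      rw [e3]
      calc (8 : ℝ) = 2 ^ 3 := by norm_num
        _ ≤ Real.exp 1 ^ 3 := by
          have : (2 : ℝ) ≤ Real.exp 1 := by linarith
          gcongr
    rw [Real.exp_neg, inv_eq_one_div]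
    exact one_div_le_one_div_of_le (by norm_num) e1
  have T2 : Real.exp (η * ((1 - ε) * (u * M))) * Real.exp ((Real.exp (θ - η) - 1) * M) ≤
      1 / 8 * Real.exp ((u - 1) * M) := by
    rw [← Real.exp_add]
    have e1 : Real.exp (θ - η) = u * Real.exp (-η) := by
      rw [sub_eq_add_neg, Real.exp_add, hθe]
    have e2 := exp_neg_le hη0
    have e3 : η * ((1 - ε) * (u * M)) + (u * Real.exp (-η) - 1) * M ≤ -3 + (u - 1) * M := by
      have e4 : (u * M) * Real.exp (-η) ≤ (u * M) * (1 - η + η ^ 2) := by gcongr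
      have e5 : (u * M) * (η * (1 - ε) + (1 - η + η ^ 2) - 1) = -(3 / 16 * (ε ^ 2 * (u * M))) := by
        rw [hη]
        ring
      nlinarith
    rw [e1]
    calc Real.exp (η * ((1 - ε) * (u * M)) + (u * Real.exp (-η) - 1) * M)
        ≤ Real.exp (-3 + (u - 1) * M) := Real.exp_le_exp.2 e3
      _ = Real.exp (-3) * Real.exp ((u - 1) * M) := Real.exp_add _ _
      _ ≤ _ := by gcongr
  have T3 : Real.exp (-(η * ((1 + ε) * (u * M)))) * Real.exp ((Real.exp (θ + η) - 1) * M) ≤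
      1 / 8 * Real.exp ((u - 1) * M) := by
    rw [← Real.exp_add]
    have e1 : Real.exp (θ + η) = u * Real.exp η := by
      rw [Real.exp_add, hθe]
    have e2 := exp_le (l := η) (by rw [hη]; linarith)
    have e3 : -(η * ((1 + ε) * (u * M))) + (u * Real.exp η - 1) * M ≤ -3 + (u - 1) * M := by
      have e4 : (u * M) * Real.exp η ≤ (u * M) * (1 + η + 2 * η ^ 2) := by gcongr
      have e5 : (u * M) * (-(η * (1 + ε)) + (1 + η + 2 * η ^ 2) - 1) = -(1 / 8 * (ε ^ 2 * (u * M))) := by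
        rw [hη]
        ring
      nlinarith
    rw [e1]
    calc Real.exp (-(η * ((1 + ε) * (u * M))) + (u * Real.exp η - 1) * M)
        ≤ Real.exp (-3 + (u - 1) * M) := Real.exp_le_exp.2 e3
      _ = Real.exp (-3) * Real.exp ((u - 1) * M) := Real.exp_add _ _
      _ ≤ _ := by gcongr
  have T4 : 1 / r * (∑ m ∈ W, Real.exp ((u - 1) * M + u * y * mn P D N {m}) / (1 + y) ^ 2) ≤
      1 / 4 * Real.exp ((u - 1) * M) := by
    have e1 : ∑ m ∈ W, Real.exp ((u - 1) * M + u * y * mn P D N {m}) / (1 + y) ^ 2 =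
        Real.exp ((u - 1) * M) * ∑ m ∈ W, Real.exp (u * y * mn P D N {m}) / (1 + y) ^ 2 := by
      rw [Finset.mul_sum]
      refine Finset.sum_congr rfl fun m _ => ?_
      rw [Real.exp_add]
      ring
    rw [e1]
    have e2 := mul_le_mul_of_nonneg_left h4 (Real.exp_pos ((u - 1) * M)).le
    calc 1 / r * (Real.exp ((u - 1) * M) * ∑ m ∈ W, Real.exp (u * y * mn P D N {m}) / (1 + y) ^ 2)
        = Real.exp ((u - 1) * M) * (1 / r * ∑ m ∈ W, Real.exp (u * y * mn P D N {m}) / (1 + y) ^ 2) := by ring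
      _ ≤ _ := e2
      _ = _ := by ring
  have hE := Real.exp_pos ((u - 1) * M)
  have F : 1 / 4 * Real.exp ((u - 1) * M) ≤
      Real.exp B * μ.real (Good P X N W ((1 - ε) * (u * M)) ((1 + ε) * (u * M)) r) := by linarith
  have G : Real.exp (-(M * (ff u + ε * (u * |θ|)))) = Real.exp (-B) * Real.exp ((u - 1) * M) := by
    rw [← Real.exp_add]
    congr 1
    rw [hB]
    unfold ff
    rw [← hθ]
    ring
  rw [G]
  have hBB : Real.exp (-B) * Real.exp B = 1 := by
    rw [← Real.exp_add]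
    simp
  calc 1 / 4 * (Real.exp (-B) * Real.exp ((u - 1) * M))
      = Real.exp (-B) * (1 / 4 * Real.exp ((u - 1) * M)) := by ring
    _ ≤ Real.exp (-B) * (Real.exp B * μ.real (Good P X N W ((1 - ε) * (u * M)) ((1 + ε) * (u * M)) r)) := by gcongr
    _ = (Real.exp (-B) * Real.exp B) * μ.real (Good P X N W ((1 - ε) * (u * M)) ((1 + ε) * (u * M)) r) := by ring
    _ = _ := by rw [hBB, one_mul]

/-- upper tail -/
theorem chern_up (hX : Disp μ X D) (P : ℕ → Prop) {W : Finset ℕ} {N : ℕ} (hN : ∀ m ∈ W, m ≤ N) {u k T : ℝ}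
    (hu : 1 ≤ u) (hT : mn P D N W ≤ T) :
    μ.real {ω | k ≤ (cn (moved P X ω) W : ℝ)} ≤ Real.exp (-(k * Real.log u) + (u - 1) * T) := by
  have hP : IsProbabilityMeasure μ := hX.indep.isProbabilityMeasure
  have hu0 : 0 < u := by linarith
  set θ := Real.log u with hθ
  have hθe : Real.exp θ = u := Real.exp_log hu0
  have hθ0 : 0 ≤ θ := Real.log_nonneg hu
  have hw : ∀ m, m ∉ W → (fun m => if m ∈ W then θ else 0) m = 0 := fun m hm => if_neg hm
  have hint := int_wt hX P hw N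
  have hg := gen_le hX P hw N
  simp only [wt_one] at hint hg
  have g0 : μ.real {ω | k ≤ (cn (moved P X ω) W : ℝ)} ≤ μ.real {ω | k ≤ (an P X N W ω : ℝ)} := by
    apply measureReal_mono
    · intro ω hω
      have h1 : k ≤ (cn (moved P X ω) W : ℝ) := hω
      have h2 : (cn (moved P X ω) W : ℝ) ≤ an P X N W ω := by exact_mod_cast cn_le_an P X hN ω
      exact h1.trans h2
    · exact measure_ne_top μ _
  refine g0.trans ?_
  refine (measure_ge_le_exp_mul_mgf (μ := μ) (X := fun ω => (an P X N W ω : ℝ)) (t := θ) k hθ0 hint).trans ?_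
  have e1 : mgf (fun ω => (an P X N W ω : ℝ)) μ θ ≤ Real.exp ((u - 1) * T) := by
    unfold mgf
    refine hg.trans (Real.exp_le_exp.2 ?_)
    have e2 : ∑ m ∈ W, (Real.exp (if m ∈ W then θ else 0) - 1) * mn P D N {m} = (u - 1) * mn P D N W := by
      rw [mn_sum P D N W, Finset.mul_sum]
      refine Finset.sum_congr rfl fun m hm => ?_
      rw [if_pos hm, hθe]
    rw [e2]
    have : 0 ≤ u - 1 := by linarith
    gcongr
  refine (mul_le_mul_of_nonneg_left e1 (Real.exp_pos _).le).trans (le_of_eq ?_)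
  rw [← Real.exp_add]
  congr 1
  ring

/-- lower tail -/
theorem chern_low (hX : Disp μ X D) (P : ℕ → Prop) {W : Finset ℕ} {N : ℕ} (hN : ∀ m ∈ W, m ≤ N) {u k T ε : ℝ}
    (hu0 : 0 < u) (hu : u ≤ 1) (hε : ε ≤ 1) (hd : ∀ m ∈ W, mn P D N {m} ≤ ε) (hT : T ≤ mn P D N W) :
    μ.real {ω | (cn (moved P X ω) W : ℝ) ≤ k} ≤ Real.exp (-(k * Real.log u) - (1 - u) * ((1 - ε) * T)) := by
  have hP : IsProbabilityMeasure μ := hX.indep.isProbabilityMeasure
  set θ := Real.log u with hθ
  have hθe : Real.exp θ = u := Real.exp_log hu0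
  have hθ0 : θ ≤ 0 := Real.log_nonpos hu0.le hu
  have hint : Integrable (fun ω => Real.exp (θ * (cn (moved P X ω) W : ℝ))) μ := by
    refine Integrable.of_bound ((Real.measurable_exp.comp ((meas_cn hX P W).const_mul θ)).aestronglyMeasurable) 1 ?_
    refine Eventually.of_forall fun ω => ?_
    rw [Real.norm_eq_abs, abs_of_pos (Real.exp_pos _)]
    apply Real.exp_le_one_iff.2
    have : (0 : ℝ) ≤ cn (moved P X ω) W := Nat.cast_nonneg _
    nlinarith
  refine (measure_le_le_exp_mul_mgf (μ := μ) (X := fun ω => (cn (moved P X ω) W : ℝ)) (t := θ) k hθ0 hint).trans ?_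
  have e1 : mgf (fun ω => (cn (moved P X ω) W : ℝ)) μ θ ≤ Real.exp (-((1 - u) * ((1 - ε) * T))) := by
    have e2 : mgf (fun ω => (cn (moved P X ω) W : ℝ)) μ θ = ∫ ω, (1 - (1 - u)) ^ cn (moved P X ω) W ∂μ := by
      unfold mgf
      refine integral_congr_ae (Eventually.of_forall fun ω => ?_)
      show Real.exp (θ * (cn (moved P X ω) W : ℝ)) = (1 - (1 - u)) ^ cn (moved P X ω) W
      rw [sub_sub_cancel, mul_comm, Real.exp_nat_mul, hθe]
    rw [e2]
    refine (lower_mgf hX P hN (by linarith) (by linarith)).trans ?_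
    have e3 : Real.exp (-((1 - u) * ((1 - ε) * mn P D N W))) ≤ Real.exp (-((1 - u) * ((1 - ε) * T))) := by
      apply Real.exp_le_exp.2
      have h1 : 0 ≤ 1 - u := by linarith
      have h2 : 0 ≤ 1 - ε := by linarith
      have h3 : (1 - u) * ((1 - ε) * T) ≤ (1 - u) * ((1 - ε) * mn P D N W) := by gcongr
      linarith
    refine le_trans ?_ e3
    have e4 : (1 - ε) * mn P D N W = ∑ m ∈ W, (1 - ε) * mn P D N {m} := by
      rw [mn_sum, Finset.mul_sum]
    rw [e4, Finset.mul_sum, ← Finset.sum_neg_distrib, Real.exp_sum]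
    apply Finset.prod_le_prod
    · intro m _
      have := av1_nonneg P D N m
      nlinarith
    · intro m hm
      have d0 := mn_nonneg P D N {m}
      have d1 := hd m hm
      have d2 := av1_le P D N m
      have d3 := exp_neg_le d0
      have d4 : (1 - ε) * mn P D N {m} ≤ 1 - av1 P D N m := by
        nlinarith
      have d5 := Real.add_one_le_exp (-((1 - u) * ((1 - ε) * mn P D N {m})))
      have d6 : (1 - u) * ((1 - ε) * mn P D N {m}) ≤ (1 - u) * (1 - av1 P D N m) :=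
        mul_le_mul_of_nonneg_left d4 (by linarith)
      linarith
  refine (mul_le_mul_of_nonneg_left e1 (Real.exp_pos _).le).trans (le_of_eq ?_)
  rw [← Real.exp_add]
  congr 1
  ring

end Pool.Agent.Q268.XL
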