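import Mathlib
import Pool.Agent.Q268.XL.Gen
import Pool.Agent.Q268.DL.Iff

/-!
The probabilities of the levels in windows of length `a log² n`.
-/

set_option autoImplicit false

namespace Pool.Agent.Q268.XL

open Filter Finset MeasureTheory ProbabilityTheory
open Pool.Agent.Q268.DP Pool.Agent.Q268.DL
open scoped ENNReal Topology

theorem hlogN' : Tendsto (fun q : ℕ => Real.log q) atTop atTop :=
  Real.tendsto_log_atTop.comp tendsto_natCast_atTop_atTop

/-- single displaced primes fall into a given short window with small probability -/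
theorem pr_small {D : ℕ → ℕ} (hs : Tendsto (fun q : ℕ => (D q : ℝ) / q) atTop (𝓝 0))
    (h4 : ∀ᶠ q : ℕ in atTop, Real.log q ^ 4 ≤ D q) {C : ℝ} (hC : 0 < C) :
    ∀ᶠ n : ℕ in atTop, ∀ h : ℕ, (h : ℝ) ≤ C * Real.log n ^ 2 → ∀ q : ℕ,
      pr D (Ioc n (n + h)) q ≤ 16 * C / Real.log n ^ 2 := by
  obtain ⟨q₀, hq₀⟩ := eventually_atTop.1 (h4.and ((hs.eventually_le_const (show (0 : ℝ) < 1 by norm_num)).and
    (eventually_gt_atTop 0)))
  filter_upwards [eventually_gt_atTop ((range q₀).sup (fun q => q + D q)), hlogN'.eventually_ge_atTop 2]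
    with n hn hl h hh q
  have hl0 : 0 < Real.log n := by linarith
  by_cases hz : pr D (Ioc n (n + h)) q = 0
  · rw [hz]
    positivity
  · have h1 : ¬ ∀ m ∈ Ioc n (n + h), q + D q < m ∨ m < q := fun hc => hz (pr_zero D hc)
    push Not at h1
    obtain ⟨m, hm, hm1, hm2⟩ := h1
    rw [Finset.mem_Ioc] at hm
    have hq : q₀ ≤ q := by
      by_contra hcon
      push Not at hcon
      have := Finset.le_sup (f := fun q => q + D q) (Finset.mem_range.2 hcon)
      omega
    obtain ⟨e1, e2, e3⟩ := hq₀ q hq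
    have hq0 : (0 : ℝ) < q := by exact_mod_cast e3
    rw [div_le_one hq0] at e2
    have e2' : D q ≤ q := by exact_mod_cast e2
    have e4 : (n : ℝ) ≤ 2 * q := by
      have : n ≤ 2 * q := by omega
      exact_mod_cast this
    have hn0 : (0 : ℝ) < n := by
      have : 0 < n := by omega
      exact_mod_cast this
    have e5 : Real.log n / 2 ≤ Real.log q := by
      have e6 : Real.log n ≤ Real.log (2 * q) := Real.log_le_log hn0 e4
      rw [Real.log_mul (by norm_num) hq0.ne'] at e6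
      have := Real.log_two_lt_d9
      linarith
    have e6 : (Real.log n / 2) ^ 4 ≤ D q := by
      refine le_trans ?_ e1
      gcongr
    refine (pr_le D _ q).trans ?_
    have hcard : (Ioc n (n + h)).card = h := by rw [Nat.card_Ioc]; omega
    rw [hcard]
    have e7 : 0 < (Real.log n / 2) ^ 4 := by positivity
    calc (h : ℝ) / ((D q : ℝ) + 1) ≤ (C * Real.log n ^ 2) / (Real.log n / 2) ^ 4 := by
          gcongr
          linarith
      _ = 16 * C / Real.log n ^ 2 := by
          field_simp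
          norm_num

/-- the means -/
theorem M_near {D : ℕ → ℕ} (hP : Tendsto (fun m : ℕ => dn D m * Real.log m) atTop (𝓝 1)) {a : ℝ} (ha : 0 < a)
    (K : ℝ) {ε : ℝ} (hε : 0 < ε) : ∀ᶠ n : ℕ in atTop, ∀ h : ℕ, |(h : ℝ) - a * Real.log n ^ 2| ≤ K →
      |mw Nat.Prime D n h - a * Real.log n| ≤ ε * (a * Real.log n) := by
  set e := min (ε / 4) 1 with he
  have he0 : 0 < e := lt_min (by positivity) one_pos
  have he1 : e ≤ ε / 4 := min_le_left _ _
  have he2 : e ≤ 1 := min_le_right _ _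
  have g1 := tendsto_natCast_atTop_atTop (R := ℝ) |>.eventually (loggrow (2 * a) 2 one_pos)
  filter_upwards [mw_of_dn hP he0, g1, hlogN'.eventually_ge_atTop (max 1 (max (|K| / (e * a)) (|K| / a)))]
    with n h1 g1 h2 h h3
  have l1 : 1 ≤ Real.log n := (le_max_left _ _).trans h2
  have l2 : |K| / (e * a) ≤ Real.log n := ((le_max_left _ _).trans (le_max_right _ _)).trans h2
  have l3 : |K| / a ≤ Real.log n := ((le_max_right _ _).trans (le_max_right _ _)).trans h2
  have hl0 : 0 < Real.log n := by linarith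
  rw [div_le_iff₀ (by positivity)] at l2 l3
  have hK : K ≤ |K| := le_abs_self K
  have e0 : (Real.log n : ℝ) ^ (2 : ℝ) = Real.log n ^ 2 := by
    rw [← Real.rpow_natCast]
    norm_num
  rw [e0] at g1
  rw [abs_le] at h3
  have h3n : (h : ℝ) ≤ ((3 * n : ℕ) : ℝ) := by
    push_cast
    have : |K| ≤ a * Real.log n ^ 2 := by nlinarith
    have hn0 : (0 : ℝ) ≤ n := Nat.cast_nonneg n
    linarith [h3.2]
  have h4 := h1 h (by exact_mod_cast h3n)
  have h5 : |(h : ℝ) / Real.log n - a * Real.log n| ≤ e * (a * Real.log n) := by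
    have e1 : (h : ℝ) / Real.log n - a * Real.log n = ((h : ℝ) - a * Real.log n ^ 2) / Real.log n := by
      field_simp
    rw [e1, abs_div, abs_of_pos hl0, div_le_iff₀ hl0]
    have : |(h : ℝ) - a * Real.log n ^ 2| ≤ |K| := by
      rw [abs_le]
      constructor <;> linarith
    refine this.trans ?_
    have e2 : e * (a * Real.log n) * Real.log n = Real.log n * (e * a) * Real.log n := by ring
    rw [e2]
    nlinarith [abs_nonneg K]
  have h6 : (h : ℝ) / Real.log n ≤ 2 * (a * Real.log n) := by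
    rw [abs_le] at h5
    have : e * (a * Real.log n) ≤ 1 * (a * Real.log n) := by gcongr
    linarith [h5.2]
  rw [abs_le] at h4 h5 ⊢
  have h7 : e * ((h : ℝ) / Real.log n) ≤ e * (2 * (a * Real.log n)) := by gcongr
  have h8 : 0 < a * Real.log n := by positivity
  have h9 : 3 * e * (a * Real.log n) ≤ ε * (a * Real.log n) := by
    have : 3 * e ≤ ε := by linarith
    gcongr
  constructor <;> linarith [h4.1, h4.2, h5.1, h5.2]

theorem ff_nonneg {u : ℝ} (hu : 0 < u) : 0 ≤ ff u := by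
  unfold ff
  have h := Real.one_sub_inv_le_log_of_pos hu
  have h2 : u * (1 - u⁻¹) ≤ u * Real.log u := by gcongr
  have h3 : u * (1 - u⁻¹) = u - 1 := by field_simp
  linarith

theorem ff_cont : Continuous ff := by
  unfold ff
  exact (continuous_const.sub continuous_id).add Real.continuous_mul_log

variable {Ω : Type} [MeasurableSpace Ω] {μ : Measure Ω} {X : ℕ → Ω → ℕ} {D : ℕ → ℕ}

/-- the probability of a level, asymptotically -/
theorem low_level (hX : Disp μ X D) (hs : Tendsto (fun q : ℕ => (D q : ℝ) / q) atTop (𝓝 0))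
    (h4 : ∀ᶠ q : ℕ in atTop, Real.log q ^ 4 ≤ D q)
    (hP : Tendsto (fun m : ℕ => dn D m * Real.log m) atTop (𝓝 1)) {a : ℝ} (ha : 0 < a) {K : ℝ} (hK : 0 ≤ K)
    {h : ℕ → ℕ} (hh : ∀ n : ℕ, |(h n : ℝ) - a * Real.log n ^ 2| ≤ K) {u ε : ℝ} (hu : 0 < u) (hε0 : 0 < ε)
    (hε1 : ε ≤ 1) : ∃ r : ℝ, 0 < r ∧ ∀ᶠ n : ℕ in atTop,
      1 / 4 * Real.exp (-((1 + ε) * (a * (ff u + ε * |u * Real.log u|)) * Real.log n)) ≤
        μ.real (Good Nat.Prime X (n + h n) (Ioc n (n + h n)) ((1 - ε) * (u * mw Nat.Prime D n (h n)))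
          ((1 + ε) * (u * mw Nat.Prime D n (h n))) r) := by
  set C := a + K with hC
  have hC0 : 0 < C := by positivity
  refine ⟨4 * C * Real.exp (2 * u), by positivity, ?_⟩
  have hd : ∀ᶠ m : ℕ in atTop, dn D m * Real.log m ≤ 2 := hP.eventually_le_const (by norm_num)
  obtain ⟨m₀, hm₀⟩ := eventually_atTop.1 hd
  have hub : 0 ≤ |u - 1| := abs_nonneg _
  filter_upwards [pr_small hs h4 hC0, M_near hP ha K hε0, eventually_ge_atTop m₀,
    hlogN'.eventually_ge_atTop (max 1 (max (32 * C * |u - 1|) (max (640 * (u - 1) ^ 2 * C * (a + a)) (48 / (ε ^ 2 * (u * a) * (1 / 2) ) + 48 / (ε ^ 2 * (u * a))))))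
    , M_near hP ha K (show (0 : ℝ) < 1 / 2 by norm_num)]
    with n h1 h2 h3 hl h2'
  have l1 : 1 ≤ Real.log n := (le_max_left _ _).trans hl
  have l2 : 32 * C * |u - 1| ≤ Real.log n := ((le_max_left _ _).trans (le_max_right _ _)).trans hl
  have l3 : 640 * (u - 1) ^ 2 * C * (a + a) ≤ Real.log n :=
    (((le_max_left _ _).trans (le_max_right _ _)).trans (le_max_right _ _)).trans hl
  have l4 : 48 / (ε ^ 2 * (u * a) * (1 / 2)) + 48 / (ε ^ 2 * (u * a)) ≤ Real.log n :=
    (((le_max_right _ _).trans (le_max_right _ _)).trans (le_max_right _ _)).trans hl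
  have hl0 : 0 < Real.log n := by linarith
  have hhn := hh n
  have hle : (h n : ℝ) ≤ C * Real.log n ^ 2 := by
    rw [abs_le] at hhn
    have : 1 ≤ Real.log n ^ 2 := one_le_pow₀ l1
    rw [hC]
    nlinarith [hhn.2]
  have k1 := h1 (h n) hle
  have k2 := h2 (h n) hhn
  have k3 := h2' (h n) hhn
  set M := mw Nat.Prime D n (h n) with hM
  rw [abs_le] at k2 k3
  have hal : 0 < a * Real.log n := by positivity
  have M1 : M ≤ (1 + ε) * (a * Real.log n) := by linarith [k2.2]
  have M2 : a * Real.log n / 2 ≤ M := by linarith [k3.1]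
  have M3 : M ≤ 2 * (a * Real.log n) := by linarith [k3.2]
  have key := level hX Nat.Prime (W := Ioc n (n + h n)) (N := n + h n) (u := u) (ε := ε)
    (ρ := 16 * C / Real.log n ^ 2) (r := 4 * C * Real.exp (2 * u)) (y := Real.log n) hu hε0 hε1 (by positivity) l1
    (fun q _ => k1 q) ?_ ?_ ?_ ?_
  · refine le_trans ?_ key
    have e1 : mn Nat.Prime D (n + h n) (Ioc n (n + h n)) = M := rfl
    rw [e1]
    have e2 : u * |Real.log u| = |u * Real.log u| := by rw [abs_mul, abs_of_pos hu]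
    rw [e2]
    have e3 := ff_nonneg hu
    have e4 : 0 ≤ ff u + ε * |u * Real.log u| := by positivity
    have e5 : M * (ff u + ε * |u * Real.log u|) ≤ (1 + ε) * (a * (ff u + ε * |u * Real.log u|)) * Real.log n := by
      calc M * (ff u + ε * |u * Real.log u|) ≤ ((1 + ε) * (a * Real.log n)) * (ff u + ε * |u * Real.log u|) := by gcongr
        _ = _ := by ring
    have e6 : Real.exp (-((1 + ε) * (a * (ff u + ε * |u * Real.log u|)) * Real.log n)) ≤
        Real.exp (-(M * (ff u + ε * |u * Real.log u|))) := Real.exp_le_exp.2 (by linarith)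
    linarith
  · rw [← mul_div_assoc, div_le_iff₀ (by positivity)]
    have : Real.log n ≤ Real.log n ^ 2 := by nlinarith
    nlinarith
  · have e1 : mn Nat.Prime D (n + h n) (Ioc n (n + h n)) = M := rfl
    rw [e1]
    have e2 : 2 * (u - 1) ^ 2 * (16 * C / Real.log n ^ 2) * M ≤
        2 * (u - 1) ^ 2 * (16 * C / Real.log n ^ 2) * (2 * (a * Real.log n)) := by gcongr
    refine e2.trans ?_
    have e3 : 2 * (u - 1) ^ 2 * (16 * C / Real.log n ^ 2) * (2 * (a * Real.log n)) =
        (64 * (u - 1) ^ 2 * C * a) / Real.log n := by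
      field_simp
      ring
    rw [e3, div_le_iff₀ hl0]
    nlinarith
  · have e1 : mn Nat.Prime D (n + h n) (Ioc n (n + h n)) = M := rfl
    rw [e1]
    have e2 : 48 / (ε ^ 2 * (u * a)) ≤ Real.log n := by
      have : 0 ≤ 48 / (ε ^ 2 * (u * a) * (1 / 2)) := by positivity
      linarith
    rw [div_le_iff₀ (by positivity)] at e2
    have e3 : ε ^ 2 * (u * (a * Real.log n / 2)) ≤ ε ^ 2 * (u * M) := by gcongr
    nlinarith
  · have e1 : ∑ m ∈ Ioc n (n + h n), Real.exp (u * Real.log n * mn Nat.Prime D (n + h n) {m}) / (1 + Real.log n) ^ 2 ≤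
        ∑ _m ∈ Ioc n (n + h n), Real.exp (2 * u) / Real.log n ^ 2 := by
      refine Finset.sum_le_sum fun m hm => ?_
      rw [Finset.mem_Ioc] at hm
      have e2 : mn Nat.Prime D (n + h n) {m} = dn D m := mn_single Nat.Prime D hm.2
      have e3 := hm₀ m (by omega)
      have e4 : Real.log n ≤ Real.log m := Real.log_le_log (by
        have h5 : (0 : ℝ) < n := by
          have : n ≠ 0 := by
            rintro rfl
            simp at l1
            linarith
          exact_mod_cast Nat.pos_of_ne_zero this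
        exact h5) (by exact_mod_cast hm.1.le)
      have e5 : Real.log n * dn D m ≤ 2 := by
        have := dn_nonneg D m
        nlinarith
      have e6 : u * Real.log n * mn Nat.Prime D (n + h n) {m} ≤ 2 * u := by
        rw [e2]
        nlinarith
      have e7 := Real.exp_le_exp.2 e6
      gcongr
      linarith
    have hcard : (Ioc n (n + h n)).card = h n := by rw [Nat.card_Ioc]; omega
    rw [Finset.sum_const, hcard, nsmul_eq_mul] at e1
    have e2 : (h n : ℝ) * (Real.exp (2 * u) / Real.log n ^ 2) ≤ C * Real.exp (2 * u) := by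
      calc (h n : ℝ) * (Real.exp (2 * u) / Real.log n ^ 2)
          ≤ (C * Real.log n ^ 2) * (Real.exp (2 * u) / Real.log n ^ 2) := by gcongr
        _ = _ := by field_simp
    calc 1 / (4 * C * Real.exp (2 * u)) *
          (∑ m ∈ Ioc n (n + h n), Real.exp (u * Real.log n * mn Nat.Prime D (n + h n) {m}) / (1 + Real.log n) ^ 2)
        ≤ 1 / (4 * C * Real.exp (2 * u)) * (C * Real.exp (2 * u)) := by
          gcongr
          exact e1.trans e2
      _ = 1 / 4 := by field_simp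

theorem exp_log_pow {n : ℕ} (hn : 0 < n) (σ : ℝ) : Real.exp (-(σ * Real.log n)) = 1 / (n : ℝ) ^ σ := by
  have hn0 : (0 : ℝ) < n := by exact_mod_cast hn
  rw [Real.rpow_def_of_pos hn0, Real.exp_neg, mul_comm σ, one_div]

/-- choice of the parameter -/
theorem choose_eps {a u τ : ℝ} (ha : 0 < a) (hu : 0 < u) (hau : a * ff u < τ) (s : ℝ) :
    ∃ ε : ℝ, 0 < ε ∧ ε ≤ 1 / 2 ∧ ∃ σ : ℝ, 0 ≤ σ ∧ σ < τ ∧
      (1 + ε) * (a * (ff (u / (1 + s * ε) ^ 3) + ε * |u / (1 + s * ε) ^ 3 * Real.log (u / (1 + s * ε) ^ 3)|)) ≤ σ := by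
  set v : ℝ → ℝ := fun ε => u / (1 + s * ε) ^ 3 with hv
  have hvc : ContinuousAt v 0 := by
    apply ContinuousAt.div continuousAt_const
    · fun_prop
    · norm_num
  have hv0 : v 0 = u := by simp [hv]
  set G : ℝ → ℝ := fun ε => (1 + ε) * (a * (ff (v ε) + ε * |v ε * Real.log (v ε)|)) with hG
  have h1 : ContinuousAt (fun ε => ff (v ε)) 0 := ff_cont.continuousAt.comp hvc
  have h2 : ContinuousAt (fun ε => v ε * Real.log (v ε)) 0 :=
    ContinuousAt.comp (g := fun x : ℝ => x * Real.log x) Real.continuous_mul_log.continuousAt hvc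
  have hGc : ContinuousAt G 0 :=
    (continuousAt_const.add continuousAt_id).mul (continuousAt_const.mul (h1.add (continuousAt_id.mul h2.abs)))
  have hG0 : G 0 = a * ff u := by
    simp only [hG, hv0]
    ring
  have h3 : ∀ᶠ ε in 𝓝[>] (0 : ℝ), G ε < τ := by
    have : Tendsto G (𝓝[>] 0) (𝓝 (a * ff u)) := hG0 ▸ hGc.tendsto.mono_left nhdsWithin_le_nhds
    exact this.eventually_lt_const hau
  have h4 : ∀ᶠ ε in 𝓝[>] (0 : ℝ), ε ∈ Set.Ioo (0 : ℝ) (1 / 2) := Ioo_mem_nhdsGT (by norm_num)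
  obtain ⟨ε, e1, e2⟩ := (h3.and h4).exists
  have hτ : 0 < τ := lt_of_le_of_lt (mul_nonneg ha.le (ff_nonneg hu)) hau
  refine ⟨ε, e2.1, e2.2.le, max 0 (G ε), le_max_left _ _, max_lt hτ e1, le_max_right _ _⟩

/-- many elements -/
theorem prob_up (hX : Disp μ X D) (hs : Tendsto (fun q : ℕ => (D q : ℝ) / q) atTop (𝓝 0))
    (h4 : ∀ᶠ q : ℕ in atTop, Real.log q ^ 4 ≤ D q)
    (hP : Tendsto (fun m : ℕ => dn D m * Real.log m) atTop (𝓝 1)) {a : ℝ} (ha : 0 < a) {K : ℝ} (hK : 0 ≤ K)
    {h : ℕ → ℕ} (hh : ∀ n : ℕ, |(h n : ℝ) - a * Real.log n ^ 2| ≤ K) {u τ : ℝ} (hu : 1 < u) (hau : a * ff u < τ) :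
    ∃ σ : ℝ, 0 ≤ σ ∧ σ < τ ∧ ∀ᶠ n : ℕ in atTop, 1 / 4 * (1 / (n : ℝ) ^ σ) ≤
      μ.real {ω | u * (a * Real.log n) < cw (moved Nat.Prime X ω) n (h n)} := by
  have hPr : IsProbabilityMeasure μ := hX.indep.isProbabilityMeasure
  have hu0 : 0 < u := by linarith
  obtain ⟨ε, e0, e1, σ, s0, s1, s2⟩ := choose_eps ha hu0 hau (-1)
  set v := u / (1 + -1 * ε) ^ 3 with hv
  have hb0 : 0 < 1 - ε := by linarith
  have hv' : v = u / (1 - ε) ^ 3 := by rw [hv]; ring_nf
  have hv0 : 0 < v := by rw [hv']; positivity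
  obtain ⟨r, hr, key⟩ := low_level hX hs h4 hP ha hK hh hv0 e0 (by linarith)
  refine ⟨σ, s0, s1, ?_⟩
  have hgap : 0 < u / (1 - ε) - u := by
    rw [sub_pos, lt_div_iff₀ hb0]
    nlinarith
  filter_upwards [key, M_near hP ha K e0, eventually_gt_atTop 0,
    hlogN'.eventually_ge_atTop (max 1 ((r + 1) / ((u / (1 - ε) - u) * a)))] with n h1 h2 h3 h5
  have l1 : 1 ≤ Real.log n := (le_max_left _ _).trans h5
  have l2 : (r + 1) / ((u / (1 - ε) - u) * a) ≤ Real.log n := (le_max_right _ _).trans h5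
  rw [div_le_iff₀ (by positivity)] at l2
  have hl0 : 0 < Real.log n := by linarith
  have k1 := h2 (h n) (hh n)
  set M := mw Nat.Prime D n (h n) with hM
  rw [abs_le] at k1
  rw [← exp_log_pow h3]
  have e3 : Real.exp (-(σ * Real.log n)) ≤
      Real.exp (-((1 + ε) * (a * (ff v + ε * |v * Real.log v|)) * Real.log n)) := by
    apply Real.exp_le_exp.2
    have := mul_le_mul_of_nonneg_right s2 hl0.le
    linarith
  have e4 : 1 / 4 * Real.exp (-(σ * Real.log n)) ≤
      μ.real (Good Nat.Prime X (n + h n) (Ioc n (n + h n)) ((1 - ε) * (v * M)) ((1 + ε) * (v * M)) r) := by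
    linarith
  refine e4.trans ?_
  apply measureReal_mono _ (measure_ne_top μ _)
  rintro ω ⟨g1, -, g3⟩
  simp only [Set.mem_ofPred_eq]
  have e5 : (1 - ε) * (v * ((1 - ε) * (a * Real.log n))) ≤ (1 - ε) * (v * M) := by
    have : (1 - ε) * (a * Real.log n) ≤ M := by linarith [k1.1]
    gcongr
  have e6 : (1 - ε) * (v * ((1 - ε) * (a * Real.log n))) = u / (1 - ε) * (a * Real.log n) := by
    rw [hv']
    field_simp
  have e7 : (cw (moved Nat.Prime X ω) n (h n) : ℝ) = cn (moved Nat.Prime X ω) (Ioc n (n + h n)) := rfl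
  rw [e7]
  have e8 : u / (1 - ε) * (a * Real.log n) - u * (a * Real.log n) = Real.log n * ((u / (1 - ε) - u) * a) := by ring
  linarith

/-- few elements -/
theorem prob_low (hX : Disp μ X D) (hs : Tendsto (fun q : ℕ => (D q : ℝ) / q) atTop (𝓝 0))
    (h4 : ∀ᶠ q : ℕ in atTop, Real.log q ^ 4 ≤ D q)
    (hP : Tendsto (fun m : ℕ => dn D m * Real.log m) atTop (𝓝 1)) {a : ℝ} (ha : 0 < a) {K : ℝ} (hK : 0 ≤ K)
    {h : ℕ → ℕ} (hh : ∀ n : ℕ, |(h n : ℝ) - a * Real.log n ^ 2| ≤ K) {u τ : ℝ} (hu0 : 0 < u)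
    (hau : a * ff u < τ) :
    ∃ σ : ℝ, 0 ≤ σ ∧ σ < τ ∧ ∀ᶠ n : ℕ in atTop, 1 / 4 * (1 / (n : ℝ) ^ σ) ≤
      μ.real {ω | (cw (moved Nat.Prime X ω) n (h n) : ℝ) < u * (a * Real.log n)} := by
  have hPr : IsProbabilityMeasure μ := hX.indep.isProbabilityMeasure
  obtain ⟨ε, e0, e1, σ, s0, s1, s2⟩ := choose_eps ha hu0 hau 1
  set v := u / (1 + 1 * ε) ^ 3 with hv
  have hb0 : 0 < 1 + ε := by linarith
  have hv' : v = u / (1 + ε) ^ 3 := by rw [hv]; ring_nf
  have hv0 : 0 < v := by rw [hv']; positivity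
  obtain ⟨r, hr, key⟩ := low_level hX hs h4 hP ha hK hh hv0 e0 (by linarith)
  refine ⟨σ, s0, s1, ?_⟩
  filter_upwards [key, M_near hP ha K e0, eventually_gt_atTop 0,
    hlogN'.eventually_ge_atTop 1] with n h1 h2 h3 l1
  have hl0 : 0 < Real.log n := by linarith
  have k1 := h2 (h n) (hh n)
  set M := mw Nat.Prime D n (h n) with hM
  rw [abs_le] at k1
  rw [← exp_log_pow h3]
  have e3 : Real.exp (-(σ * Real.log n)) ≤
      Real.exp (-((1 + ε) * (a * (ff v + ε * |v * Real.log v|)) * Real.log n)) := by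
    apply Real.exp_le_exp.2
    have := mul_le_mul_of_nonneg_right s2 hl0.le
    linarith
  have e4 : 1 / 4 * Real.exp (-(σ * Real.log n)) ≤
      μ.real (Good Nat.Prime X (n + h n) (Ioc n (n + h n)) ((1 - ε) * (v * M)) ((1 + ε) * (v * M)) r) := by
    linarith
  refine e4.trans ?_
  apply measureReal_mono _ (measure_ne_top μ _)
  rintro ω ⟨-, g2, -⟩
  simp only [Set.mem_ofPred_eq]
  have e5 : (1 + ε) * (v * M) ≤ (1 + ε) * (v * ((1 + ε) * (a * Real.log n))) := by
    have : M ≤ (1 + ε) * (a * Real.log n) := by linarith [k1.2]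
    gcongr
  have e6 : (1 + ε) * (v * ((1 + ε) * (a * Real.log n))) = u / (1 + ε) * (a * Real.log n) := by
    rw [hv']
    field_simp
  have e7 : (cw (moved Nat.Prime X ω) n (h n) : ℝ) ≤ an Nat.Prime X (n + h n) (Ioc n (n + h n)) ω := by
    exact_mod_cast cn_le_an Nat.Prime X (fun m hm => (Finset.mem_Ioc.1 hm).2) ω
  have e8 : u / (1 + ε) * (a * Real.log n) < u * (a * Real.log n) := by
    apply mul_lt_mul_of_pos_right _ (by positivity)
    rw [div_lt_iff₀ hb0]
    nlinarith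
  linarith

/-- not too many -/
theorem prob_not_up (hX : Disp μ X D)
    (hP : Tendsto (fun m : ℕ => dn D m * Real.log m) atTop (𝓝 1)) {a : ℝ} (ha : 0 < a) (K : ℝ)
    {h : ℕ → ℕ} (hh : ∀ n : ℕ, |(h n : ℝ) - a * Real.log n ^ 2| ≤ K) {u : ℝ} (hu : 1 < u) (hau : 1 < a * ff u) :
    ∃ σ : ℝ, 1 < σ ∧ ∀ᶠ n : ℕ in atTop,
      μ.real {ω | u * (a * Real.log n) ≤ cw (moved Nat.Prime X ω) n (h n)} ≤ 1 / (n : ℝ) ^ σ := by
  have hu0 : 0 < u - 1 := by linarith
  set ε := (a * ff u - 1) / (2 * a * (u - 1)) with hε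
  have hε0 : 0 < ε := by
    rw [hε]
    have : 0 < a * ff u - 1 := by linarith
    positivity
  refine ⟨(a * ff u + 1) / 2, by linarith, ?_⟩
  filter_upwards [M_near hP ha K hε0, eventually_gt_atTop 0, hlogN'.eventually_ge_atTop 1] with n h2 h3 l1
  have k1 := h2 (h n) (hh n)
  rw [abs_le] at k1
  have h5 := chern_up hX Nat.Prime (W := Ioc n (n + h n)) (N := n + h n) (u := u) (k := u * (a * Real.log n))
    (T := (1 + ε) * (a * Real.log n)) (fun m hm => (Finset.mem_Ioc.1 hm).2) hu.le (by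
      have : mn Nat.Prime D (n + h n) (Ioc n (n + h n)) = mw Nat.Prime D n (h n) := rfl
      rw [this]
      linarith [k1.2])
  refine h5.trans ?_
  rw [← exp_log_pow h3]
  apply Real.exp_le_exp.2
  have e1 : ε * (2 * a * (u - 1)) = a * ff u - 1 := by
    rw [hε]
    field_simp
  have e2 : -(u * (a * Real.log n) * Real.log u) + (u - 1) * ((1 + ε) * (a * Real.log n)) =
      -((a * ff u) * Real.log n) + (ε * (2 * a * (u - 1))) / 2 * Real.log n := by
    unfold ff
    ring
  rw [e2, e1]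
  apply le_of_eq
  ring

/-- not too few -/
theorem prob_not_low (hX : Disp μ X D)
    (hP : Tendsto (fun m : ℕ => dn D m * Real.log m) atTop (𝓝 1)) {a : ℝ} (ha : 0 < a) (K : ℝ)
    {h : ℕ → ℕ} (hh : ∀ n : ℕ, |(h n : ℝ) - a * Real.log n ^ 2| ≤ K) {u : ℝ} (hu0 : 0 < u) (hu : u < 1)
    (hau : 1 < a * ff u) :
    ∃ σ : ℝ, 1 < σ ∧ ∀ᶠ n : ℕ in atTop,
      μ.real {ω | (cw (moved Nat.Prime X ω) n (h n) : ℝ) ≤ u * (a * Real.log n)} ≤ 1 / (n : ℝ) ^ σ := by
  have hu1 : 0 < 1 - u := by linarith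
  set ε := min 1 ((a * ff u - 1) / (4 * a * (1 - u))) with hε
  have hε0 : 0 < ε := by
    rw [hε]
    have : 0 < a * ff u - 1 := by linarith
    exact lt_min one_pos (by positivity)
  have hε1 : ε ≤ 1 := min_le_left _ _
  have hε2 : ε ≤ (a * ff u - 1) / (4 * a * (1 - u)) := min_le_right _ _
  rw [le_div_iff₀ (by positivity)] at hε2
  refine ⟨(a * ff u + 1) / 2, by linarith, ?_⟩
  have hd : ∀ᶠ m : ℕ in atTop, dn D m * Real.log m ≤ 2 := hP.eventually_le_const (by norm_num)
  obtain ⟨m₀, hm₀⟩ := eventually_atTop.1 hd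
  filter_upwards [M_near hP ha K hε0, eventually_gt_atTop 0, hlogN'.eventually_ge_atTop (max 1 (2 / ε)),
    eventually_ge_atTop m₀] with n h2 h3 hl h4
  have l1 : 1 ≤ Real.log n := (le_max_left _ _).trans hl
  have l2 : 2 / ε ≤ Real.log n := (le_max_right _ _).trans hl
  rw [div_le_iff₀ hε0] at l2
  have k1 := h2 (h n) (hh n)
  rw [abs_le] at k1
  have h5 := chern_low hX Nat.Prime (W := Ioc n (n + h n)) (N := n + h n) (u := u) (k := u * (a * Real.log n))
    (T := (1 - ε) * (a * Real.log n)) (ε := ε) (fun m hm => (Finset.mem_Ioc.1 hm).2) hu0 hu.le hε1 (by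
      intro m hm
      rw [Finset.mem_Ioc] at hm
      have e2 : mn Nat.Prime D (n + h n) {m} = dn D m := mn_single Nat.Prime D hm.2
      have e3 := hm₀ m (by omega)
      have e4 : Real.log n ≤ Real.log m := Real.log_le_log (by exact_mod_cast h3) (by exact_mod_cast hm.1.le)
      rw [e2]
      have e5 := dn_nonneg D m
      have e6 : dn D m * Real.log n ≤ ε * Real.log n := by nlinarith
      exact le_of_mul_le_mul_right e6 (by linarith)) (by
      have : mn Nat.Prime D (n + h n) (Ioc n (n + h n)) = mw Nat.Prime D n (h n) := rfl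
      rw [this]
      linarith [k1.1])
  refine h5.trans ?_
  rw [← exp_log_pow h3]
  apply Real.exp_le_exp.2
  have hl0 : 0 < Real.log n := by linarith
  have e2 : -(u * (a * Real.log n) * Real.log u) - (1 - u) * ((1 - ε) * ((1 - ε) * (a * Real.log n))) =
      -((a * ff u) * Real.log n) + (2 * ε - ε ^ 2) * (a * (1 - u)) * Real.log n := by
    unfold ff
    ring
  rw [e2]
  have e3 : (2 * ε - ε ^ 2) * (a * (1 - u)) ≤ (a * ff u - 1) / 2 := by
    have : (2 * ε - ε ^ 2) * (a * (1 - u)) ≤ (2 * ε) * (a * (1 - u)) := by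
      have : 0 ≤ ε ^ 2 := by positivity
      gcongr
      linarith
    linarith
  have e4 : (2 * ε - ε ^ 2) * (a * (1 - u)) * Real.log n ≤ (a * ff u - 1) / 2 * Real.log n := by gcongr
  linarith

end Pool.Agent.Q268.XL
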