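import Mathlib
import Pool.Agent.Q268.DL.Tail

/-!
Negative correlation of the occupation numbers of disjoint windows.
-/

set_option autoImplicit false

namespace Pool.Agent.Q268.XL

open Filter Finset MeasureTheory ProbabilityTheory
open Pool.Agent.Q268.DP Pool.Agent.Q268.DL
open scoped ENNReal Topology

/-- `F` is smallest in each coordinate outside the window `W` -/
def Inc {n : ℕ} (W : Finset ℕ) (F : (Fin n → ℕ) → ℝ≥0∞) : Prop :=
  ∀ (x : Fin n → ℕ) (i : Fin n) (d : ℕ), (i : ℕ) + d ∉ W → ∀ d' : ℕ,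
    F (Function.update x i d) ≤ F (Function.update x i d')

/-- one coordinate -/
theorem one_step {W V : Finset ℕ} (hWV : Disjoint W V) (i : ℕ) {f g : ℕ → ℝ≥0∞}
    (hf : ∀ d, i + d ∉ W → ∀ d', f d ≤ f d') (hg : ∀ d, i + d ∉ V → ∀ d', g d ≤ g d')
    (ν : Measure ℕ) [IsProbabilityMeasure ν] :
    ∫⁻ d, f d * g d ∂ν ≤ (∫⁻ d, f d ∂ν) * ∫⁻ d, g d ∂ν := by
  classical
  obtain ⟨d₀, hd₀⟩ : ∃ d₀ : ℕ, i + d₀ ∉ W ∪ V := by
    refine ⟨(W ∪ V).sup id + 1, fun h => ?_⟩
    have := Finset.le_sup (f := id) h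
    simp only [id] at this
    omega
  rw [Finset.mem_union, not_or] at hd₀
  have hf0 : ∀ d, f d₀ ≤ f d := hf d₀ hd₀.1
  have hg0 : ∀ d, g d₀ ≤ g d := hg d₀ hd₀.2
  set a : ℕ → ℝ≥0∞ := fun d => f d - f d₀ with ha
  set b : ℕ → ℝ≥0∞ := fun d => g d - g d₀ with hb
  have fa : ∀ d, f d = f d₀ + a d := fun d => (add_tsub_cancel_of_le (hf0 d)).symm
  have gb : ∀ d, g d = g d₀ + b d := fun d => (add_tsub_cancel_of_le (hg0 d)).symm
  have hab : ∀ d, a d * b d = 0 := by
    intro d
    by_cases h : i + d ∈ W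
    · have h2 : i + d ∉ V := Finset.disjoint_left.1 hWV h
      have : b d = 0 := tsub_eq_zero_of_le (hg d h2 d₀)
      rw [this, mul_zero]
    · have : a d = 0 := tsub_eq_zero_of_le (hf d h d₀)
      rw [this, zero_mul]
  have hma : Measurable a := measurable_of_countable _
  have hmb : Measurable b := measurable_of_countable _
  have e1 : ∫⁻ d, f d ∂ν = f d₀ + ∫⁻ d, a d ∂ν := by
    rw [lintegral_congr fa, lintegral_add_right _ hma]
    simp
  have e2 : ∫⁻ d, g d ∂ν = g d₀ + ∫⁻ d, b d ∂ν := by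
    rw [lintegral_congr gb, lintegral_add_right _ hmb]
    simp
  have e3 : ∫⁻ d, f d * g d ∂ν = f d₀ * g d₀ + f d₀ * ∫⁻ d, b d ∂ν + (∫⁻ d, a d ∂ν) * g d₀ := by
    have : ∀ d, f d * g d = f d₀ * g d₀ + f d₀ * b d + a d * g d₀ := by
      intro d
      rw [fa d, gb d, add_mul, mul_add, mul_add, hab d, add_zero]
    rw [lintegral_congr this, lintegral_add_right _ (measurable_of_countable _),
      lintegral_add_right _ (measurable_of_countable _), lintegral_const_mul _ hmb,
      lintegral_mul_const _ hma]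
    simp
  rw [e1, e2, e3, add_mul, mul_add, mul_add]
  have : f d₀ * g d₀ + f d₀ * ∫⁻ d, b d ∂ν + (∫⁻ d, a d ∂ν) * g d₀ ≤
      f d₀ * g d₀ + f d₀ * ∫⁻ d, b d ∂ν + ((∫⁻ d, a d ∂ν) * g d₀ + (∫⁻ d, a d ∂ν) * ∫⁻ d, b d ∂ν) := by
    gcongr
    exact le_self_add
  exact this

theorem Inc.marg {n : ℕ} {W : Finset ℕ} {F : (Fin n → ℕ) → ℝ≥0∞} (hF : Inc W F)
    (ν : Fin n → Measure ℕ) [∀ i, IsProbabilityMeasure (ν i)] (T : Finset (Fin n)) :
    Inc W (∫⋯∫⁻_T, F ∂ν) := by
  classical
  induction T using Finset.induction_on with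
  | empty => rwa [lmarginal_empty]
  | insert j T hj ih =>
    intro x i d hd d'
    rw [lmarginal_insert F (measurable_of_countable _) hj, lmarginal_insert F (measurable_of_countable _) hj]
    by_cases hij : i = j
    · subst hij
      simp only [Function.update_idem]
      exact le_rfl
    · refine lintegral_mono fun y => ?_
      rw [Function.update_comm hij, Function.update_comm hij]
      exact ih _ i d hd d'

theorem marg_neg {n : ℕ} {W V : Finset ℕ} (hWV : Disjoint W V) {F G : (Fin n → ℕ) → ℝ≥0∞} (hF : Inc W F)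
    (hG : Inc V G) (ν : Fin n → Measure ℕ) [∀ i, IsProbabilityMeasure (ν i)] (T : Finset (Fin n)) (x : Fin n → ℕ) :
    (∫⋯∫⁻_T, (fun z => F z * G z) ∂ν) x ≤ (∫⋯∫⁻_T, F ∂ν) x * (∫⋯∫⁻_T, G ∂ν) x := by
  classical
  induction T using Finset.induction_on generalizing x with
  | empty => simp
  | insert j T hj ih =>
    rw [lmarginal_insert _ (measurable_of_countable _) hj, lmarginal_insert _ (measurable_of_countable _) hj,
      lmarginal_insert _ (measurable_of_countable _) hj]
    refine (lintegral_mono fun y => ih (Function.update x j y)).trans ?_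
    exact one_step hWV j (fun d hd d' => hF.marg ν T x j d hd d') (fun d hd d' => hG.marg ν T x j d hd d') (ν j)

/-- disjoint windows are not positively correlated -/
theorem pi_neg {n : ℕ} {W V : Finset ℕ} (hWV : Disjoint W V) {F G : (Fin n → ℕ) → ℝ≥0∞} (hF : Inc W F)
    (hG : Inc V G) (ν : Fin n → Measure ℕ) [∀ i, IsProbabilityMeasure (ν i)] :
    ∫⁻ z, F z * G z ∂(Measure.pi ν) ≤ (∫⁻ z, F z ∂(Measure.pi ν)) * ∫⁻ z, G z ∂(Measure.pi ν) := by
  have h := marg_neg hWV hF hG ν Finset.univ (fun _ => 0)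
  simpa only [lmarginal_univ] using h

/-- the positions of the displaced elements of `P` below `n` -/
def pos (P : ℕ → Prop) (n : ℕ) (x : Fin n → ℕ) : Set ℕ := {m | ∃ i : Fin n, P i ∧ m = i + x i}

theorem cn_mono {S T : Set ℕ} {W : Finset ℕ} (h : ∀ m ∈ W, m ∈ S → m ∈ T) : cn S W ≤ cn T W := by
  classical
  unfold cn
  apply Finset.card_le_card
  intro m hm
  rw [Finset.mem_filter] at hm ⊢
  exact ⟨hm.1, h m hm.1 hm.2⟩

theorem inc_cn (P : ℕ → Prop) (n : ℕ) (W : Finset ℕ) (k : ℕ) :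
    Inc W (fun x : Fin n → ℕ => {x | k ≤ cn (pos P n x) W}.indicator (fun _ => (1 : ℝ≥0∞)) x) := by
  classical
  intro x i d hd d'
  have h1 : cn (pos P n (Function.update x i d)) W ≤ cn (pos P n (Function.update x i d')) W := by
    apply cn_mono
    rintro m hm ⟨j, hj, hmj⟩
    by_cases hij : j = i
    · subst hij
      rw [Function.update_self] at hmj
      rw [hmj] at hm
      exact absurd hm hd
    · refine ⟨j, hj, ?_⟩
      rw [Function.update_of_ne hij] at hmj ⊢
      exact hmj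
  by_cases h2 : k ≤ cn (pos P n (Function.update x i d)) W
  · have h3 : k ≤ cn (pos P n (Function.update x i d')) W := h2.trans h1
    simp only [Set.indicator, Set.mem_ofPred_eq, h2, h3, if_true]
    exact le_rfl
  · simp only [Set.indicator, Set.mem_ofPred_eq, h2, if_false]
    exact zero_le

variable {Ω : Type} [MeasurableSpace Ω] {μ : Measure Ω} {X : ℕ → Ω → ℕ} {D : ℕ → ℕ}

omit [MeasurableSpace Ω] in
theorem cn_pos (P : ℕ → Prop) (X : ℕ → Ω → ℕ) {W : Finset ℕ} {n : ℕ} (hn : ∀ m ∈ W, m < n) (ω : Ω) :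
    cn (pos P n (fun i => X i ω)) W = cn (moved P X ω) W := by
  apply le_antisymm
  · apply cn_mono
    rintro m _ ⟨i, hi, hm⟩
    exact ⟨i, hi, hm⟩
  · apply cn_mono
    rintro m hmW ⟨q, hq, hm⟩
    have := hn m hmW
    exact ⟨⟨q, by omega⟩, hq, hm⟩

/-- the numbers of displaced elements in disjoint windows are not positively correlated: upper tails -/
theorem neg_ge (hX : Disp μ X D) (P : ℕ → Prop) {W V : Finset ℕ} (hWV : Disjoint W V) (k l : ℕ) :
    μ ({ω | k ≤ cn (moved P X ω) W} ∩ {ω | l ≤ cn (moved P X ω) V}) ≤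
      μ {ω | k ≤ cn (moved P X ω) W} * μ {ω | l ≤ cn (moved P X ω) V} := by
  classical
  have hP : IsProbabilityMeasure μ := hX.indep.isProbabilityMeasure
  set n := (W ∪ V).sup id + 1 with hn
  have hnW : ∀ m ∈ W, m < n := fun m hm => by
    have := Finset.le_sup (f := id) (Finset.mem_union_left V hm)
    simp only [id] at this
    omega
  have hnV : ∀ m ∈ V, m < n := fun m hm => by
    have := Finset.le_sup (f := id) (Finset.mem_union_right W hm)
    simp only [id] at this
    omega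
  set Y : Ω → (Fin n → ℕ) := fun ω i => X i ω with hY
  have hYm : Measurable Y := measurable_pi_lambda _ fun i => hX.meas i
  have hlaw : μ.map Y = Measure.pi (fun i : Fin n => μ.map (X i)) := by
    have h1 := hX.indep.precomp (g := fun i : Fin n => (i : ℕ)) Fin.val_injective
    exact (iIndepFun_iff_map_fun_eq_pi_map (ι := Fin n) (f := fun i : Fin n => X (i : ℕ))
      (fun i => (hX.meas (i : ℕ)).aemeasurable)).1 h1
  have hpr : ∀ i : Fin n, IsProbabilityMeasure (μ.map (X i)) := fun i =>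
    Measure.isProbabilityMeasure_map (hX.meas i).aemeasurable
  have key := pi_neg hWV (inc_cn P n W k) (inc_cn P n V l) (fun i : Fin n => μ.map (X i))
  rw [← hlaw] at key
  set A : Set (Fin n → ℕ) := {x | k ≤ cn (pos P n x) W} with hA
  set B : Set (Fin n → ℕ) := {x | l ≤ cn (pos P n x) V} with hB
  have hAm : MeasurableSet A := (Set.to_countable A).measurableSet
  have hBm : MeasurableSet B := (Set.to_countable B).measurableSet
  have e1 : ∫⁻ z, A.indicator (fun _ => (1 : ℝ≥0∞)) z ∂(μ.map Y) = μ {ω | k ≤ cn (moved P X ω) W} := by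
    rw [lintegral_indicator_const hAm, one_mul, Measure.map_apply hYm hAm]
    congr 1
    ext ω
    simp only [hA, hY, Set.mem_preimage, Set.mem_ofPred_eq]
    rw [cn_pos P X hnW]
  have e2 : ∫⁻ z, B.indicator (fun _ => (1 : ℝ≥0∞)) z ∂(μ.map Y) = μ {ω | l ≤ cn (moved P X ω) V} := by
    rw [lintegral_indicator_const hBm, one_mul, Measure.map_apply hYm hBm]
    congr 1
    ext ω
    simp only [hB, hY, Set.mem_preimage, Set.mem_ofPred_eq]
    rw [cn_pos P X hnV]
  have e3 : ∫⁻ z, A.indicator (fun _ => (1 : ℝ≥0∞)) z * B.indicator (fun _ => (1 : ℝ≥0∞)) z ∂(μ.map Y) =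
      μ ({ω | k ≤ cn (moved P X ω) W} ∩ {ω | l ≤ cn (moved P X ω) V}) := by
    have h1 : ∀ z, A.indicator (fun _ => (1 : ℝ≥0∞)) z * B.indicator (fun _ => (1 : ℝ≥0∞)) z =
        (A ∩ B).indicator (fun _ => (1 : ℝ≥0∞)) z := by
      intro z
      by_cases h1 : z ∈ A <;> by_cases h2 : z ∈ B <;> simp [h1, h2]
    rw [lintegral_congr h1, lintegral_indicator_const (hAm.inter hBm), one_mul,
      Measure.map_apply hYm (hAm.inter hBm)]
    congr 1
    ext ω
    simp only [hA, hB, hY, Set.mem_preimage, Set.mem_inter_iff, Set.mem_ofPred_eq]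
    rw [cn_pos P X hnW, cn_pos P X hnV]
  rw [e1, e2, e3] at key
  exact key

theorem meas_ge (hX : Disp μ X D) (P : ℕ → Prop) (W : Finset ℕ) (k : ℕ) :
    MeasurableSet {ω | k ≤ cn (moved P X ω) W} := by
  have h := measurableSet_le (measurable_const (a := (k : ℝ))) (meas_cn hX P W)
  have e : {ω | k ≤ cn (moved P X ω) W} = {ω | (k : ℝ) ≤ (cn (moved P X ω) W : ℝ)} := by
    ext ω
    simp only [Set.mem_ofPred_eq, Nat.cast_le]
  rw [e]
  exact h

/-- lower tails -/
theorem neg_lt (hX : Disp μ X D) (P : ℕ → Prop) {W V : Finset ℕ} (hWV : Disjoint W V) (k l : ℕ) :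
    μ ({ω | cn (moved P X ω) W < k} ∩ {ω | cn (moved P X ω) V < l}) ≤
      μ {ω | cn (moved P X ω) W < k} * μ {ω | cn (moved P X ω) V < l} := by
  have hP : IsProbabilityMeasure μ := hX.indep.isProbabilityMeasure
  set A := {ω | k ≤ cn (moved P X ω) W} with hA
  set B := {ω | l ≤ cn (moved P X ω) V} with hB
  have hAm : MeasurableSet A := meas_ge hX P W k
  have hBm : MeasurableSet B := meas_ge hX P V l
  have hAc : {ω | cn (moved P X ω) W < k} = Aᶜ := by
    ext ω; simp [hA]
  have hBc : {ω | cn (moved P X ω) V < l} = Bᶜ := by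
    ext ω; simp [hB]
  rw [hAc, hBc, ← Set.compl_union]
  have key := neg_ge hX P hWV k l
  rw [← hA, ← hB] at key
  have k1 : μ.real (A ∩ B) ≤ μ.real A * μ.real B := by
    have := ENNReal.toReal_mono (ENNReal.mul_ne_top (measure_ne_top μ _) (measure_ne_top μ _)) key
    rwa [ENNReal.toReal_mul] at this
  have k2 : μ.real (A ∪ B) + μ.real (A ∩ B) = μ.real A + μ.real B := measureReal_union_add_inter hBm
  have k3 : μ.real (A ∪ B)ᶜ = 1 - μ.real (A ∪ B) := probReal_compl_eq_one_sub (hAm.union hBm)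
  have k4 : μ.real Aᶜ = 1 - μ.real A := probReal_compl_eq_one_sub hAm
  have k5 : μ.real Bᶜ = 1 - μ.real B := probReal_compl_eq_one_sub hBm
  have k6 : μ.real (A ∪ B)ᶜ ≤ μ.real Aᶜ * μ.real Bᶜ := by
    rw [k3, k4, k5]
    linarith
  rw [← ofReal_measureReal (μ := μ) (s := (A ∪ B)ᶜ), ← ofReal_measureReal (μ := μ) (s := Aᶜ),
    ← ofReal_measureReal (μ := μ) (s := Bᶜ), ← ENNReal.ofReal_mul measureReal_nonneg]
  exact ENNReal.ofReal_le_ofReal k6

end Pool.Agent.Q268.XL
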