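import Mathlib
import Pool.Agent.Q268.XL.Asy
import Pool.Agent.Q268.XL.Neg
import Pool.Agent.Q268.DP.Second

/-!
Borel–Cantelli: the extreme numbers of displaced primes in windows of length `a log² n`.
-/

set_option autoImplicit false

namespace Pool.Agent.Q268.XL

open Filter Finset MeasureTheory ProbabilityTheory
open Pool.Agent.Q268.DP Pool.Agent.Q268.DL
open scoped ENNReal Topology

variable {Ω : Type} [MeasurableSpace Ω] {μ : Measure Ω} {X : ℕ → Ω → ℕ} {D : ℕ → ℕ}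

theorem summable_block {σ : ℝ} (hσ : σ < 1) (K : ℝ) :
    Summable fun k : ℕ => 1 / ((2 : ℝ) ^ k / (2 * K * ((k : ℝ) + 1) ^ 2) * (1 / 4 * (1 / ((2 : ℝ) ^ (k + 1)) ^ σ))) := by
  set ρ : ℝ := (2 : ℝ) ^ (σ - 1) with hρ
  have hρ0 : 0 < ρ := by positivity
  have hρ1 : ρ < 1 := Real.rpow_lt_one_of_one_lt_of_neg (by norm_num) (by linarith)
  have h1 : Summable fun k : ℕ => ((k : ℝ)) ^ 2 * ρ ^ k :=
    summable_pow_mul_geometric_of_norm_lt_one 2 (by rw [Real.norm_eq_abs, abs_of_pos hρ0]; exact hρ1)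
  have h2 : Summable fun k : ℕ => ((k + 1 : ℕ) : ℝ) ^ 2 * ρ ^ (k + 1) :=
    (summable_nat_add_iff (f := fun k : ℕ => ((k : ℝ)) ^ 2 * ρ ^ k) 1).2 h1
  have h3 := h2.mul_left (16 * K)
  refine h3.congr fun k => ?_
  have e1 : ρ ^ (k + 1) = ((2 : ℝ) ^ (k + 1)) ^ σ / 2 ^ (k + 1) := by
    rw [hρ, ← Real.rpow_natCast ((2 : ℝ) ^ (σ - 1)), ← Real.rpow_natCast (2 : ℝ) (k + 1), ← Real.rpow_mul (by norm_num),
      ← Real.rpow_mul (by norm_num), ← Real.rpow_sub (by norm_num)]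
    congr 1
    ring
  rw [e1]
  have e2 : (0 : ℝ) < ((2 : ℝ) ^ (k + 1)) ^ σ := by positivity
  rcases eq_or_ne K 0 with hK | hK
  · subst hK
    simp
  · push_cast
    field_simp
    ring

/-- the second moment method on dyadic blocks -/
theorem blocks [IsProbabilityMeasure μ] {E : ℕ → Set Ω} {h : ℕ → ℕ} {C σ : ℝ} (hC : 0 < C)
    (hE : ∀ n, MeasurableSet (E n)) (hc : ∀ m n, m + h m ≤ n → μ (E m ∩ E n) ≤ μ (E m) * μ (E n))
    (hh : ∀ᶠ n : ℕ in atTop, (h n : ℝ) ≤ C * Real.log n ^ 2) (hσ0 : 0 ≤ σ) (hσ : σ < 1)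
    (hp : ∀ᶠ n : ℕ in atTop, 1 / 4 * (1 / (n : ℝ) ^ σ) ≤ μ.real (E n)) :
    ∀ᵐ ω ∂μ, ∃ᶠ n : ℕ in atTop, ω ∈ E n := by
  classical
  set K : ℕ := ⌈C⌉₊ with hK
  have hKC : C ≤ K := Nat.le_ceil C
  have hK1 : 1 ≤ K := Nat.one_le_ceil_iff.2 hC
  have hKr : (1 : ℝ) ≤ K := by exact_mod_cast hK1
  set H : ℕ → ℕ := fun k => K * (k + 1) ^ 2 with hH
  have hHpos : ∀ k, 0 < H k := fun k => by positivity
  set J : ℕ → ℕ := fun k => 2 ^ k / H k with hJ
  set nn : ℕ → ℕ → ℕ := fun k j => 2 ^ k + j * H k with hnn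
  have hnlt : ∀ k, ∀ j ∈ range (J k), nn k j < 2 ^ (k + 1) := by
    intro k j hj
    rw [Finset.mem_range] at hj
    have h1 : (j + 1) * H k ≤ J k * H k := Nat.mul_le_mul_right _ hj
    have h2 : J k * H k ≤ 2 ^ k := Nat.div_mul_le_self _ _
    have h3 := hHpos k
    simp only [hnn]
    rw [pow_succ]
    nlinarith
  -- large k
  obtain ⟨n₀, hn₀⟩ := eventually_atTop.1 (hh.and (hp.and (eventually_ge_atTop 1)))
  have hk0 : ∀ᶠ k : ℕ in atTop, n₀ ≤ 2 ^ k := by
    filter_upwards [eventually_ge_atTop n₀] with k hk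
    exact hk.trans Nat.lt_two_pow_self.le
  have hk1 : ∀ᶠ k : ℕ in atTop, H k ≤ 2 ^ k := by
    have h1 : Summable fun k : ℕ => ((k : ℝ)) ^ 2 * (1 / 2 : ℝ) ^ k :=
      summable_pow_mul_geometric_of_norm_lt_one 2 (by norm_num)
    have h2 := (summable_nat_add_iff (f := fun k : ℕ => ((k : ℝ)) ^ 2 * (1 / 2 : ℝ) ^ k) 1).2 h1
    have h3 := h2.tendsto_atTop_zero
    have h4 : ∀ᶠ k : ℕ in atTop, ((k + 1 : ℕ) : ℝ) ^ 2 * (1 / 2 : ℝ) ^ (k + 1) ≤ 1 / (2 * K) :=
      h3.eventually_le_const (by positivity)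
    filter_upwards [h4] with k hk
    have h5 : (H k : ℝ) ≤ ((2 ^ k : ℕ) : ℝ) := by
      simp only [hH]
      push_cast at hk ⊢
      rw [one_div_pow, mul_one_div, div_le_div_iff₀ (by positivity) (by positivity), one_mul] at hk
      have hpow : (2 : ℝ) ^ (k + 1) = 2 * 2 ^ k := by ring
      rw [hpow] at hk
      linarith
    exact_mod_cast h5
  set m : ℕ → ℝ := fun k => (2 : ℝ) ^ k / (2 * K * ((k : ℝ) + 1) ^ 2) * (1 / 4 * (1 / ((2 : ℝ) ^ (k + 1)) ^ σ)) with hm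
  have hm0 : ∀ k, 0 < m k := fun k => by
    simp only [hm]
    positivity
  have hprob : ∀ᶠ k : ℕ in atTop, μ {ω | ∀ j ∈ range (J k), ω ∉ E (nn k j)} ≤ ENNReal.ofReal (1 / m k) := by
    filter_upwards [hk0, hk1] with k e1 e2
    apply second_moment (range (J k)) (fun j => E (nn k j)) (fun j => hE _) ?_ (hm0 k) ?_
    · have key : ∀ i ∈ range (J k), ∀ j, i < j → μ (E (nn k i) ∩ E (nn k j)) ≤ μ (E (nn k i)) * μ (E (nn k j)) := by
        intro i hi j hij
        apply hc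
        have h1 := (hn₀ (nn k i) (by simp only [hnn]; omega)).1
        have h2 : h (nn k i) ≤ H k := by
          have h3 : (h (nn k i) : ℝ) ≤ H k := by
            refine h1.trans ?_
            have h4 : (1 : ℝ) ≤ (nn k i : ℕ) := by
              exact_mod_cast (hn₀ (nn k i) (by simp only [hnn]; omega)).2.2
            have h5 : (nn k i : ℝ) ≤ (2 : ℝ) ^ (k + 1) := by exact_mod_cast (hnlt k i hi).le
            have h6 : Real.log (nn k i) ≤ (k : ℝ) + 1 := by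
              have h7 : Real.log (nn k i) ≤ Real.log ((2 : ℝ) ^ (k + 1)) := Real.log_le_log (by linarith) h5
              rw [Real.log_pow] at h7
              have h8 := Real.log_two_lt_d9
              push_cast at h7
              nlinarith
            have h7 : 0 ≤ Real.log (nn k i) := Real.log_nonneg h4
            simp only [hH]
            push_cast
            calc C * Real.log (nn k i) ^ 2 ≤ K * ((k : ℝ) + 1) ^ 2 := by gcongr
              _ = _ := by ring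
          exact_mod_cast h3
        have h3 : (i + 1) * H k ≤ j * H k := Nat.mul_le_mul_right _ hij
        have h4 : nn k i + h (nn k i) ≤ nn k i + H k := by omega
        refine h4.trans ?_
        simp only [hnn]
        nlinarith
      intro i hi j hj hij
      rcases lt_or_gt_of_ne hij with h1 | h1
      · exact key i hi j h1
      · rw [Set.inter_comm, mul_comm]
        exact key j hj i h1
    · have h1 : ∀ j ∈ range (J k), 1 / 4 * (1 / ((2 : ℝ) ^ (k + 1)) ^ σ) ≤ (μ (E (nn k j))).toReal := by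
        intro j hj
        have h2 := (hn₀ (nn k j) (by simp only [hnn]; omega)).2.1
        have h4 : (1 : ℝ) ≤ (nn k j : ℕ) := by
          exact_mod_cast (hn₀ (nn k j) (by simp only [hnn]; omega)).2.2
        refine le_trans ?_ h2
        have h5 : (nn k j : ℝ) ≤ (2 : ℝ) ^ (k + 1) := by exact_mod_cast (hnlt k j hj).le
        have h6 : (0 : ℝ) < (nn k j : ℝ) ^ σ := by positivity
        gcongr
      have h2 := Finset.card_nsmul_le_sum _ _ _ h1
      rw [nsmul_eq_mul, Finset.card_range] at h2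
      refine le_trans ?_ h2
      simp only [hm]
      have h3 : (2 : ℝ) ^ k / (2 * K * ((k : ℝ) + 1) ^ 2) ≤ (J k : ℝ) := by
        rw [div_le_iff₀ (by positivity)]
        have h4 : 1 ≤ J k := (Nat.one_le_div_iff (hHpos k)).2 e2
        have h5 : 2 ^ k < (J k + 1) * H k := by
          have := Nat.lt_mul_div_succ (2 ^ k) (hHpos k)
          rw [mul_comm]
          exact this
        have h6 : 2 ^ k ≤ J k * (2 * H k) := by nlinarith [hHpos k]
        have h7 : ((2 ^ k : ℕ) : ℝ) ≤ ((J k * (2 * H k) : ℕ) : ℝ) := by exact_mod_cast h6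
        simp only [hH] at h7
        push_cast at h7
        linarith
      gcongr
  have hsum : Summable fun k => 1 / m k := summable_block hσ K
  have h2 := bc_tail' hprob hsum
  filter_upwards [ae_eventually_notMem h2] with ω hω
  rw [frequently_atTop]
  intro b
  obtain ⟨k, hk1', hk2⟩ := (hω.and (eventually_ge_atTop b)).exists
  simp only [not_forall, not_not] at hk1'
  obtain ⟨j, hj, hjE⟩ := hk1'
  refine ⟨nn k j, ?_, hjE⟩
  have : k < 2 ^ k := Nat.lt_two_pow_self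
  simp only [hnn]
  omega

theorem bc_up {E : ℕ → Set Ω} [IsProbabilityMeasure μ] {σ : ℝ} (hσ : 1 < σ)
    (hp : ∀ᶠ n : ℕ in atTop, μ.real (E n) ≤ 1 / (n : ℝ) ^ σ) : ∀ᵐ ω ∂μ, ∀ᶠ n : ℕ in atTop, ω ∉ E n := by
  have h1 : ∀ᶠ n : ℕ in atTop, μ (E n) ≤ ENNReal.ofReal (1 / (n : ℝ) ^ σ) := by
    filter_upwards [hp] with n hn
    rw [← ofReal_measureReal (μ := μ) (s := E n)]
    exact ENNReal.ofReal_le_ofReal hn
  exact ae_eventually_notMem (bc_tail' h1 (Real.summable_one_div_nat_rpow.2 hσ))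

theorem disj_win {m n h k : ℕ} (hmn : m + h ≤ n) : Disjoint (Ioc m (m + h)) (Ioc n (n + k)) := by
  rw [Finset.disjoint_left]
  intro x hx hx2
  rw [Finset.mem_Ioc] at hx hx2
  omega

theorem lt_iff_nat {t : ℝ} (ht : 0 ≤ t) (c : ℕ) : t < c ↔ ⌊t⌋₊ + 1 ≤ c := by
  rw [Nat.add_one_le_iff, Nat.floor_lt ht]

theorem lt_iff_nat' {t : ℝ} (c : ℕ) : (c : ℝ) < t ↔ c < ⌈t⌉₊ := Nat.lt_ceil.symm

/-- large numbers occur -/
theorem occ_up (hX : Disp μ X D) (hs : Tendsto (fun q : ℕ => (D q : ℝ) / q) atTop (𝓝 0))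
    (h4 : ∀ᶠ q : ℕ in atTop, Real.log q ^ 4 ≤ D q)
    (hP : Tendsto (fun m : ℕ => dn D m * Real.log m) atTop (𝓝 1)) {a : ℝ} (ha : 0 < a) {K : ℝ} (hK : 0 ≤ K)
    {h : ℕ → ℕ} (hh : ∀ n : ℕ, |(h n : ℝ) - a * Real.log n ^ 2| ≤ K) {u : ℝ} (hu : 1 < u) (hau : a * ff u < 1) :
    ∀ᵐ ω ∂μ, ∃ᶠ n : ℕ in atTop, u * (a * Real.log n) < cw (moved Nat.Prime X ω) n (h n) := by
  have hPr : IsProbabilityMeasure μ := hX.indep.isProbabilityMeasure
  obtain ⟨σ, s0, s1, hp⟩ := prob_up hX hs h4 hP ha hK hh hu hau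
  have hE : ∀ n : ℕ, {ω | u * (a * Real.log n) < cw (moved Nat.Prime X ω) n (h n)} =
      {ω | ⌊u * (a * Real.log n)⌋₊ + 1 ≤ cn (moved Nat.Prime X ω) (Ioc n (n + h n))} := by
    intro n
    ext ω
    have : 0 ≤ u * (a * Real.log n) := by
      have := Real.log_natCast_nonneg n
      positivity
    exact lt_iff_nat this _
  refine blocks (E := fun n => {ω | u * (a * Real.log n) < cw (moved Nat.Prime X ω) n (h n)}) (h := h)
    (C := a + K) (by positivity) ?_ ?_ ?_ s0 s1 hp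
  · intro n
    rw [hE n]
    exact meas_ge hX _ _ _
  · intro m n hmn
    rw [hE m, hE n]
    exact neg_ge hX _ (disj_win hmn) _ _
  · filter_upwards [hlogN'.eventually_ge_atTop 1] with n hn
    have h1 := hh n
    rw [abs_le] at h1
    have : 1 ≤ Real.log n ^ 2 := one_le_pow₀ hn
    nlinarith [h1.2]

/-- small numbers occur -/
theorem occ_low (hX : Disp μ X D) (hs : Tendsto (fun q : ℕ => (D q : ℝ) / q) atTop (𝓝 0))
    (h4 : ∀ᶠ q : ℕ in atTop, Real.log q ^ 4 ≤ D q)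
    (hP : Tendsto (fun m : ℕ => dn D m * Real.log m) atTop (𝓝 1)) {a : ℝ} (ha : 0 < a) {K : ℝ} (hK : 0 ≤ K)
    {h : ℕ → ℕ} (hh : ∀ n : ℕ, |(h n : ℝ) - a * Real.log n ^ 2| ≤ K) {u : ℝ} (hu : 0 < u) (hau : a * ff u < 1) :
    ∀ᵐ ω ∂μ, ∃ᶠ n : ℕ in atTop, (cw (moved Nat.Prime X ω) n (h n) : ℝ) < u * (a * Real.log n) := by
  have hPr : IsProbabilityMeasure μ := hX.indep.isProbabilityMeasure
  obtain ⟨σ, s0, s1, hp⟩ := prob_low hX hs h4 hP ha hK hh hu hau
  have hE : ∀ n : ℕ, {ω | (cw (moved Nat.Prime X ω) n (h n) : ℝ) < u * (a * Real.log n)} =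
      {ω | cn (moved Nat.Prime X ω) (Ioc n (n + h n)) < ⌈u * (a * Real.log n)⌉₊} := by
    intro n
    ext ω
    exact lt_iff_nat' _
  refine blocks (E := fun n => {ω | (cw (moved Nat.Prime X ω) n (h n) : ℝ) < u * (a * Real.log n)}) (h := h)
    (C := a + K) (by positivity) ?_ ?_ ?_ s0 s1 hp
  · intro n
    rw [hE n]
    have := (meas_ge hX Nat.Prime (Ioc n (n + h n)) ⌈u * (a * Real.log n)⌉₊).compl
    convert this using 1
    ext ω
    simp only [Set.mem_ofPred_eq, Set.mem_compl_iff, not_le]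
  · intro m n hmn
    rw [hE m, hE n]
    exact neg_lt hX _ (disj_win hmn) _ _
  · filter_upwards [hlogN'.eventually_ge_atTop 1] with n hn
    have h1 := hh n
    rw [abs_le] at h1
    have : 1 ≤ Real.log n ^ 2 := one_le_pow₀ hn
    nlinarith [h1.2]

/-- larger numbers do not occur -/
theorem not_up (hX : Disp μ X D)
    (hP : Tendsto (fun m : ℕ => dn D m * Real.log m) atTop (𝓝 1)) {a : ℝ} (ha : 0 < a) (K : ℝ)
    {h : ℕ → ℕ} (hh : ∀ n : ℕ, |(h n : ℝ) - a * Real.log n ^ 2| ≤ K) {u : ℝ} (hu : 1 < u) (hau : 1 < a * ff u) :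
    ∀ᵐ ω ∂μ, ∀ᶠ n : ℕ in atTop, (cw (moved Nat.Prime X ω) n (h n) : ℝ) < u * (a * Real.log n) := by
  have hPr : IsProbabilityMeasure μ := hX.indep.isProbabilityMeasure
  obtain ⟨σ, s1, hp⟩ := prob_not_up hX hP ha K hh hu hau
  filter_upwards [bc_up s1 hp] with ω hω
  filter_upwards [hω] with n hn
  simpa using hn

/-- smaller numbers do not occur -/
theorem not_low (hX : Disp μ X D)
    (hP : Tendsto (fun m : ℕ => dn D m * Real.log m) atTop (𝓝 1)) {a : ℝ} (ha : 0 < a) (K : ℝ)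
    {h : ℕ → ℕ} (hh : ∀ n : ℕ, |(h n : ℝ) - a * Real.log n ^ 2| ≤ K) {u : ℝ} (hu0 : 0 < u) (hu : u < 1)
    (hau : 1 < a * ff u) :
    ∀ᵐ ω ∂μ, ∀ᶠ n : ℕ in atTop, u * (a * Real.log n) < cw (moved Nat.Prime X ω) n (h n) := by
  have hPr : IsProbabilityMeasure μ := hX.indep.isProbabilityMeasure
  obtain ⟨σ, s1, hp⟩ := prob_not_low hX hP ha K hh hu0 hu hau
  filter_upwards [bc_up s1 hp] with ω hω
  filter_upwards [hω] with n hn
  simpa using hn

end Pool.Agent.Q268.XL
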