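import Mathlib

/-!
The second moment method for pairwise negatively correlated events: the number of events.
-/

set_option autoImplicit false

namespace Pool.Agent.Q268.XL

open Filter Finset MeasureTheory ProbabilityTheory
open scoped ENNReal Topology

variable {Ω : Type} [MeasurableSpace Ω] {μ : Measure Ω}

/-- If the events `E j`, `j ∈ J`, are pairwise not positively correlated, then less than `m / 2` of them occur
with probability at most `4 / m`, `m` the sum of their probabilities. -/
theorem second_half [IsProbabilityMeasure μ] {ι : Type} (J : Finset ι) (E : ι → Set Ω)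
    (hE : ∀ j, MeasurableSet (E j))
    (hc : ∀ i ∈ J, ∀ j ∈ J, i ≠ j → μ (E i ∩ E j) ≤ μ (E i) * μ (E j))
    {m : ℝ} (hm0 : 0 < m) (hm : m ≤ ∑ j ∈ J, (μ (E j)).toReal) :
    μ {ω | ∑ j ∈ J, (E j).indicator (fun _ => (1 : ℝ)) ω < m / 2} ≤ ENNReal.ofReal (1 / (m / 4)) := by
  classical
  set M : ℝ := ∑ j ∈ J, μ.real (E j) with hM
  have hmM : m ≤ M := hm
  have hM0 : 0 < M := hm0.trans_le hmM
  set f : Ω → ℝ := fun ω => ∑ j ∈ J, (E j).indicator (fun _ => (1 : ℝ)) ω with hf
  have hint1 : ∀ j, Integrable ((E j).indicator (fun _ => (1 : ℝ))) μ := fun j =>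
    (integrable_const (1 : ℝ)).indicator (hE j)
  have hfint : ∫ ω, f ω ∂μ = M := by
    rw [hf, integral_finsetSum _ (fun j _ => hint1 j)]
    refine Finset.sum_congr rfl fun j _ => ?_
    rw [integral_indicator_const _ (hE j)]
    simp
  have hfi : Integrable f μ := integrable_finsetSum _ fun j _ => hint1 j
  have hprod : ∀ i j, ∀ ω, (E i).indicator (fun _ => (1 : ℝ)) ω * (E j).indicator (fun _ => (1 : ℝ)) ω =
      (E i ∩ E j).indicator (fun _ => (1 : ℝ)) ω := by
    intro i j ω
    by_cases h1 : ω ∈ E i <;> by_cases h2 : ω ∈ E j <;> simp [h1, h2]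
  have hsq : ∀ ω, f ω ^ 2 = ∑ i ∈ J, ∑ j ∈ J, (E i ∩ E j).indicator (fun _ => (1 : ℝ)) ω := by
    intro ω
    rw [sq, hf, Finset.sum_mul_sum]
    refine Finset.sum_congr rfl fun i _ => Finset.sum_congr rfl fun j _ => hprod i j ω
  have hint2 : ∀ i j, Integrable ((E i ∩ E j).indicator (fun _ => (1 : ℝ))) μ := fun i j =>
    (integrable_const (1 : ℝ)).indicator ((hE i).inter (hE j))
  have hsqi : Integrable (fun ω => f ω ^ 2) μ := by
    simp only [hsq]
    exact integrable_finsetSum _ fun i _ => integrable_finsetSum _ fun j _ => hint2 i j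
  have hf2 : ∫ ω, f ω ^ 2 ∂μ ≤ M + M ^ 2 := by
    simp only [hsq]
    rw [integral_finsetSum _ (fun i _ => integrable_finsetSum _ fun j _ => hint2 i j)]
    have h1 : ∀ i ∈ J, ∫ ω, ∑ j ∈ J, (E i ∩ E j).indicator (fun _ => (1 : ℝ)) ω ∂μ ≤
        μ.real (E i) + μ.real (E i) * M := by
      intro i hi
      rw [integral_finsetSum _ (fun j _ => hint2 i j)]
      have h2 : ∀ j ∈ J, ∫ ω, (E i ∩ E j).indicator (fun _ => (1 : ℝ)) ω ∂μ ≤
          (if j = i then μ.real (E i) else 0) + μ.real (E i) * μ.real (E j) := by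
        intro j hj
        rw [integral_indicator_const _ ((hE i).inter (hE j))]
        simp only [smul_eq_mul, mul_one]
        by_cases hij : j = i
        · subst hij
          rw [if_pos rfl, Set.inter_self]
          have := measureReal_nonneg (μ := μ) (s := E j)
          nlinarith
        · rw [if_neg hij, zero_add]
          have h3 := hc i hi j hj (Ne.symm hij)
          have h4 := ENNReal.toReal_mono (ENNReal.mul_ne_top (measure_ne_top μ _) (measure_ne_top μ _)) h3
          rw [ENNReal.toReal_mul] at h4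
          exact h4
      refine (Finset.sum_le_sum h2).trans ?_
      rw [Finset.sum_add_distrib, Finset.sum_ite_eq' J i, if_pos hi, ← Finset.mul_sum]
    refine (Finset.sum_le_sum h1).trans ?_
    rw [Finset.sum_add_distrib, ← Finset.sum_mul, ← hM]
    apply le_of_eq
    ring
  -- Chebyshev
  set A : Set Ω := {ω | f ω < m / 2} with hA
  have hfm : Measurable f := by
    rw [hf]
    exact Finset.measurable_fun_sum _ fun j _ => measurable_const.indicator (hE j)
  have hAm : MeasurableSet A := measurableSet_lt hfm measurable_const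
  have h5 : M ^ 2 / 4 * μ.real A ≤ ∫ ω, (f ω - M) ^ 2 ∂μ := by
    have h6 : ∫ ω, A.indicator (fun _ => M ^ 2 / 4) ω ∂μ ≤ ∫ ω, (f ω - M) ^ 2 ∂μ := by
      apply integral_mono
      · exact (integrable_const _).indicator hAm
      · have : (fun ω => (f ω - M) ^ 2) = fun ω => f ω ^ 2 - 2 * M * f ω + M ^ 2 := by
          funext ω; ring
        rw [this]
        exact (hsqi.sub (hfi.const_mul _)).add (integrable_const _)
      · intro ω
        by_cases hω : ω ∈ A
        · rw [Set.indicator_of_mem hω]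
          have h7 : f ω < m / 2 := hω
          have h8 : M / 2 ≤ M - f ω := by linarith
          have h9 : (M / 2) ^ 2 ≤ (M - f ω) ^ 2 := by
            have : 0 ≤ M / 2 := by positivity
            gcongr
          show M ^ 2 / 4 ≤ (f ω - M) ^ 2
          nlinarith
        · rw [Set.indicator_of_notMem hω]
          positivity
    rw [integral_indicator_const _ hAm, smul_eq_mul] at h6
    linarith
  have h7 : ∫ ω, (f ω - M) ^ 2 ∂μ ≤ M := by
    have h8 : ∫ ω, (f ω - M) ^ 2 ∂μ = ∫ ω, f ω ^ 2 ∂μ - 2 * M * M + M ^ 2 := by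
      have : (fun ω => (f ω - M) ^ 2) = fun ω => (f ω ^ 2 - 2 * M * f ω) + M ^ 2 := by
        funext ω; ring
      have i1 : Integrable (fun ω => 2 * M * f ω) μ := hfi.const_mul _
      have i2 : Integrable (fun ω => f ω ^ 2 - 2 * M * f ω) μ := hsqi.sub i1
      have e1 : ∫ ω, ((f ω ^ 2 - 2 * M * f ω) + M ^ 2) ∂μ =
          ∫ ω, (f ω ^ 2 - 2 * M * f ω) ∂μ + ∫ _ω, M ^ 2 ∂μ := integral_add i2 (integrable_const _)
      have e2 : ∫ ω, (f ω ^ 2 - 2 * M * f ω) ∂μ = ∫ ω, f ω ^ 2 ∂μ - ∫ ω, 2 * M * f ω ∂μ :=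
        integral_sub hsqi i1
      rw [this, e1, e2, integral_const_mul, hfint]
      simp
    rw [h8]
    nlinarith
  have h9 : μ.real A ≤ 1 / (M / 4) := by
    rw [le_div_iff₀ (by positivity)]
    have h10 : M * (M / 4 * μ.real A) ≤ M * 1 := by nlinarith
    have := le_of_mul_le_mul_left h10 hM0
    linarith
  have h11 : μ A = ENNReal.ofReal (μ.real A) := by
    rw [ofReal_measureReal]
  rw [h11]
  apply ENNReal.ofReal_le_ofReal
  exact h9.trans (one_div_le_one_div_of_le (by positivity) (by linarith))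

end Pool.Agent.Q268.XL
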