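import Mathlib
import Pool.Agent.Q268.XL.BC

/-!
From integer windows and rational parameters to real windows and real parameters.
-/

set_option autoImplicit false

namespace Pool.Agent.Q268.XL

open Filter Finset MeasureTheory ProbabilityTheory
open Pool.Agent.Q268.DP Pool.Agent.Q268.DL
open scoped ENNReal Topology

/-- the law for windows of integers -/
def IL (S : Set ℕ) (a u : ℝ) : Prop :=
  (1 < u → 1 < a * ff u → ∀ᶠ n : ℕ in atTop, (cw S n ⌊a * Real.log n ^ 2⌋₊ : ℝ) < u * (a * Real.log n)) ∧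
  (1 < u → a * ff u < 1 → ∃ᶠ n : ℕ in atTop, u * (a * Real.log n) < cw S n ⌊a * Real.log n ^ 2⌋₊) ∧
  (u < 1 → 1 < a * ff u → ∀ᶠ n : ℕ in atTop, u * (a * Real.log n) < cw S n ⌊a * Real.log n ^ 2⌋₊) ∧
  (u < 1 → a * ff u < 1 → ∃ᶠ n : ℕ in atTop, (cw S n ⌊a * Real.log n ^ 2⌋₊ : ℝ) < u * (a * Real.log n))

theorem floor_near {a : ℝ} (ha : 0 < a) (n : ℕ) : |(⌊a * Real.log n ^ 2⌋₊ : ℝ) - a * Real.log n ^ 2| ≤ 1 := by
  have h0 : 0 ≤ a * Real.log n ^ 2 := by positivity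
  have h1 := Nat.floor_le h0
  have h2 := Nat.lt_floor_add_one (a * Real.log n ^ 2)
  rw [abs_le]
  constructor <;> linarith

theorem il_ae {Ω : Type} [MeasurableSpace Ω] {μ : Measure Ω} {X : ℕ → Ω → ℕ} {D : ℕ → ℕ}
    (hX : Disp μ X D) (hs : Tendsto (fun q : ℕ => (D q : ℝ) / q) atTop (𝓝 0))
    (h4 : ∀ᶠ q : ℕ in atTop, Real.log q ^ 4 ≤ D q)
    (hP : Tendsto (fun m : ℕ => dn D m * Real.log m) atTop (𝓝 1)) :
    ∀ᵐ ω ∂μ, ∀ a u : ℚ, 0 < a → 0 < u → IL (moved Nat.Prime X ω) a u := by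
  rw [ae_all_iff]
  intro a
  rw [ae_all_iff]
  intro u
  by_cases ha : 0 < a
  · by_cases hu : 0 < u
    · have ha' : (0 : ℝ) < a := by exact_mod_cast ha
      have hu' : (0 : ℝ) < u := by exact_mod_cast hu
      have hh : ∀ n : ℕ, |(⌊(a : ℝ) * Real.log n ^ 2⌋₊ : ℝ) - a * Real.log n ^ 2| ≤ 1 := floor_near ha'
      have A1 : ∀ᵐ ω ∂μ, (1 : ℝ) < u → 1 < (a : ℝ) * ff u → ∀ᶠ n : ℕ in atTop,
          (cw (moved Nat.Prime X ω) n ⌊(a : ℝ) * Real.log n ^ 2⌋₊ : ℝ) < u * (a * Real.log n) := by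
        by_cases h1 : (1 : ℝ) < u
        · by_cases h2 : 1 < (a : ℝ) * ff u
          · filter_upwards [not_up hX hP ha' 1 (h := fun n => ⌊(a : ℝ) * Real.log n ^ 2⌋₊) hh h1 h2] with ω hω _ _
            exact hω
          · exact Eventually.of_forall fun ω _ h => absurd h h2
        · exact Eventually.of_forall fun ω h => absurd h h1
      have A2 : ∀ᵐ ω ∂μ, (1 : ℝ) < u → (a : ℝ) * ff u < 1 → ∃ᶠ n : ℕ in atTop,
          u * (a * Real.log n) < (cw (moved Nat.Prime X ω) n ⌊(a : ℝ) * Real.log n ^ 2⌋₊ : ℝ) := by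
        by_cases h1 : (1 : ℝ) < u
        · by_cases h2 : (a : ℝ) * ff u < 1
          · filter_upwards [occ_up hX hs h4 hP ha' zero_le_one (h := fun n => ⌊(a : ℝ) * Real.log n ^ 2⌋₊) hh h1 h2]
              with ω hω _ _
            exact hω
          · exact Eventually.of_forall fun ω _ h => absurd h h2
        · exact Eventually.of_forall fun ω h => absurd h h1
      have A3 : ∀ᵐ ω ∂μ, (u : ℝ) < 1 → 1 < (a : ℝ) * ff u → ∀ᶠ n : ℕ in atTop,
          u * (a * Real.log n) < (cw (moved Nat.Prime X ω) n ⌊(a : ℝ) * Real.log n ^ 2⌋₊ : ℝ) := by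
        by_cases h1 : (u : ℝ) < 1
        · by_cases h2 : 1 < (a : ℝ) * ff u
          · filter_upwards [not_low hX hP ha' 1 (h := fun n => ⌊(a : ℝ) * Real.log n ^ 2⌋₊) hh hu' h1 h2] with ω hω _ _
            exact hω
          · exact Eventually.of_forall fun ω _ h => absurd h h2
        · exact Eventually.of_forall fun ω h => absurd h h1
      have A4 : ∀ᵐ ω ∂μ, (u : ℝ) < 1 → (a : ℝ) * ff u < 1 → ∃ᶠ n : ℕ in atTop,
          (cw (moved Nat.Prime X ω) n ⌊(a : ℝ) * Real.log n ^ 2⌋₊ : ℝ) < u * (a * Real.log n) := by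
        by_cases h2 : (a : ℝ) * ff u < 1
        · filter_upwards [occ_low hX hs h4 hP ha' zero_le_one (h := fun n => ⌊(a : ℝ) * Real.log n ^ 2⌋₊) hh hu' h2]
            with ω hω _ _
          exact hω
        · exact Eventually.of_forall fun ω _ h => absurd h h2
      filter_upwards [A1, A2, A3, A4] with ω b1 b2 b3 b4 _ _
      exact ⟨b1, b2, b3, b4⟩
    · exact Eventually.of_forall fun ω _ h => absurd h hu
  · exact Eventually.of_forall fun ω h => absurd h ha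

theorem cw_mono (S : Set ℕ) (n : ℕ) {h k : ℕ} (hk : h ≤ k) : cw S n h ≤ cw S n k := by
  classical
  unfold cw cn
  apply Finset.card_le_card
  apply Finset.filter_subset_filter
  intro m hm
  rw [Finset.mem_Ioc] at hm ⊢
  omega

/-- the normalised number of elements in the window `(x, x + a log² x]` -/
noncomputable def Ra (S : Set ℕ) (a x : ℝ) : ℝ := (cR S x (a * Real.log x ^ 2) : ℝ) / (a * Real.log x)

theorem Ra_nat (S : Set ℕ) {a : ℝ} (ha : 0 < a) (n : ℕ) :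
    Ra S a n = (cw S n ⌊a * Real.log n ^ 2⌋₊ : ℝ) / (a * Real.log n) := by
  unfold Ra
  have h0 : 0 ≤ a * Real.log n ^ 2 := by positivity
  rw [cR_cw S (Nat.cast_nonneg n) h0, Nat.floor_natCast, add_comm (n : ℝ), Nat.floor_add_natCast h0,
    Nat.add_sub_cancel]

/-- the law -/
def Law (S : Set ℕ) (a : ℝ) : Prop := ∀ u : ℝ, 0 < u →
  (1 < u → 1 < a * ff u → ∀ᶠ x : ℝ in atTop, Ra S a x < u) ∧
  (1 < u → a * ff u < 1 → ∃ᶠ x : ℝ in atTop, u < Ra S a x) ∧
  (u < 1 → 1 < a * ff u → ∀ᶠ x : ℝ in atTop, u < Ra S a x) ∧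
  (u < 1 → a * ff u < 1 → ∃ᶠ x : ℝ in atTop, Ra S a x < u)

/-- the window of integers, for large `x` -/
theorem win_bounds {a : ℝ} (ha : 0 < a) {δ : ℝ} (hδ : 0 < δ) (hδ1 : δ < a) : ∀ᶠ x : ℝ in atTop,
    (⌊x + a * Real.log x ^ 2⌋₊ - ⌊x⌋₊ ≤ ⌊(a + δ) * Real.log (⌊x⌋₊ : ℕ) ^ 2⌋₊) ∧
    (⌊(a - δ) * Real.log (⌊x⌋₊ : ℕ) ^ 2⌋₊ ≤ ⌊x + a * Real.log x ^ 2⌋₊ - ⌊x⌋₊) ∧
    0 < Real.log (⌊x⌋₊ : ℕ) ∧ Real.log (⌊x⌋₊ : ℕ) ≤ Real.log x ∧ Real.log x ≤ (1 + δ) * Real.log (⌊x⌋₊ : ℕ) := by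
  have hfl : Tendsto (fun x : ℝ => Real.log (⌊x⌋₊ : ℕ)) atTop atTop :=
    hlogN'.comp tendsto_nat_floor_atTop
  have hη : 0 < min δ (δ / (4 * a)) := lt_min hδ (by positivity)
  filter_upwards [near_log 1 1 (η := 1) one_pos, eventually_ge_atTop 2,
    hfl.eventually_ge_atTop (max 1 (max (1 / δ) (2 * (3 * a + 2) / δ))),
    Real.tendsto_log_atTop.eventually_ge_atTop 1] with x h1 h2 h3 h4
  have hx0 : 0 ≤ x := by linarith
  have f1 : ((⌊x⌋₊ : ℕ) : ℝ) ≤ x := Nat.floor_le hx0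
  have f2 : x < (⌊x⌋₊ : ℕ) + 1 := Nat.lt_floor_add_one x
  set l := Real.log (⌊x⌋₊ : ℕ) with hl
  set L := Real.log x with hL
  have l1 : 1 ≤ l := (le_max_left _ _).trans h3
  have l2 : 1 / δ ≤ l := ((le_max_left _ _).trans (le_max_right _ _)).trans h3
  have l3 : 2 * (3 * a + 2) / δ ≤ l := ((le_max_right _ _).trans (le_max_right _ _)).trans h3
  rw [div_le_iff₀ hδ] at l2 l3
  have hfpos : (0 : ℝ) < (⌊x⌋₊ : ℕ) := by
    have : 0 < ⌊x⌋₊ := Nat.floor_pos.2 (by linarith)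
    exact_mod_cast this
  have g1 : l ≤ L := Real.log_le_log hfpos f1
  have g2 : L ≤ l + 1 := by
    have h5 := h1 x (⌊x⌋₊ : ℕ) (by
      rw [sub_self, abs_zero]
      positivity) (by
      rw [abs_le, Real.rpow_one]
      constructor <;> linarith)
    rw [abs_le] at h5
    linarith [h5.2]
  have g3 : L ≤ (1 + δ) * l := by nlinarith
  have hy0 : 0 ≤ a * L ^ 2 := by positivity
  have hf := floor_len hx0 hy0
  rw [abs_le] at hf
  have hLl : L ^ 2 ≤ l ^ 2 + 3 * l := by nlinarith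
  refine ⟨?_, ?_, by linarith, g1, g3⟩
  · apply Nat.le_floor
    have e1 : ((⌊x + a * L ^ 2⌋₊ - ⌊x⌋₊ : ℕ) : ℝ) ≤ a * L ^ 2 + 1 := by linarith [hf.2]
    refine e1.trans ?_
    have e2 : a * L ^ 2 ≤ a * (l ^ 2 + 3 * l) := by gcongr
    have e3 : (3 * a + 1) * l ≤ δ * l ^ 2 := by nlinarith
    nlinarith
  · have e1 : a * L ^ 2 - 1 ≤ ((⌊x + a * L ^ 2⌋₊ - ⌊x⌋₊ : ℕ) : ℝ) := by linarith [hf.1]
    have e2 : a * l ^ 2 ≤ a * L ^ 2 := by gcongr
    have e3 : (⌊(a - δ) * l ^ 2⌋₊ : ℝ) ≤ (a - δ) * l ^ 2 := Nat.floor_le (by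
      have : 0 < a - δ := by linarith
      positivity)
    have e4 : 1 ≤ δ * l ^ 2 := by nlinarith
    have e5 : (⌊(a - δ) * l ^ 2⌋₊ : ℝ) ≤ ((⌊x + a * L ^ 2⌋₊ - ⌊x⌋₊ : ℕ) : ℝ) := by nlinarith
    exact_mod_cast e5

theorem right_rat {u : ℝ} {p : ℝ → Prop} (hp : ∀ᶠ v in 𝓝 u, p v) : ∃ q : ℚ, u < q ∧ p q := by
  obtain ⟨δ, hδ, h⟩ := Metric.eventually_nhds_iff.1 hp
  obtain ⟨q, h1, h2⟩ := exists_rat_btwn (show u < u + δ by linarith)
  refine ⟨q, h1, h ?_⟩
  rw [Real.dist_eq, abs_lt]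
  constructor <;> linarith

theorem left_rat {u : ℝ} {p : ℝ → Prop} (hp : ∀ᶠ v in 𝓝 u, p v) : ∃ q : ℚ, (q : ℝ) < u ∧ p q := by
  obtain ⟨δ, hδ, h⟩ := Metric.eventually_nhds_iff.1 hp
  obtain ⟨q, h1, h2⟩ := exists_rat_btwn (show u - δ < u by linarith)
  refine ⟨q, h2, h ?_⟩
  rw [Real.dist_eq, abs_lt]
  constructor <;> linarith

theorem law_of_il {S : Set ℕ} (H : ∀ a u : ℚ, 0 < a → 0 < u → IL S a u) {a : ℝ} (ha : 0 < a) : Law S a := by
  intro u hu0
  have hfl : Tendsto (fun x : ℝ => ⌊x⌋₊) atTop atTop := tendsto_nat_floor_atTop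
  have contu : ∀ b : ℝ, Tendsto (fun v => b * ff v) (𝓝 u) (𝓝 (b * ff u)) := fun b =>
    (continuous_const.mul ff_cont).tendsto u
  refine ⟨?_, ?_, ?_, ?_⟩
  · intro hu hau
    obtain ⟨v, v1, v2, v3⟩ := left_rat (p := fun v => 1 < v ∧ 1 < a * ff v)
      ((eventually_gt_nhds hu).and ((contu a).eventually_const_lt hau))
    have hv0 : (0 : ℝ) < v := by linarith
    obtain ⟨b, b1, b2, b3⟩ := right_rat (u := a) (p := fun b => b < 2 * a ∧ b < a * u / v)
      ((eventually_lt_nhds (by linarith)).and (eventually_lt_nhds (by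
        rw [lt_div_iff₀ hv0]
        nlinarith)))
    rw [lt_div_iff₀ hv0] at b3
    have hb0 : (0 : ℝ) < b := by linarith
    have hbf : 1 < (b : ℝ) * ff v := by
      have := ff_nonneg hv0
      nlinarith
    have h1 := (H b v (by exact_mod_cast hb0) (by exact_mod_cast hv0)).1 v2 hbf
    filter_upwards [hfl.eventually h1, win_bounds ha (show 0 < (b : ℝ) - a by linarith) (by linarith),
      eventually_ge_atTop 0] with x h2 h3 hx0
    obtain ⟨w1, -, w3, w4, -⟩ := h3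
    rw [add_sub_cancel] at w1
    unfold Ra
    have hL : 0 < Real.log x := by linarith
    rw [div_lt_iff₀ (by positivity), cR_cw S hx0 (by positivity)]
    have h4 : (cw S ⌊x⌋₊ (⌊x + a * Real.log x ^ 2⌋₊ - ⌊x⌋₊) : ℝ) ≤
        cw S ⌊x⌋₊ ⌊(b : ℝ) * Real.log (⌊x⌋₊ : ℕ) ^ 2⌋₊ := by exact_mod_cast cw_mono S _ w1
    refine lt_of_le_of_lt h4 (lt_of_lt_of_le h2 ?_)
    calc (v : ℝ) * (b * Real.log (⌊x⌋₊ : ℕ)) = (b * v) * Real.log (⌊x⌋₊ : ℕ) := by ring
      _ ≤ (a * u) * Real.log x := by gcongr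
      _ = _ := by ring
  · intro hu hau
    obtain ⟨v, v1, v3⟩ := right_rat (p := fun v => a * ff v < 1) ((contu a).eventually_lt_const hau)
    have hv0 : (0 : ℝ) < v := by linarith
    obtain ⟨b, b1, b2, b3⟩ := left_rat (u := a) (p := fun b => 0 < b ∧ a * u / v < b)
      ((eventually_gt_nhds ha).and (eventually_gt_nhds (by
        rw [div_lt_iff₀ hv0]
        nlinarith)))
    rw [div_lt_iff₀ hv0] at b3
    have hbf : (b : ℝ) * ff v < 1 := by
      have := ff_nonneg hv0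
      nlinarith
    have h1 := (H b v (by exact_mod_cast b2) (by exact_mod_cast hv0)).2.1 (by linarith) hbf
    have h2 : ∃ᶠ n : ℕ in atTop, u < Ra S a (n : ℝ) := by
      refine (h1.and_eventually (hlogN'.eventually_ge_atTop 1)).mono ?_
      rintro n ⟨h3, h4⟩
      have hl : 0 < Real.log n := by linarith
      rw [Ra_nat S ha, lt_div_iff₀ (by positivity)]
      have h5 : (cw S n ⌊(b : ℝ) * Real.log n ^ 2⌋₊ : ℝ) ≤ cw S n ⌊a * Real.log n ^ 2⌋₊ := by
        have : ⌊(b : ℝ) * Real.log n ^ 2⌋₊ ≤ ⌊a * Real.log n ^ 2⌋₊ := by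
          apply Nat.floor_mono
          gcongr
        exact_mod_cast cw_mono S n this
      refine lt_of_lt_of_le (lt_of_le_of_lt ?_ h3) h5
      calc u * (a * Real.log n) = (a * u) * Real.log n := by ring
        _ ≤ (b * v) * Real.log n := by gcongr
        _ = _ := by ring
    exact (tendsto_natCast_atTop_atTop (R := ℝ)).frequently h2
  · intro hu hau
    obtain ⟨v, v1, v2, v3⟩ := right_rat (p := fun v => v < 1 ∧ 1 < a * ff v)
      ((eventually_lt_nhds hu).and ((contu a).eventually_const_lt hau))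
    have hv0 : (0 : ℝ) < v := by linarith
    have conta : Tendsto (fun b : ℝ => b * ff v) (𝓝 a) (𝓝 (a * ff v)) :=
      (continuous_id.mul continuous_const).tendsto a
    obtain ⟨b, b1, ⟨b2, b3⟩, b4⟩ := left_rat (u := a) (p := fun b => (0 < b ∧ a * u / v < b) ∧ 1 < b * ff v)
      (((eventually_gt_nhds ha).and (eventually_gt_nhds (by
        rw [div_lt_iff₀ hv0]
        nlinarith))).and (conta.eventually_const_lt v3))
    rw [div_lt_iff₀ hv0] at b3
    have h1 := (H b v (by exact_mod_cast b2) (by exact_mod_cast hv0)).2.2.1 v2 b4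
    -- a small relative error of the logarithm
    set κ := min (a / 2) ((b * v - a * u) / (a * u)) with hκ
    have hκ0 : 0 < κ := lt_min (by positivity) (by
      have : 0 < (b : ℝ) * v - a * u := by linarith
      positivity)
    have hκ1 : κ < a := lt_of_le_of_lt (min_le_left _ _) (by linarith)
    have hκ2 : κ ≤ (b * v - a * u) / (a * u) := min_le_right _ _
    rw [le_div_iff₀ (by positivity)] at hκ2
    filter_upwards [hfl.eventually h1, win_bounds ha (show 0 < a - (b : ℝ) by linarith) (by linarith),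
      win_bounds ha hκ0 hκ1, eventually_ge_atTop 0] with x h2 h3 h3' hx0
    obtain ⟨-, w2, w3, w4, -⟩ := h3
    obtain ⟨-, -, -, -, w5⟩ := h3'
    rw [sub_sub_cancel] at w2
    unfold Ra
    have hL : 0 < Real.log x := by linarith
    rw [lt_div_iff₀ (by positivity), cR_cw S hx0 (by positivity)]
    have h4 : (cw S ⌊x⌋₊ ⌊(b : ℝ) * Real.log (⌊x⌋₊ : ℕ) ^ 2⌋₊ : ℝ) ≤
        cw S ⌊x⌋₊ (⌊x + a * Real.log x ^ 2⌋₊ - ⌊x⌋₊) := by exact_mod_cast cw_mono S _ w2
    refine lt_of_lt_of_le (lt_of_le_of_lt ?_ h2) h4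
    calc u * (a * Real.log x) = (a * u) * Real.log x := by ring
      _ ≤ (a * u) * ((1 + κ) * Real.log (⌊x⌋₊ : ℕ)) := by gcongr
      _ = (a * u + κ * (a * u)) * Real.log (⌊x⌋₊ : ℕ) := by ring
      _ ≤ (b * v) * Real.log (⌊x⌋₊ : ℕ) := by
        gcongr
        linarith
      _ = _ := by ring
  · intro hu hau
    obtain ⟨v, v1, v2, v3⟩ := left_rat (p := fun v => 0 < v ∧ a * ff v < 1)
      ((eventually_gt_nhds hu0).and ((contu a).eventually_lt_const hau))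
    have conta : Tendsto (fun b : ℝ => b * ff v) (𝓝 a) (𝓝 (a * ff v)) :=
      (continuous_id.mul continuous_const).tendsto a
    obtain ⟨b, b1, b3, b4⟩ := right_rat (u := a) (p := fun b => b < a * u / v ∧ b * ff v < 1)
      ((eventually_lt_nhds (by
        rw [lt_div_iff₀ v2]
        nlinarith)).and (conta.eventually_lt_const v3))
    rw [lt_div_iff₀ v2] at b3
    have hb0 : (0 : ℝ) < b := by linarith
    have h1 := (H b v (by exact_mod_cast hb0) (by exact_mod_cast v2)).2.2.2 (by linarith) b4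
    have h2 : ∃ᶠ n : ℕ in atTop, Ra S a (n : ℝ) < u := by
      refine (h1.and_eventually (hlogN'.eventually_ge_atTop 1)).mono ?_
      rintro n ⟨h3, h4⟩
      have hl : 0 < Real.log n := by linarith
      rw [Ra_nat S ha, div_lt_iff₀ (by positivity)]
      have h5 : (cw S n ⌊a * Real.log n ^ 2⌋₊ : ℝ) ≤ cw S n ⌊(b : ℝ) * Real.log n ^ 2⌋₊ := by
        have : ⌊a * Real.log n ^ 2⌋₊ ≤ ⌊(b : ℝ) * Real.log n ^ 2⌋₊ := by
          apply Nat.floor_mono
          gcongr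
        exact_mod_cast cw_mono S n this
      refine lt_of_le_of_lt h5 (lt_of_lt_of_le h3 ?_)
      calc (v : ℝ) * (b * Real.log n) = (b * v) * Real.log n := by ring
        _ ≤ (a * u) * Real.log n := by gcongr
        _ = _ := by ring
    exact (tendsto_natCast_atTop_atTop (R := ℝ)).frequently h2

end Pool.Agent.Q268.XL
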