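import Mathlib
import Pool.Agent.Q268.XL.Law

/-!
The law implies the asymptotic formula for the primes in windows of the length of the displacements.
-/

set_option autoImplicit false

namespace Pool.Agent.Q268.XL

open Filter Finset MeasureTheory ProbabilityTheory
open Pool.Agent.Q268.DP Pool.Agent.Q268.DL
open scoped ENNReal Topology

theorem ff_pos {v : ℝ} (hv : 0 < v) (hv1 : v ≠ 1) : 0 < ff v := by
  have h1 := Real.log_lt_sub_one_of_pos (inv_pos.2 hv) (fun h => hv1 (by rwa [inv_eq_one] at h))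
  rw [Real.log_inv] at h1
  have h2 : v * (-Real.log v) < v * (v⁻¹ - 1) := by gcongr
  have h3 : v * (v⁻¹ - 1) = 1 - v := by field_simp
  unfold ff
  linarith

set_option maxHeartbeats 1000000 in
theorem conv_law {D : ℕ → ℕ} (hD : Regular D) {c : ℝ} (hc : 0 < c)
    (h3 : ∀ᶠ q : ℕ in atTop, c * Real.log q ^ 3 ≤ D q) {S : Set ℕ} (hC : Core S D)
    (hLaw : ∀ a : ℝ, 0 < a → Law S a) : Tendsto (RD D) atTop (𝓝 1) := by
  have hlog : Tendsto (fun q : ℕ => Real.log q) atTop atTop :=
    Real.tendsto_log_atTop.comp tendsto_natCast_atTop_atTop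
  have hL : Tendsto (fun q : ℕ => (D q : ℝ) / Real.log q) atTop atTop := by
    rw [tendsto_atTop]
    intro K
    filter_upwards [h3, hlog.eventually_ge_atTop (max 1 (K / c))] with q h1 h2
    have h4 : 1 ≤ Real.log q := (le_max_left _ _).trans h2
    have h5 : K / c ≤ Real.log q := (le_max_right _ _).trans h2
    rw [le_div_iff₀ (by linarith)]
    refine le_trans ?_ h1
    rw [div_le_iff₀ hc] at h5
    have h6 : Real.log q ≤ Real.log q ^ 2 := by nlinarith
    calc K * Real.log q ≤ (Real.log q * c) * Real.log q := by gcongr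
      _ = c * (Real.log q * Real.log q) := by ring
      _ ≤ c * (Real.log q ^ 2 * Real.log q) := by gcongr
      _ = _ := by ring
  apply tendsto_of_ev
  intro ε hε hε1
  obtain ⟨C₂, hC2, hx2⟩ := hC ε hε
  set f₁ := ff (1 + ε / 2) with hf1
  set f₂ := ff (1 - ε / 2) with hf2
  have hf1' : 0 < f₁ := ff_pos (by linarith) (by intro h; linarith)
  have hf2' : 0 < f₂ := ff_pos (by linarith) (by intro h; linarith)
  set C := max C₂ (max (1 / f₁) (1 / f₂)) + 1 with hCdef
  have c1 : C₂ + 1 ≤ C := by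
    have := le_max_left C₂ (max (1 / f₁) (1 / f₂))
    linarith
  have c2 : 1 / f₁ < C := by
    have := (le_max_left (1 / f₁) (1 / f₂)).trans (le_max_right C₂ (max (1 / f₁) (1 / f₂)))
    linarith
  have c3 : 1 / f₂ < C := by
    have := (le_max_right (1 / f₁) (1 / f₂)).trans (le_max_right C₂ (max (1 / f₁) (1 / f₂)))
    linarith
  rw [div_lt_iff₀ hf1'] at c2
  rw [div_lt_iff₀ hf2'] at c3
  have hC1' : 1 ≤ C := by linarith
  have hC0 : 0 < C := by linarith
  have hup := (hLaw C hC0 (1 + ε / 2) (by linarith)).1 (by linarith) c2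
  have hlo := (hLaw C hC0 (1 - ε / 2) (by linarith)).2.2.1 (by linarith) c3
  obtain ⟨L₀, hL₀⟩ := ct_bt (ε := ε * c / (4 * C)) (by positivity)
  set H : ℕ → ℕ := fun n => ⌊C * Real.log n ^ 2⌋₊ with hH
  have hH1 : ∀ n : ℕ, C * Real.log n ^ 2 < H n + 1 := fun n => Nat.lt_floor_add_one _
  have hH2 : ∀ n : ℕ, (H n : ℝ) ≤ C * Real.log n ^ 2 := fun n => Nat.floor_le (by positivity)
  have g1 := tendsto_natCast_atTop_atTop (R := ℝ) |>.eventually (loggrow (C + 4) 2 one_pos)
  have hHn : ∀ᶠ n : ℕ in atTop, (H n : ℝ) ≤ n := by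
    filter_upwards [g1, hlog.eventually_ge_atTop 1] with n g1 g2
    have e1 : (Real.log n) ^ (2 : ℝ) = Real.log n ^ 2 := by norm_cast
    rw [e1] at g1
    have := hH2 n
    nlinarith
  apply conv hD hL (H := H) (S := S) hε hε1
  · filter_upwards [hx2, hHn, hlog.eventually_ge_atTop 1] with n h1 h2 h4
    apply h1
    · have h5 := hH1 n
      have h6 : 1 ≤ Real.log n ^ 2 := one_le_pow₀ h4
      have h7 : (C₂ + 1) * Real.log n ^ 2 ≤ C * Real.log n ^ 2 := by gcongr
      linarith
    · have : (H n : ℝ) ≤ ((3 * n : ℕ) : ℝ) := by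
        push_cast
        have : (0 : ℝ) ≤ n := Nat.cast_nonneg n
        linarith
      exact_mod_cast this
  · filter_upwards [(tendsto_natCast_atTop_atTop (R := ℝ)).eventually hup,
      (tendsto_natCast_atTop_atTop (R := ℝ)).eventually hlo,
      hlog.eventually_ge_atTop (max 2 (4 / (ε * C)))] with n h1 h2 h4
    have h5 : 2 ≤ Real.log n := (le_max_left _ _).trans h4
    have h6 : 4 / (ε * C) ≤ Real.log n := (le_max_right _ _).trans h4
    rw [div_le_iff₀ (by positivity)] at h6
    have hl : 0 < Real.log n := by linarith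
    rw [Ra_nat S hC0] at h1 h2
    rw [div_lt_iff₀ (by positivity)] at h1
    rw [lt_div_iff₀ (by positivity)] at h2
    change (cw S n (H n) : ℝ) < _ at h1
    change _ < (cw S n (H n) : ℝ) at h2
    have h7 := hH1 n
    have h8 := hH2 n
    have h9 : 4 ≤ C * Real.log n ^ 2 := by nlinarith
    have hHpos : (0 : ℝ) < H n := by linarith
    have h10 : 4 ≤ ε * (C * Real.log n ^ 2) := by nlinarith
    rw [div_div_eq_mul_div, abs_le]
    constructor
    · have : 1 - ε ≤ (cw S n (H n) : ℝ) * Real.log n / H n := by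
        rw [le_div_iff₀ hHpos]
        have e1 : (1 - ε / 2) * (C * Real.log n) * Real.log n ≤ (cw S n (H n) : ℝ) * Real.log n := by gcongr
        have e2 : (1 - ε) * (H n : ℝ) ≤ (1 - ε) * (C * Real.log n ^ 2) := by
          have : 0 ≤ 1 - ε := by linarith
          gcongr
        nlinarith
      linarith
    · have : (cw S n (H n) : ℝ) * Real.log n / H n ≤ 1 + ε := by
        rw [div_le_iff₀ hHpos]
        have e1 : (cw S n (H n) : ℝ) * Real.log n ≤ (1 + ε / 2) * (C * Real.log n) * Real.log n := by gcongr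
        have e2 : (1 + ε) * (C * Real.log n ^ 2 - 1) ≤ (1 + ε) * (H n : ℝ) := by
          gcongr
          linarith
        nlinarith
      linarith
  · filter_upwards [h3, hlog.eventually_ge_atTop (L₀ + 4)] with n h1 h2 a b hab
    have hL00 : (0 : ℝ) ≤ L₀ := Nat.cast_nonneg _
    have hlp : 4 ≤ Real.log n := by linarith
    have hlp0 : 0 < Real.log n := by linarith
    have h4 : 16 ≤ Real.log n ^ 2 := by nlinarith
    have h5 : L₀ ≤ 2 * H n + 4 := by
      have : (L₀ : ℝ) ≤ ((2 * H n + 4 : ℕ) : ℝ) := by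
        push_cast
        have h6 := hH1 n
        nlinarith
      exact_mod_cast this
    have h6 := hL₀ (2 * H n + 4) a b h5 (by push_cast; exact hab)
    refine h6.trans ?_
    push_cast
    have h7 : 2 * (H n : ℝ) + 4 ≤ 4 * C * Real.log n ^ 2 := by
      have := hH2 n
      nlinarith
    have h8 : c * Real.log n ^ 2 ≤ D n / Real.log n := by
      rw [le_div_iff₀ hlp0]
      calc c * Real.log n ^ 2 * Real.log n = c * Real.log n ^ 3 := by ring
        _ ≤ (D n : ℝ) := h1
    calc ε * c / (4 * C) * (2 * (H n : ℝ) + 4) ≤ ε * c / (4 * C) * (4 * C * Real.log n ^ 2) := by gcongr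
      _ = ε * (c * Real.log n ^ 2) := by field_simp
      _ ≤ ε * (D n / Real.log n) := by gcongr
  · filter_upwards [h3, hlog.eventually_ge_atTop (max 2 ((C + 3) / (ε * c)))] with n h1 h2
    have h4 : 2 ≤ Real.log n := (le_max_left _ _).trans h2
    have h5 : (C + 3) / (ε * c) ≤ Real.log n := (le_max_right _ _).trans h2
    rw [div_le_iff₀ (by positivity)] at h5
    have h6 := hH1 n
    have h7 := hH2 n
    have h8 : 4 ≤ Real.log n ^ 2 := by nlinarith
    constructor
    · have : (1 : ℝ) ≤ H n := by nlinarith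
      exact_mod_cast this
    · have h9 : (H n : ℝ) + 2 ≤ (C + 3) * Real.log n ^ 2 := by nlinarith
      refine h9.trans ?_
      calc (C + 3) * Real.log n ^ 2 ≤ (Real.log n * (ε * c)) * Real.log n ^ 2 := by gcongr
        _ = ε * (c * Real.log n ^ 3) := by ring
        _ ≤ ε * D n := by gcongr

/-- almost surely, the law for all `a` is equivalent to the asymptotic formula for the primes in the windows
`(n, n + D n]` -/
theorem law_iff {Ω : Type} [MeasurableSpace Ω] {μ : Measure Ω} {X : ℕ → Ω → ℕ} {D : ℕ → ℕ}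
    (hX : Disp μ X D) (hD : Regular D) (h4 : ∀ᶠ q : ℕ in atTop, Real.log q ^ 4 ≤ D q) :
    ∀ᵐ ω ∂μ, (∀ a : ℝ, 0 < a → Law (moved Nat.Prime X ω) a) ↔ Tendsto (RD D) atTop (𝓝 1) := by
  have h3 : ∀ᶠ q : ℕ in atTop, 1 * Real.log q ^ 3 ≤ D q := by
    filter_upwards [h4, hlogN'.eventually_ge_atTop 1] with q h1 h2
    rw [one_mul]
    refine le_trans ?_ h1
    exact pow_le_pow_right₀ h2 (by norm_num)
  by_cases hP : Tendsto (RD D) atTop (𝓝 1)
  · have hL : Tendsto (fun q : ℕ => (D q : ℝ) / Real.log q) atTop atTop := by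
      rw [tendsto_atTop]
      intro K
      filter_upwards [h4, hlogN'.eventually_ge_atTop (max 1 K)] with q h1 h2
      have h4 : 1 ≤ Real.log q := (le_max_left _ _).trans h2
      have h5 : K ≤ Real.log q := (le_max_right _ _).trans h2
      rw [le_div_iff₀ (by linarith)]
      refine le_trans ?_ h1
      calc K * Real.log q ≤ Real.log q * Real.log q := by gcongr
        _ = Real.log q ^ 2 := by ring
        _ ≤ Real.log q ^ 4 := pow_le_pow_right₀ h4 (by norm_num)
    filter_upwards [il_ae hX hD.small h4 (dn_of_PF hD hL hP)] with ω hω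
    exact ⟨fun _ => hP, fun _ a ha => law_of_il hω ha⟩
  · obtain ⟨q₀, hq₀⟩ := eventually_atTop.1 hD.step
    have hDt : Tendsto D atTop atTop := by
      have h1 : Tendsto (fun q : ℕ => (D q : ℝ)) atTop atTop :=
        tendsto_atTop_mono' _ h4 ((tendsto_pow_atTop (by norm_num)).comp hlogN')
      exact tendsto_natCast_atTop_iff.1 h1
    filter_upwards [core_all hX (dn_tendsto (fun q hq => (hq₀ q hq).1) hDt)] with ω hω
    exact ⟨fun h => conv_law hD one_pos h3 hω h, fun h => absurd h hP⟩

end Pool.Agent.Q268.XL
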