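import Mathlib
import Pool.Agent.Q268.XL.Conv

/-!
Uniformity over all longer windows.
-/

set_option autoImplicit false

namespace Pool.Agent.Q268.XL

open Filter Finset MeasureTheory ProbabilityTheory
open Pool.Agent.Q268.DP Pool.Agent.Q268.DL
open scoped ENNReal Topology

variable {Ω : Type} [MeasurableSpace Ω] {μ : Measure Ω} {X : ℕ → Ω → ℕ} {D : ℕ → ℕ}

theorem tail_up (hX : Disp μ X D) (hP : Tendsto (fun m : ℕ => dn D m * Real.log m) atTop (𝓝 1)) {u c : ℝ}
    (hu : 1 < u) (hc : c < ff u) : ∀ᶠ n : ℕ in atTop, ∀ h : ℕ, h ≤ 3 * n →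
      μ.real {ω | u * (h / Real.log n) ≤ cw (moved Nat.Prime X ω) n h} ≤ Real.exp (-(c * (h / Real.log n))) := by
  have hu0 : 0 < u - 1 := by linarith
  set ε := (ff u - c) / (u - 1) with hε
  have hε0 : 0 < ε := by
    have : 0 < ff u - c := by linarith
    positivity
  have e1 : ε * (u - 1) = ff u - c := by
    rw [hε]
    field_simp
  filter_upwards [mw_of_dn hP hε0] with n h2 h hh
  have k1 := h2 h hh
  rw [abs_le] at k1
  have h5 := chern_up hX Nat.Prime (W := Ioc n (n + h)) (N := n + h) (u := u) (k := u * (h / Real.log n))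
    (T := (1 + ε) * (h / Real.log n)) (fun m hm => (Finset.mem_Ioc.1 hm).2) hu.le (by
      have : mn Nat.Prime D (n + h) (Ioc n (n + h)) = mw Nat.Prime D n h := rfl
      rw [this]
      linarith [k1.2])
  refine h5.trans (le_of_eq ?_)
  congr 1
  have e2 : c = ff u - ε * (u - 1) := by linarith
  rw [e2]
  unfold ff
  ring

theorem tail_low (hX : Disp μ X D) (hP : Tendsto (fun m : ℕ => dn D m * Real.log m) atTop (𝓝 1)) {u c : ℝ}
    (hu0 : 0 < u) (hu : u < 1) (hc : c < ff u) : ∀ᶠ n : ℕ in atTop, ∀ h : ℕ, h ≤ 3 * n →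
      μ.real {ω | (cw (moved Nat.Prime X ω) n h : ℝ) ≤ u * (h / Real.log n)} ≤
        Real.exp (-(c * (h / Real.log n))) := by
  have hu1 : 0 < 1 - u := by linarith
  set ε := min 1 ((ff u - c) / (2 * (1 - u))) with hε
  have hε0 : 0 < ε := by
    rw [hε]
    have : 0 < ff u - c := by linarith
    exact lt_min one_pos (by positivity)
  have hε1 : ε ≤ 1 := min_le_left _ _
  have hε2 : ε ≤ (ff u - c) / (2 * (1 - u)) := min_le_right _ _
  rw [le_div_iff₀ (by positivity)] at hε2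
  have hd : ∀ᶠ m : ℕ in atTop, dn D m * Real.log m ≤ 2 := hP.eventually_le_const (by norm_num)
  obtain ⟨m₀, hm₀⟩ := eventually_atTop.1 hd
  filter_upwards [mw_of_dn hP hε0, eventually_gt_atTop 0, hlogN'.eventually_ge_atTop (max 1 (2 / ε)),
    eventually_ge_atTop m₀] with n h2 h3 hl h4 h hh
  have l1 : 1 ≤ Real.log n := (le_max_left _ _).trans hl
  have l2 : 2 / ε ≤ Real.log n := (le_max_right _ _).trans hl
  rw [div_le_iff₀ hε0] at l2
  have hl0 : 0 < Real.log n := by linarith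
  have k1 := h2 h hh
  rw [abs_le] at k1
  have h5 := chern_low hX Nat.Prime (W := Ioc n (n + h)) (N := n + h) (u := u) (k := u * (h / Real.log n))
    (T := (1 - ε) * (h / Real.log n)) (ε := ε) (fun m hm => (Finset.mem_Ioc.1 hm).2) hu0 hu.le hε1 (by
      intro m hm
      rw [Finset.mem_Ioc] at hm
      have e2 : mn Nat.Prime D (n + h) {m} = dn D m := mn_single Nat.Prime D hm.2
      have e3 := hm₀ m (by omega)
      have e4 : Real.log n ≤ Real.log m := Real.log_le_log (by exact_mod_cast h3) (by exact_mod_cast hm.1.le)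
      rw [e2]
      have e5 := dn_nonneg D m
      have e6 : dn D m * Real.log n ≤ ε * Real.log n := by nlinarith
      exact le_of_mul_le_mul_right e6 (by linarith)) (by
      have : mn Nat.Prime D (n + h) (Ioc n (n + h)) = mw Nat.Prime D n h := rfl
      rw [this]
      linarith [k1.1])
  refine h5.trans ?_
  apply Real.exp_le_exp.2
  have hy0 : (0 : ℝ) ≤ h / Real.log n := by positivity
  have e2 : -(u * ((h : ℝ) / Real.log n) * Real.log u) - (1 - u) * ((1 - ε) * ((1 - ε) * (h / Real.log n))) =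
      -(ff u * (h / Real.log n)) + (2 * ε - ε ^ 2) * (1 - u) * (h / Real.log n) := by
    unfold ff
    ring
  rw [e2]
  have e3 : (2 * ε - ε ^ 2) * (1 - u) ≤ ff u - c := by
    have : (2 * ε - ε ^ 2) * (1 - u) ≤ (2 * ε) * (1 - u) := by
      have : 0 ≤ ε ^ 2 := by positivity
      gcongr
      linarith
    linarith
  have e4 : (2 * ε - ε ^ 2) * (1 - u) * ((h : ℝ) / Real.log n) ≤ (ff u - c) * (h / Real.log n) := by gcongr
  linarith

/-- union bound over all lengths and Borel–Cantelli -/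
theorem union_bc [IsProbabilityMeasure μ] {E : ℕ → ℕ → Set Ω} {a c : ℝ} (ha : 0 < a) (hac : 1 < a * c)
    (hp : ∀ᶠ n : ℕ in atTop, ∀ h : ℕ, h ≤ 3 * n → μ.real (E n h) ≤ Real.exp (-(c * (h / Real.log n)))) :
    ∀ᵐ ω ∂μ, ∀ᶠ n : ℕ in atTop, ∀ h : ℕ, a * Real.log n ^ 2 ≤ h → h ≤ 3 * n → ω ∉ E n h := by
  classical
  set c₂ := (c - 1 / a) / 2 with hc2
  set c₁ := (c + 1 / a) / 2 with hc1
  have hinv : a * (1 / a) = 1 := by field_simp
  have hca : 1 / a < c := by
    rw [div_lt_iff₀ ha]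
    linarith
  have hc20 : 0 < c₂ := by
    rw [hc2]
    linarith
  have hc10 : 0 < c₁ := by
    rw [hc1]
    have : 0 < 1 / a := by positivity
    linarith
  have hcc : c = c₁ + c₂ := by
    rw [hc1, hc2]
    ring
  have hac1 : 1 < a * c₁ := by
    rw [hc1]
    nlinarith
  set s := (a * c₁ - 1) / 2 with hs
  have hs0 : 0 < s := by
    rw [hs]
    linarith
  have hE : ∀ᶠ n : ℕ in atTop, μ.real (⋃ h ∈ (range (3 * n + 1)).filter (fun h : ℕ => a * Real.log n ^ 2 ≤ h), E n h) ≤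
      1 / (n : ℝ) ^ (1 + s) := by
    filter_upwards [hp, hlogN'.eventually_ge_atTop (max 1 (2 / (c₂ * s ^ 2))), eventually_gt_atTop 0] with n h1 h2 h3
    have l1 : 1 ≤ Real.log n := (le_max_left _ _).trans h2
    have l2 : 2 / (c₂ * s ^ 2) ≤ Real.log n := (le_max_right _ _).trans h2
    rw [div_le_iff₀ (by positivity)] at l2
    have hl0 : 0 < Real.log n := by linarith
    set l := Real.log n with hl
    set r := Real.exp (-(c₂ / l)) with hr
    have hr0 : 0 < r := Real.exp_pos _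
    have hcl : 0 < c₂ / l := by positivity
    have hr1 : r < 1 := by
      rw [hr, ← Real.exp_zero]
      exact Real.exp_lt_exp.2 (by linarith)
    refine (measureReal_biUnion_finset_le _ _).trans ?_
    have b1 : ∑ h ∈ (range (3 * n + 1)).filter (fun h : ℕ => a * l ^ 2 ≤ h), μ.real (E n h) ≤
        ∑ h ∈ (range (3 * n + 1)).filter (fun h : ℕ => a * l ^ 2 ≤ h), Real.exp (-(a * c₁ * l)) * r ^ h := by
      refine Finset.sum_le_sum fun h hh => ?_
      rw [Finset.mem_filter, Finset.mem_range] at hh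
      refine (h1 h (by omega)).trans ?_
      rw [hr, ← Real.exp_nat_mul, ← Real.exp_add]
      apply Real.exp_le_exp.2
      have e1 : a * l ≤ h / l := by
        rw [le_div_iff₀ hl0]
        calc a * l * l = a * l ^ 2 := by ring
          _ ≤ h := hh.2
      have e2 : c₁ * (a * l) ≤ c₁ * (h / l) := by gcongr
      have e3 : c * (h / l) = c₁ * (h / l) + c₂ * (h / l) := by rw [hcc]; ring
      have e4 : (h : ℝ) * -(c₂ / l) = -(c₂ * (h / l)) := by ring
      rw [e4]
      linarith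
    refine b1.trans ?_
    have b2 : ∑ h ∈ (range (3 * n + 1)).filter (fun h : ℕ => a * l ^ 2 ≤ h), Real.exp (-(a * c₁ * l)) * r ^ h ≤
        ∑ h ∈ range (3 * n + 1), Real.exp (-(a * c₁ * l)) * r ^ h :=
      Finset.sum_le_sum_of_subset_of_nonneg (Finset.filter_subset _ _) (fun h _ _ => by positivity)
    refine b2.trans ?_
    rw [← Finset.mul_sum]
    have b3 : ∑ h ∈ range (3 * n + 1), r ^ h ≤ 1 + l / c₂ := by
      have g1 := mul_neg_geom_sum r (3 * n + 1)
      have g2 : (1 - r) * ∑ h ∈ range (3 * n + 1), r ^ h ≤ 1 := by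
        rw [g1]
        have : 0 < r ^ (3 * n + 1) := by positivity
        linarith
      have g3 : c₂ / l / (1 + c₂ / l) ≤ 1 - r := by
        have g4 := Real.add_one_le_exp (c₂ / l)
        have g5 : r * Real.exp (c₂ / l) = 1 := by
          rw [hr, ← Real.exp_add]
          simp
        rw [div_le_iff₀ (by positivity)]
        nlinarith
      have g6 : 0 < 1 - r := by linarith
      have g7 : (1 - r) * (1 + l / c₂) ≥ 1 := by
        have g8 : (c₂ / l / (1 + c₂ / l)) * (1 + l / c₂) = 1 := by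
          field_simp
          ring
        have g9 : 0 < 1 + l / c₂ := by positivity
        nlinarith
      have g8 : (1 - r) * ∑ h ∈ range (3 * n + 1), r ^ h ≤ (1 - r) * (1 + l / c₂) := by linarith
      exact le_of_mul_le_mul_left g8 g6
    have b4 : 1 + l / c₂ ≤ Real.exp (s * l) := by
      have g1 := Real.quadratic_le_exp_of_nonneg (x := s * l) (by positivity)
      have g2 : l / c₂ ≤ (s * l) ^ 2 / 2 := by
        rw [div_le_div_iff₀ hc20 (by norm_num)]
        nlinarith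
      have : 0 < s * l := by positivity
      linarith
    rw [← exp_log_pow h3]
    calc Real.exp (-(a * c₁ * l)) * ∑ h ∈ range (3 * n + 1), r ^ h
        ≤ Real.exp (-(a * c₁ * l)) * Real.exp (s * l) := by gcongr; exact b3.trans b4
      _ = Real.exp (-((1 + s) * l)) := by
        rw [← Real.exp_add]
        congr 1
        rw [hs]
        ring
  filter_upwards [bc_up (show 1 < 1 + s by linarith) hE] with ω hω
  filter_upwards [hω] with n hn h hh1 hh2 hcon
  apply hn
  simp only [Set.mem_iUnion, Finset.mem_filter, Finset.mem_range]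
  exact ⟨h, ⟨by omega, hh1⟩, hcon⟩

/-- the uniform law for windows of integers -/
def IU (S : Set ℕ) (a u : ℝ) : Prop :=
  (1 < u → 1 < a * ff u → ∀ᶠ n : ℕ in atTop, ∀ h : ℕ, a * Real.log n ^ 2 ≤ h → h ≤ 3 * n →
    (cw S n h : ℝ) < u * (h / Real.log n)) ∧
  (u < 1 → 1 < a * ff u → ∀ᶠ n : ℕ in atTop, ∀ h : ℕ, a * Real.log n ^ 2 ≤ h → h ≤ 3 * n →
    u * (h / Real.log n) < cw S n h)

theorem iu_ae (hX : Disp μ X D) (hP : Tendsto (fun m : ℕ => dn D m * Real.log m) atTop (𝓝 1)) :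
    ∀ᵐ ω ∂μ, ∀ a u : ℚ, 0 < a → 0 < u → IU (moved Nat.Prime X ω) a u := by
  have hPr : IsProbabilityMeasure μ := hX.indep.isProbabilityMeasure
  rw [ae_all_iff]
  intro a
  rw [ae_all_iff]
  intro u
  by_cases ha : 0 < a
  · by_cases hu : 0 < u
    · have ha' : (0 : ℝ) < a := by exact_mod_cast ha
      have hu' : (0 : ℝ) < u := by exact_mod_cast hu
      by_cases hau : 1 < (a : ℝ) * ff u
      · -- a constant between `1 / a` and `ff u`
        set c : ℝ := (ff u + 1 / a) / 2 with hc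
        have h1a : (1 : ℝ) / a < ff u := by
          rw [div_lt_iff₀ ha']
          linarith
        have hcf : c < ff u := by
          rw [hc]
          linarith
        have hac : 1 < (a : ℝ) * c := by
          have e1 : (a : ℝ) * (1 / a) = 1 := by field_simp
          rw [hc]
          nlinarith
        have A1 : ∀ᵐ ω ∂μ, (1 : ℝ) < u → ∀ᶠ n : ℕ in atTop, ∀ h : ℕ, (a : ℝ) * Real.log n ^ 2 ≤ h → h ≤ 3 * n →
            (cw (moved Nat.Prime X ω) n h : ℝ) < u * (h / Real.log n) := by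
          by_cases h1 : (1 : ℝ) < u
          · filter_upwards [union_bc (E := fun n h => {ω | (u : ℝ) * (h / Real.log n) ≤
              cw (moved Nat.Prime X ω) n h}) ha' hac (tail_up hX hP h1 hcf)] with ω hω _
            filter_upwards [hω] with n hn h h2 h3
            have := hn h h2 h3
            simpa using this
          · exact Eventually.of_forall fun ω h => absurd h h1
        have A2 : ∀ᵐ ω ∂μ, (u : ℝ) < 1 → ∀ᶠ n : ℕ in atTop, ∀ h : ℕ, (a : ℝ) * Real.log n ^ 2 ≤ h → h ≤ 3 * n →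
            u * (h / Real.log n) < (cw (moved Nat.Prime X ω) n h : ℝ) := by
          by_cases h1 : (u : ℝ) < 1
          · filter_upwards [union_bc (E := fun n h => {ω | (cw (moved Nat.Prime X ω) n h : ℝ) ≤
              (u : ℝ) * (h / Real.log n)}) ha' hac (tail_low hX hP hu' h1 hcf)] with ω hω _
            filter_upwards [hω] with n hn h h2 h3
            have := hn h h2 h3
            simpa using this
          · exact Eventually.of_forall fun ω h => absurd h h1
        filter_upwards [A1, A2] with ω b1 b2 _ _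
        exact ⟨fun h _ => b1 h, fun h _ => b2 h⟩
      · exact Eventually.of_forall fun ω _ _ => ⟨fun _ h => absurd h hau, fun _ h => absurd h hau⟩
    · exact Eventually.of_forall fun ω _ h => absurd h hu
  · exact Eventually.of_forall fun ω h => absurd h ha

/-- the uniform law -/
def LU (S : Set ℕ) (a : ℝ) : Prop := ∀ u : ℝ, 0 < u →
  (1 < u → 1 < a * ff u → ∀ᶠ x : ℝ in atTop, ∀ y : ℝ, a * Real.log x ^ 2 ≤ y → y ≤ x → RR S x y < u) ∧
  (u < 1 → 1 < a * ff u → ∀ᶠ x : ℝ in atTop, ∀ y : ℝ, a * Real.log x ^ 2 ≤ y → y ≤ x → u < RR S x y)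

/-- the windows of integers, for large `x` -/
theorem win2 {a b κ : ℝ} (ha : 0 < a) (hb : b < a) (hκ : 0 < κ) : ∀ᶠ x : ℝ in atTop,
    ∀ y : ℝ, a * Real.log x ^ 2 ≤ y → y ≤ x →
    (b * Real.log (⌊x⌋₊ : ℕ) ^ 2 ≤ ((⌊x + y⌋₊ - ⌊x⌋₊ : ℕ) : ℝ)) ∧ (⌊x + y⌋₊ - ⌊x⌋₊ ≤ 3 * ⌊x⌋₊) ∧
    (((⌊x + y⌋₊ - ⌊x⌋₊ : ℕ) : ℝ) ≤ (1 + κ) * y) ∧ ((1 - κ) * y ≤ ((⌊x + y⌋₊ - ⌊x⌋₊ : ℕ) : ℝ)) ∧
    0 < Real.log (⌊x⌋₊ : ℕ) ∧ Real.log (⌊x⌋₊ : ℕ) ≤ Real.log x ∧ Real.log x ≤ (1 + κ) * Real.log (⌊x⌋₊ : ℕ) ∧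
    0 < y := by
  have hfl : Tendsto (fun x : ℝ => Real.log (⌊x⌋₊ : ℕ)) atTop atTop :=
    hlogN'.comp tendsto_nat_floor_atTop
  filter_upwards [near_log 1 1 (η := 1) one_pos, eventually_ge_atTop 4,
    hfl.eventually_ge_atTop (max 1 (max (1 / κ) (max (1 / (κ * a)) (1 / (a - b))))),
    Real.tendsto_log_atTop.eventually_ge_atTop 1] with x h1 h2 h3 h4 y hy1 hy2
  have hx0 : 0 ≤ x := by linarith
  have f1 : ((⌊x⌋₊ : ℕ) : ℝ) ≤ x := Nat.floor_le hx0
  have f2 : x < (⌊x⌋₊ : ℕ) + 1 := Nat.lt_floor_add_one x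
  have hab : 0 < a - b := by linarith
  set l := Real.log (⌊x⌋₊ : ℕ) with hl
  set L := Real.log x with hL
  have l1 : 1 ≤ l := (le_max_left _ _).trans h3
  have l2 : 1 / κ ≤ l := ((le_max_left _ _).trans (le_max_right _ _)).trans h3
  have l3 : 1 / (κ * a) ≤ l := (((le_max_left _ _).trans (le_max_right _ _)).trans (le_max_right _ _)).trans h3
  have l4 : 1 / (a - b) ≤ l := (((le_max_right _ _).trans (le_max_right _ _)).trans (le_max_right _ _)).trans h3
  rw [div_le_iff₀ hκ] at l2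
  rw [div_le_iff₀ (by positivity)] at l3 l4
  have hfpos : (0 : ℝ) < (⌊x⌋₊ : ℕ) := by
    have : 0 < ⌊x⌋₊ := Nat.floor_pos.2 (by linarith)
    exact_mod_cast this
  have g1 : l ≤ L := Real.log_le_log hfpos f1
  have g2 : L ≤ l + 1 := by
    have h5 := h1 x (⌊x⌋₊ : ℕ) (by
      rw [sub_self, abs_zero]
      positivity) (by
      rw [abs_le, Real.rpow_one]
      constructor <;> linarith)
    rw [abs_le] at h5
    linarith [h5.2]
  have g3 : L ≤ (1 + κ) * l := by nlinarith
  have hy0 : 0 < y := by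
    have : 0 < a * L ^ 2 := by positivity
    linarith
  have hf := floor_len hx0 hy0.le
  rw [abs_le] at hf
  have hLsq : l ≤ L ^ 2 := by nlinarith
  have hκy : 1 ≤ κ * y := by
    have : l * (κ * a) ≤ κ * (a * L ^ 2) := by
      have : κ * a * l ≤ κ * a * L ^ 2 := by gcongr
      linarith
    have h6 : κ * (a * L ^ 2) ≤ κ * y := by gcongr
    linarith
  refine ⟨?_, ?_, by linarith [hf.2], by linarith [hf.1], by linarith, g1, g3, hy0⟩
  · have e1 : a * l ^ 2 ≤ a * L ^ 2 := by gcongr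
    have e2 : 1 ≤ (a - b) * l ^ 2 := by nlinarith
    linarith [hf.1]
  · have e1 : ((⌊x + y⌋₊ - ⌊x⌋₊ : ℕ) : ℝ) ≤ ((3 * ⌊x⌋₊ : ℕ) : ℝ) := by
      push_cast
      linarith [hf.2]
    exact_mod_cast e1

theorem lu_of_iu {S : Set ℕ} (H : ∀ a u : ℚ, 0 < a → 0 < u → IU S a u) {a : ℝ} (ha : 0 < a) : LU S a := by
  intro u hu0
  have hfl : Tendsto (fun x : ℝ => ⌊x⌋₊) atTop atTop := tendsto_nat_floor_atTop
  have contu : Tendsto (fun v => a * ff v) (𝓝 u) (𝓝 (a * ff u)) := (continuous_const.mul ff_cont).tendsto u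
  refine ⟨?_, ?_⟩
  · intro hu hau
    obtain ⟨v, v1, v2, v3⟩ := left_rat (p := fun v => 1 < v ∧ 1 < a * ff v)
      ((eventually_gt_nhds hu).and (contu.eventually_const_lt hau))
    have hv0 : (0 : ℝ) < v := by linarith
    have conta : Tendsto (fun b : ℝ => b * ff v) (𝓝 a) (𝓝 (a * ff v)) :=
      (continuous_id.mul continuous_const).tendsto a
    obtain ⟨b, b1, b2, b3⟩ := left_rat (u := a) (p := fun b => 0 < b ∧ 1 < b * ff v)
      ((eventually_gt_nhds ha).and (conta.eventually_const_lt v3))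
    have h1 := (H b v (by exact_mod_cast b2) (by exact_mod_cast hv0)).1 v2 b3
    obtain ⟨κ, hκ0, hκ⟩ : ∃ κ : ℝ, 0 < κ ∧ (1 + κ) * ((1 + κ) * v) < u := by
      have hc : Tendsto (fun κ : ℝ => (1 + κ) * ((1 + κ) * v)) (𝓝[>] 0) (𝓝 ((1 + 0) * ((1 + 0) * v))) :=
        (Continuous.tendsto (by fun_prop) 0).mono_left nhdsWithin_le_nhds
      have h2 := hc.eventually_lt_const (show (1 + 0) * ((1 + 0) * (v : ℝ)) < u by linarith)
      obtain ⟨κ, h3, h4⟩ := (h2.and self_mem_nhdsWithin).exists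
      exact ⟨κ, h4, h3⟩
    filter_upwards [hfl.eventually h1, win2 ha b1 hκ0] with x h2 h3 y hy1 hy2
    obtain ⟨w1, w2, w3, -, w5, w6, w7, w8⟩ := h3 y hy1 hy2
    have h4 := h2 _ w1 w2
    have hx0 : 0 ≤ x := by
      by_contra hcon
      push Not at hcon
      linarith
    have hL : 0 < Real.log x := by linarith
    unfold RR
    rw [div_lt_iff₀ (by positivity), cR_cw S hx0 w8.le]
    refine lt_of_lt_of_le h4 ?_
    rw [← mul_div_assoc, ← mul_div_assoc, div_le_div_iff₀ w5 hL]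
    calc (v : ℝ) * ((⌊x + y⌋₊ - ⌊x⌋₊ : ℕ) : ℝ) * Real.log x
        ≤ v * ((1 + κ) * y) * ((1 + κ) * Real.log (⌊x⌋₊ : ℕ)) := by gcongr
      _ = ((1 + κ) * ((1 + κ) * v)) * (y * Real.log (⌊x⌋₊ : ℕ)) := by ring
      _ ≤ u * (y * Real.log (⌊x⌋₊ : ℕ)) := by gcongr
      _ = _ := by ring
  · intro hu hau
    obtain ⟨v, v1, v2, v3⟩ := right_rat (p := fun v => v < 1 ∧ 1 < a * ff v)
      ((eventually_lt_nhds hu).and (contu.eventually_const_lt hau))
    have hv0 : (0 : ℝ) < v := by linarith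
    have conta : Tendsto (fun b : ℝ => b * ff v) (𝓝 a) (𝓝 (a * ff v)) :=
      (continuous_id.mul continuous_const).tendsto a
    obtain ⟨b, b1, b2, b3⟩ := left_rat (u := a) (p := fun b => 0 < b ∧ 1 < b * ff v)
      ((eventually_gt_nhds ha).and (conta.eventually_const_lt v3))
    have h1 := (H b v (by exact_mod_cast b2) (by exact_mod_cast hv0)).2 v2 b3
    obtain ⟨κ, hκ0, hκ⟩ : ∃ κ : ℝ, 0 < κ ∧ u < (1 - κ) * v := by
      have hc : Tendsto (fun κ : ℝ => (1 - κ) * v) (𝓝[>] 0) (𝓝 ((1 - 0) * v)) :=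
        (Continuous.tendsto (by fun_prop) 0).mono_left nhdsWithin_le_nhds
      have h2 := hc.eventually_const_lt (show u < (1 - 0) * (v : ℝ) by linarith)
      obtain ⟨κ, h3, h4⟩ := (h2.and self_mem_nhdsWithin).exists
      exact ⟨κ, h4, h3⟩
    filter_upwards [hfl.eventually h1, win2 ha b1 hκ0] with x h2 h3 y hy1 hy2
    obtain ⟨w1, w2, -, w4, w5, w6, w7, w8⟩ := h3 y hy1 hy2
    have h4 := h2 _ w1 w2
    have hx0 : 0 ≤ x := by linarith
    have hL : 0 < Real.log x := by linarith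
    unfold RR
    rw [lt_div_iff₀ (by positivity), cR_cw S hx0 w8.le]
    refine lt_of_le_of_lt ?_ h4
    rw [← mul_div_assoc, ← mul_div_assoc, div_le_div_iff₀ hL w5]
    have hpos : 0 ≤ (1 - κ) * (v : ℝ) * y := mul_nonneg (by linarith) w8.le
    calc u * y * Real.log (⌊x⌋₊ : ℕ) ≤ ((1 - κ) * v) * y * Real.log x := by gcongr
      _ = v * ((1 - κ) * y) * Real.log x := by ring
      _ ≤ v * ((⌊x + y⌋₊ - ⌊x⌋₊ : ℕ) : ℝ) * Real.log x := by gcongr

end Pool.Agent.Q268.XL
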