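import Mathlib
import Pool.Agent.Q268.XL.Uni
import Pool.Agent.Q268.XL.Half

/-!
The number of exceptional places in dyadic blocks.
-/

set_option autoImplicit false

namespace Pool.Agent.Q268.XL

open Filter Finset MeasureTheory ProbabilityTheory
open Pool.Agent.Q268.DP Pool.Agent.Q268.DL
open scoped ENNReal Topology

variable {Ω : Type} [MeasurableSpace Ω] {μ : Measure Ω} {X : ℕ → Ω → ℕ} {D : ℕ → ℕ}

/-- the number of elements of `B` in the block `[2^k, 2^(k+1))` -/
noncomputable def blk (B : Set ℕ) (k : ℕ) : ℕ := by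
  classical
  exact ((Ico (2 ^ k) (2 ^ (k + 1))).filter (fun n => n ∈ B)).card

theorem blk_mono {A B : Set ℕ} {k : ℕ} (h : ∀ n, 2 ^ k ≤ n → n ∈ A → n ∈ B) : blk A k ≤ blk B k := by
  classical
  unfold blk
  apply Finset.card_le_card
  intro n hn
  rw [Finset.mem_filter, Finset.mem_Ico] at hn ⊢
  exact ⟨hn.1, h n hn.1.1 hn.2⟩

theorem pow_small {r : ℝ} (h0 : 0 ≤ r) (h1 : r < 1) {ε : ℝ} (hε : 0 < ε) :
    ∀ᶠ k : ℕ in atTop, ((k : ℝ) + 1) ^ 2 * r ^ (k + 1) ≤ ε := by
  have h1 : Summable fun k : ℕ => ((k : ℝ)) ^ 2 * r ^ k :=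
    summable_pow_mul_geometric_of_norm_lt_one 2 (by rw [Real.norm_eq_abs, abs_of_nonneg h0]; exact h1)
  have h2 := (summable_nat_add_iff (f := fun k : ℕ => ((k : ℝ)) ^ 2 * r ^ k) 1).2 h1
  have h3 := h2.tendsto_atTop_zero.eventually_le_const hε
  filter_upwards [h3] with k hk
  push_cast at hk
  exact hk

/-- many events in all late blocks -/
theorem blocks_count [IsProbabilityMeasure μ] {E : ℕ → Set Ω} {h : ℕ → ℕ} {C σ τ : ℝ} (hC : 0 < C)
    (hE : ∀ n, MeasurableSet (E n)) (hc : ∀ m n, m + h m ≤ n → μ (E m ∩ E n) ≤ μ (E m) * μ (E n))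
    (hh : ∀ᶠ n : ℕ in atTop, (h n : ℝ) ≤ C * Real.log n ^ 2) (hσ0 : 0 ≤ σ) (hστ : σ < τ) (hτ : τ ≤ 1)
    (hp : ∀ᶠ n : ℕ in atTop, 1 / 4 * (1 / (n : ℝ) ^ σ) ≤ μ.real (E n)) :
    ∀ᵐ ω ∂μ, ∀ᶠ k : ℕ in atTop, (2 : ℝ) ^ ((k : ℝ) * (1 - τ)) ≤ blk {n | ω ∈ E n} k := by
  classical
  have hσ : σ < 1 := lt_of_lt_of_le hστ hτ
  set K : ℕ := ⌈C⌉₊ with hK
  have hKC : C ≤ K := Nat.le_ceil C
  have hK1 : 1 ≤ K := Nat.one_le_ceil_iff.2 hC
  have hKr : (1 : ℝ) ≤ K := by exact_mod_cast hK1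
  set H : ℕ → ℕ := fun k => K * (k + 1) ^ 2 with hH
  have hHpos : ∀ k, 0 < H k := fun k => by positivity
  set J : ℕ → ℕ := fun k => 2 ^ k / H k with hJ
  set nn : ℕ → ℕ → ℕ := fun k j => 2 ^ k + j * H k with hnn
  have hnlt : ∀ k, ∀ j ∈ range (J k), nn k j < 2 ^ (k + 1) := by
    intro k j hj
    rw [Finset.mem_range] at hj
    have h1 : (j + 1) * H k ≤ J k * H k := Nat.mul_le_mul_right _ hj
    have h2 : J k * H k ≤ 2 ^ k := Nat.div_mul_le_self _ _
    have h3 := hHpos k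
    simp only [hnn]
    rw [pow_succ]
    nlinarith
  obtain ⟨n₀, hn₀⟩ := eventually_atTop.1 (hh.and (hp.and (eventually_ge_atTop 1)))
  have hk0 : ∀ᶠ k : ℕ in atTop, n₀ ≤ 2 ^ k := by
    filter_upwards [eventually_ge_atTop n₀] with k hk
    exact hk.trans Nat.lt_two_pow_self.le
  have hk1 : ∀ᶠ k : ℕ in atTop, H k ≤ 2 ^ k := by
    have h4 := pow_small (r := 1 / 2) (by norm_num) (by norm_num) (show (0 : ℝ) < 1 / (2 * K) by positivity)
    filter_upwards [h4] with k hk
    have h5 : (H k : ℝ) ≤ ((2 ^ k : ℕ) : ℝ) := by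
      simp only [hH]
      push_cast
      rw [one_div_pow, mul_one_div, div_le_div_iff₀ (by positivity) (by positivity), one_mul] at hk
      have hpow : (2 : ℝ) ^ (k + 1) = 2 * 2 ^ k := by ring
      rw [hpow] at hk
      linarith
    exact_mod_cast h5
  set m : ℕ → ℝ := fun k => (2 : ℝ) ^ k / (2 * K * ((k : ℝ) + 1) ^ 2) * (1 / 4 * (1 / ((2 : ℝ) ^ (k + 1)) ^ σ)) with hm
  have hm0 : ∀ k, 0 < m k := fun k => by
    simp only [hm]
    positivity
  have hprob : ∀ᶠ k : ℕ in atTop,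
      μ {ω | ∑ j ∈ range (J k), (E (nn k j)).indicator (fun _ => (1 : ℝ)) ω < m k / 2} ≤
        ENNReal.ofReal (1 / (m k / 4)) := by
    filter_upwards [hk0, hk1] with k e1 e2
    apply second_half (range (J k)) (fun j => E (nn k j)) (fun j => hE _) ?_ (hm0 k) ?_
    · have key : ∀ i ∈ range (J k), ∀ j, i < j → μ (E (nn k i) ∩ E (nn k j)) ≤ μ (E (nn k i)) * μ (E (nn k j)) := by
        intro i hi j hij
        apply hc
        have h1 := (hn₀ (nn k i) (by simp only [hnn]; omega)).1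
        have h2 : h (nn k i) ≤ H k := by
          have h3 : (h (nn k i) : ℝ) ≤ H k := by
            refine h1.trans ?_
            have h4 : (1 : ℝ) ≤ (nn k i : ℕ) := by
              exact_mod_cast (hn₀ (nn k i) (by simp only [hnn]; omega)).2.2
            have h5 : (nn k i : ℝ) ≤ (2 : ℝ) ^ (k + 1) := by exact_mod_cast (hnlt k i hi).le
            have h6 : Real.log (nn k i) ≤ (k : ℝ) + 1 := by
              have h7 : Real.log (nn k i) ≤ Real.log ((2 : ℝ) ^ (k + 1)) := Real.log_le_log (by linarith) h5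
              rw [Real.log_pow] at h7
              have h8 := Real.log_two_lt_d9
              push_cast at h7
              nlinarith
            have h7 : 0 ≤ Real.log (nn k i) := Real.log_nonneg h4
            simp only [hH]
            push_cast
            calc C * Real.log (nn k i) ^ 2 ≤ K * ((k : ℝ) + 1) ^ 2 := by gcongr
              _ = _ := by ring
          exact_mod_cast h3
        have h3 : (i + 1) * H k ≤ j * H k := Nat.mul_le_mul_right _ hij
        have h4 : nn k i + h (nn k i) ≤ nn k i + H k := by omega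
        refine h4.trans ?_
        simp only [hnn]
        nlinarith
      intro i hi j hj hij
      rcases lt_or_gt_of_ne hij with h1 | h1
      · exact key i hi j h1
      · rw [Set.inter_comm, mul_comm]
        exact key j hj i h1
    · have h1 : ∀ j ∈ range (J k), 1 / 4 * (1 / ((2 : ℝ) ^ (k + 1)) ^ σ) ≤ (μ (E (nn k j))).toReal := by
        intro j hj
        have h2 := (hn₀ (nn k j) (by simp only [hnn]; omega)).2.1
        have h4 : (1 : ℝ) ≤ (nn k j : ℕ) := by
          exact_mod_cast (hn₀ (nn k j) (by simp only [hnn]; omega)).2.2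
        refine le_trans ?_ h2
        have h5 : (nn k j : ℝ) ≤ (2 : ℝ) ^ (k + 1) := by exact_mod_cast (hnlt k j hj).le
        have h6 : (0 : ℝ) < (nn k j : ℝ) ^ σ := by positivity
        gcongr
      have h2 := Finset.card_nsmul_le_sum _ _ _ h1
      rw [nsmul_eq_mul, Finset.card_range] at h2
      refine le_trans ?_ h2
      simp only [hm]
      have h3 : (2 : ℝ) ^ k / (2 * K * ((k : ℝ) + 1) ^ 2) ≤ (J k : ℝ) := by
        rw [div_le_iff₀ (by positivity)]
        have h4 : 1 ≤ J k := (Nat.one_le_div_iff (hHpos k)).2 e2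
        have h5 : 2 ^ k < (J k + 1) * H k := by
          have := Nat.lt_mul_div_succ (2 ^ k) (hHpos k)
          rw [mul_comm]
          exact this
        have h6 : 2 ^ k ≤ J k * (2 * H k) := by nlinarith [hHpos k]
        have h7 : ((2 ^ k : ℕ) : ℝ) ≤ ((J k * (2 * H k) : ℕ) : ℝ) := by exact_mod_cast h6
        simp only [hH] at h7
        push_cast at h7
        linarith
      gcongr
  have hsum : Summable fun k => 1 / (m k / 4) := by
    refine ((summable_block hσ K).mul_left 4).congr fun k => ?_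
    change 4 * (1 / m k) = 1 / (m k / 4)
    have := hm0 k
    field_simp
  have h2 := bc_tail' hprob hsum
  -- comparison with a power
  set r : ℝ := (2 : ℝ) ^ (σ - τ) with hr
  have hr0 : 0 < r := by positivity
  have hr1 : r < 1 := Real.rpow_lt_one_of_one_lt_of_neg (by norm_num) (by linarith)
  have hcmp : ∀ᶠ k : ℕ in atTop, (2 : ℝ) ^ ((k : ℝ) * (1 - τ)) ≤ m k / 2 := by
    filter_upwards [pow_small hr0.le hr1 (show (0 : ℝ) < 1 / (16 * K * 2 ^ τ) by positivity)] with k hk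
    rw [le_div_iff₀ (by positivity)] at hk
    have e1 : r ^ (k + 1) = ((2 : ℝ) ^ (k + 1)) ^ σ / ((2 : ℝ) ^ ((k : ℝ) * τ) * 2 ^ τ) := by
      rw [hr, ← Real.rpow_natCast ((2 : ℝ) ^ (σ - τ)), ← Real.rpow_natCast (2 : ℝ) (k + 1), ← Real.rpow_mul (by norm_num),
        ← Real.rpow_mul (by norm_num), ← Real.rpow_add (by norm_num), ← Real.rpow_sub (by norm_num)]
      congr 1
      push_cast
      ring
    have e2 : (2 : ℝ) ^ ((k : ℝ) * (1 - τ)) = 2 ^ k / (2 : ℝ) ^ ((k : ℝ) * τ) := by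
      rw [← Real.rpow_natCast (2 : ℝ) k, ← Real.rpow_sub (by norm_num)]
      congr 1
      ring
    rw [e1] at hk
    rw [e2]
    have p1 : (0 : ℝ) < (2 : ℝ) ^ ((k : ℝ) * τ) := by positivity
    have p2 : (0 : ℝ) < (2 : ℝ) ^ τ := by positivity
    have p3 : (0 : ℝ) < ((2 : ℝ) ^ (k + 1)) ^ σ := by positivity
    have p4 : (0 : ℝ) < 2 ^ k := by positivity
    have e3 : ((k : ℝ) + 1) ^ 2 * (((2 : ℝ) ^ (k + 1)) ^ σ / ((2 : ℝ) ^ ((k : ℝ) * τ) * 2 ^ τ)) * (16 * K * 2 ^ τ) =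
        16 * K * ((k : ℝ) + 1) ^ 2 * ((2 : ℝ) ^ (k + 1)) ^ σ / (2 : ℝ) ^ ((k : ℝ) * τ) := by
      field_simp
    rw [e3, div_le_one p1] at hk
    have e4 : m k / 2 = 2 ^ k / (16 * K * ((k : ℝ) + 1) ^ 2 * ((2 : ℝ) ^ (k + 1)) ^ σ) := by
      simp only [hm]
      field_simp
      norm_num
    rw [e4]
    gcongr
  filter_upwards [ae_eventually_notMem h2] with ω hω
  filter_upwards [hω, hcmp] with k h3 h4
  rw [not_lt] at h3
  refine h4.trans (h3.trans ?_)
  have h5 : ∑ j ∈ range (J k), (E (nn k j)).indicator (fun _ => (1 : ℝ)) ω =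
      (((range (J k)).filter (fun j => ω ∈ E (nn k j))).card : ℝ) := by
    rw [Finset.card_filter]
    push_cast
    refine Finset.sum_congr rfl fun j _ => ?_
    by_cases hj : ω ∈ E (nn k j) <;> simp [hj]
  rw [h5]
  have h6 : ((range (J k)).filter (fun j => ω ∈ E (nn k j))).card ≤ blk {n | ω ∈ E n} k := by
    unfold blk
    apply Finset.card_le_card_of_injOn (fun j => nn k j)
    · intro j hj
      simp only [Finset.coe_filter, Finset.mem_range, Set.mem_ofPred_eq] at hj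
      simp only [Finset.coe_filter, Finset.mem_Ico, Set.mem_ofPred_eq]
      refine ⟨⟨?_, hnlt k j (Finset.mem_range.2 hj.1)⟩, hj.2⟩
      simp only [hnn]
      omega
    · intro i _ j _ hij
      simp only [hnn, Nat.add_left_cancel_iff] at hij
      exact Nat.eq_of_mul_eq_mul_right (hHpos k) hij
  exact_mod_cast h6

/-- few events in all late blocks -/
theorem blk_up [IsProbabilityMeasure μ] {E : ℕ → Set Ω} (hE : ∀ n, MeasurableSet (E n)) {s τ C : ℝ} (hs0 : 0 ≤ s)
    (hC : 0 < C) (hτ : τ < s) (hp : ∀ᶠ n : ℕ in atTop, μ.real (E n) ≤ C * (1 / (n : ℝ) ^ s)) :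
    ∀ᵐ ω ∂μ, ∀ᶠ k : ℕ in atTop, (blk {n | ω ∈ E n} k : ℝ) ≤ (2 : ℝ) ^ ((k : ℝ) * (1 - τ)) := by
  classical
  obtain ⟨n₀, hn₀⟩ := eventually_atTop.1 hp
  have hk0 : ∀ᶠ k : ℕ in atTop, n₀ ≤ 2 ^ k := by
    filter_upwards [eventually_ge_atTop n₀] with k hk
    exact hk.trans Nat.lt_two_pow_self.le
  set r : ℝ := (2 : ℝ) ^ (τ - s) with hr
  have hr0 : 0 < r := by positivity
  have hr1 : r < 1 := Real.rpow_lt_one_of_one_lt_of_neg (by norm_num) (by linarith)
  have hblk : ∀ k ω, (blk {n | ω ∈ E n} k : ℝ) =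
      ∑ n ∈ Ico (2 ^ k) (2 ^ (k + 1)), (E n).indicator (fun _ => (1 : ℝ)) ω := by
    intro k ω
    unfold blk
    rw [Finset.card_filter]
    push_cast
    refine Finset.sum_congr rfl fun n _ => ?_
    by_cases h : ω ∈ E n <;> simp [h]
  have hint : ∀ n, Integrable ((E n).indicator (fun _ => (1 : ℝ))) μ := fun n =>
    (integrable_const (1 : ℝ)).indicator (hE n)
  have hprob : ∀ᶠ k : ℕ in atTop, μ {ω | (2 : ℝ) ^ ((k : ℝ) * (1 - τ)) ≤ blk {n | ω ∈ E n} k} ≤
      ENNReal.ofReal (1 / (1 / (C * r ^ k))) := by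
    filter_upwards [hk0] with k hk
    have e0 : (0 : ℝ) < (2 : ℝ) ^ ((k : ℝ) * (1 - τ)) := by positivity
    have g1 := mul_meas_ge_le_integral_of_nonneg (μ := μ) (f := fun ω => (blk {n | ω ∈ E n} k : ℝ))
      (Eventually.of_forall fun ω => Nat.cast_nonneg _) (by
        simp only [hblk]
        exact integrable_finsetSum _ fun n _ => hint n) ((2 : ℝ) ^ ((k : ℝ) * (1 - τ)))
    have g2 : ∫ ω, (blk {n | ω ∈ E n} k : ℝ) ∂μ ≤ 2 ^ k * (C * (1 / ((2 : ℝ) ^ k) ^ s)) := by
      simp only [hblk]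
      rw [integral_finsetSum _ (fun n _ => hint n)]
      have g3 : ∀ n ∈ Ico (2 ^ k) (2 ^ (k + 1)), ∫ ω, (E n).indicator (fun _ => (1 : ℝ)) ω ∂μ ≤
          C * (1 / ((2 : ℝ) ^ k) ^ s) := by
        intro n hn
        rw [Finset.mem_Ico] at hn
        rw [integral_indicator_const _ (hE n), smul_eq_mul, mul_one]
        refine (hn₀ n (hk.trans hn.1)).trans ?_
        have h1 : (2 : ℝ) ^ k ≤ n := by exact_mod_cast hn.1
        gcongr
      have g4 := Finset.sum_le_card_nsmul _ _ _ g3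
      rw [nsmul_eq_mul, Nat.card_Ico] at g4
      have g5 : 2 ^ (k + 1) - 2 ^ k = 2 ^ k := by
        rw [pow_succ]
        omega
      rw [g5] at g4
      push_cast at g4
      exact g4
    have g3 : μ.real {ω | (2 : ℝ) ^ ((k : ℝ) * (1 - τ)) ≤ blk {n | ω ∈ E n} k} ≤ C * r ^ k := by
      have g4 := g1.trans g2
      have e1 : r ^ k * (2 : ℝ) ^ ((k : ℝ) * (1 - τ)) = 2 ^ k * (1 / ((2 : ℝ) ^ k) ^ s) := by
        rw [hr, ← Real.rpow_natCast ((2 : ℝ) ^ (τ - s)), ← Real.rpow_natCast (2 : ℝ) k, ← Real.rpow_mul (by norm_num),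
          ← Real.rpow_mul (by norm_num), ← Real.rpow_add (by norm_num), mul_one_div,
          ← Real.rpow_sub (by norm_num)]
        congr 1
        ring
      have e2 : 2 ^ k * (C * (1 / ((2 : ℝ) ^ k) ^ s)) = (2 : ℝ) ^ ((k : ℝ) * (1 - τ)) * (C * r ^ k) := by
        calc 2 ^ k * (C * (1 / ((2 : ℝ) ^ k) ^ s)) = C * (2 ^ k * (1 / ((2 : ℝ) ^ k) ^ s)) := by ring
          _ = C * (r ^ k * (2 : ℝ) ^ ((k : ℝ) * (1 - τ))) := by rw [e1]
          _ = _ := by ring
      rw [e2] at g4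
      exact le_of_mul_le_mul_left g4 e0
    rw [one_div_one_div, ← ofReal_measureReal]
    exact ENNReal.ofReal_le_ofReal g3
  have hsum : Summable fun k : ℕ => 1 / (1 / (C * r ^ k)) := by
    simp only [one_div_one_div]
    exact (summable_geometric_of_lt_one hr0.le hr1).mul_left C
  filter_upwards [ae_eventually_notMem (bc_tail' hprob hsum)] with ω hω
  filter_upwards [hω] with k hk
  rw [not_le] at hk
  exact hk.le

end Pool.Agent.Q268.XL
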