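import Mathlib
import Pool.Agent.Q268.XL.Blk

/-!
The number of exceptional places up to `N`.
-/

set_option autoImplicit false

namespace Pool.Agent.Q268.XL

open Filter Finset MeasureTheory ProbabilityTheory
open Pool.Agent.Q268.DP Pool.Agent.Q268.DL
open scoped ENNReal Topology

/-- the number of elements of `B` up to `N` -/
noncomputable def cnt (B : Set ℕ) (N : ℕ) : ℕ := by
  classical
  exact ((range (N + 1)).filter (fun n => n ∈ B)).card

theorem cnt_low {B : Set ℕ} {β₁ : ℝ} (h : ∀ᶠ k : ℕ in atTop, (2 : ℝ) ^ ((k : ℝ) * β₁) ≤ blk B k) {β₀ : ℝ}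
    (h0 : 0 ≤ β₀) (h01 : β₀ < β₁) : ∀ᶠ N : ℕ in atTop, (N : ℝ) ^ β₀ ≤ cnt B N := by
  classical
  obtain ⟨k₀, hk₀⟩ := eventually_atTop.1 (h.and (eventually_ge_atTop ⌈2 * (β₀ + β₁) / (β₁ - β₀)⌉₊))
  filter_upwards [eventually_ge_atTop (2 ^ (k₀ + 1))] with N hN
  have hN0 : N ≠ 0 := by
    have : 0 < 2 ^ (k₀ + 1) := by positivity
    omega
  set K := Nat.log 2 N with hK
  have hK1 : k₀ + 1 ≤ K := (Nat.le_log_iff_pow_le (by norm_num) hN0).2 hN
  have hK2 : N < 2 ^ (K + 1) := Nat.lt_pow_succ_log_self (by norm_num) N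
  have hK3 : 2 ^ K ≤ N := Nat.pow_log_le_self 2 hN0
  obtain ⟨e1, e2⟩ := hk₀ (K - 1) (by omega)
  have hcast : ((K - 1 : ℕ) : ℝ) = (K : ℝ) - 1 := by
    rw [Nat.cast_sub (by omega)]
    simp
  have hle : blk B (K - 1) ≤ cnt B N := by
    unfold blk cnt
    apply Finset.card_le_card
    intro n hn
    rw [Finset.mem_filter, Finset.mem_Ico] at hn
    rw [Finset.mem_filter, Finset.mem_range]
    refine ⟨?_, hn.2⟩
    have h1 := hn.1.2
    rw [show K - 1 + 1 = K by omega] at h1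
    omega
  have h2 : (N : ℝ) ^ β₀ ≤ ((2 : ℝ) ^ ((K : ℝ) + 1)) ^ β₀ := by
    apply Real.rpow_le_rpow (Nat.cast_nonneg N) _ h0
    have h3 : (N : ℝ) ≤ ((2 ^ (K + 1) : ℕ) : ℝ) := by exact_mod_cast hK2.le
    have h4 : ((2 ^ (K + 1) : ℕ) : ℝ) = (2 : ℝ) ^ ((K : ℝ) + 1) := by
      push_cast
      rw [← Real.rpow_natCast]
      push_cast
      rfl
    rwa [h4] at h3
  refine h2.trans ?_
  rw [← Real.rpow_mul (by norm_num)]
  have h3 : (2 : ℝ) ^ (((K : ℝ) + 1) * β₀) ≤ (2 : ℝ) ^ (((K - 1 : ℕ) : ℝ) * β₁) := by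
    apply Real.rpow_le_rpow_of_exponent_le (by norm_num)
    have h4 : 2 * (β₀ + β₁) / (β₁ - β₀) ≤ ((K - 1 : ℕ) : ℝ) :=
      (Nat.le_ceil _).trans (by exact_mod_cast e2)
    rw [div_le_iff₀ (by linarith), hcast] at h4
    rw [hcast]
    nlinarith
  refine h3.trans (e1.trans ?_)
  exact_mod_cast hle

theorem cnt_up {B : Set ℕ} {β₂ : ℝ} (h2 : 0 ≤ β₂) (h : ∀ᶠ k : ℕ in atTop, (blk B k : ℝ) ≤ (2 : ℝ) ^ ((k : ℝ) * β₂))
    {β₃ : ℝ} (h23 : β₂ < β₃) : ∀ᶠ N : ℕ in atTop, (cnt B N : ℝ) ≤ (N : ℝ) ^ β₃ := by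
  classical
  obtain ⟨k₀, hk₀⟩ := eventually_atTop.1 h
  have hg : 0 < β₃ - β₂ := by linarith
  have g1 := ((tendsto_rpow_atTop hg).comp (tendsto_natCast_atTop_atTop (R := ℝ))).eventually
    (loggrow ((2 ^ k₀ + 3) / (β₃ - β₂)) 1 one_pos)
  filter_upwards [g1, hlogN'.eventually_ge_atTop 1, eventually_ge_atTop (max 1 (2 ^ k₀))] with N g1 g2 hN
  have hN1 : 1 ≤ N := (le_max_left _ _).trans hN
  have hN2 : 2 ^ k₀ ≤ N := (le_max_right _ _).trans hN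
  have hN0 : N ≠ 0 := by omega
  have hNr : (1 : ℝ) ≤ N := by exact_mod_cast hN1
  have hNpos : (0 : ℝ) < N := by linarith
  simp only [Function.comp_apply] at g1
  rw [Real.log_rpow hNpos, Real.rpow_one, one_mul] at g1
  have g3 : (2 ^ k₀ + 3) * Real.log N ≤ (N : ℝ) ^ (β₃ - β₂) := by
    refine le_trans (le_of_eq ?_) g1
    field_simp
  set K := Nat.log 2 N with hK
  have hK3 : 2 ^ K ≤ N := Nat.pow_log_le_self 2 hN0
  have hsub : (range (N + 1)).filter (fun n => n ∈ B) ⊆ (range (2 ^ k₀)) ∪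
      ((Icc k₀ K).biUnion fun k => (Ico (2 ^ k) (2 ^ (k + 1))).filter (fun n => n ∈ B)) := by
    intro n hn
    rw [Finset.mem_filter, Finset.mem_range] at hn
    rw [Finset.mem_union, Finset.mem_range, Finset.mem_biUnion]
    by_cases h1 : n < 2 ^ k₀
    · left
      exact h1
    · right
      push Not at h1
      have hn0 : n ≠ 0 := by
        have : 0 < 2 ^ k₀ := by positivity
        omega
      refine ⟨Nat.log 2 n, ?_, ?_⟩
      · rw [Finset.mem_Icc]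
        exact ⟨(Nat.le_log_iff_pow_le (by norm_num) hn0).2 h1, Nat.log_mono_right (by omega)⟩
      · rw [Finset.mem_filter, Finset.mem_Ico]
        exact ⟨⟨Nat.pow_log_le_self 2 hn0, Nat.lt_pow_succ_log_self (by norm_num) n⟩, hn.2⟩
  have hcard : cnt B N ≤ 2 ^ k₀ + ∑ k ∈ Icc k₀ K, blk B k := by
    unfold cnt
    refine (Finset.card_le_card hsub).trans ((Finset.card_union_le _ _).trans ?_)
    rw [Finset.card_range]
    refine Nat.add_le_add_left (Finset.card_biUnion_le.trans (le_of_eq ?_)) _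
    exact Finset.sum_congr rfl fun k _ => by unfold blk; rfl
  have hsum : (∑ k ∈ Icc k₀ K, (blk B k : ℝ)) ≤ ((K : ℝ) + 1) * (N : ℝ) ^ β₂ := by
    have h1 : ∀ k ∈ Icc k₀ K, (blk B k : ℝ) ≤ (N : ℝ) ^ β₂ := by
      intro k hk
      rw [Finset.mem_Icc] at hk
      refine (hk₀ k hk.1).trans ?_
      rw [Real.rpow_mul (by norm_num)]
      apply Real.rpow_le_rpow (by positivity) _ h2
      rw [Real.rpow_natCast]
      have h3 : 2 ^ k ≤ N := (Nat.pow_le_pow_right (by norm_num) hk.2).trans hK3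
      exact_mod_cast h3
    have h3 := Finset.sum_le_card_nsmul _ _ _ h1
    rw [nsmul_eq_mul] at h3
    refine h3.trans ?_
    have h4 : ((Icc k₀ K).card : ℝ) ≤ (K : ℝ) + 1 := by
      rw [Nat.card_Icc]
      have : K + 1 - k₀ ≤ K + 1 := Nat.sub_le _ _
      exact_mod_cast this
    gcongr
  have hKlog : (K : ℝ) ≤ 2 * Real.log N := by
    have h1 : (2 : ℝ) ^ K ≤ N := by exact_mod_cast hK3
    have h3 := Real.log_le_log (by positivity) h1
    rw [Real.log_pow] at h3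
    have h4 := Real.log_two_gt_d9
    have h5 : (0 : ℝ) ≤ K := Nat.cast_nonneg K
    nlinarith
  have hc : (cnt B N : ℝ) ≤ 2 ^ k₀ + ((K : ℝ) + 1) * (N : ℝ) ^ β₂ := by
    have h1 : (cnt B N : ℝ) ≤ ((2 ^ k₀ + ∑ k ∈ Icc k₀ K, blk B k : ℕ) : ℝ) := by exact_mod_cast hcard
    push_cast at h1
    linarith
  have hone : (1 : ℝ) ≤ (N : ℝ) ^ β₂ := Real.one_le_rpow hNr h2
  have hsplit : (N : ℝ) ^ β₃ = (N : ℝ) ^ (β₃ - β₂) * (N : ℝ) ^ β₂ := by
    rw [← Real.rpow_add hNpos]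
    congr 1
    ring
  rw [hsplit]
  refine hc.trans ?_
  have h5 : (2 : ℝ) ^ k₀ + ((K : ℝ) + 1) * (N : ℝ) ^ β₂ ≤ ((2 ^ k₀ + 3) * Real.log N) * (N : ℝ) ^ β₂ := by
    have h6 : (0 : ℝ) < 2 ^ k₀ := by positivity
    have h7 : (2 : ℝ) ^ k₀ ≤ (2 ^ k₀ * Real.log N) * (N : ℝ) ^ β₂ := by
      calc (2 : ℝ) ^ k₀ = 2 ^ k₀ * 1 * 1 := by ring
        _ ≤ 2 ^ k₀ * Real.log N * (N : ℝ) ^ β₂ := by gcongr
    have h8 : ((K : ℝ) + 1) * (N : ℝ) ^ β₂ ≤ (3 * Real.log N) * (N : ℝ) ^ β₂ := by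
      gcongr
      linarith
    calc (2 : ℝ) ^ k₀ + ((K : ℝ) + 1) * (N : ℝ) ^ β₂
        ≤ (2 ^ k₀ * Real.log N) * (N : ℝ) ^ β₂ + (3 * Real.log N) * (N : ℝ) ^ β₂ := add_le_add h7 h8
      _ = _ := by ring
  refine h5.trans ?_
  gcongr

/-- the block law for rational parameters -/
def IE (S : Set ℕ) (a u τ : ℝ) : Prop :=
  (1 < u → a * ff u < τ → ∀ᶠ k : ℕ in atTop, (2 : ℝ) ^ ((k : ℝ) * (1 - τ)) ≤
    blk {n | u * (a * Real.log n) < cw S n ⌊a * Real.log n ^ 2⌋₊} k) ∧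
  (u < 1 → a * ff u < τ → ∀ᶠ k : ℕ in atTop, (2 : ℝ) ^ ((k : ℝ) * (1 - τ)) ≤
    blk {n | (cw S n ⌊a * Real.log n ^ 2⌋₊ : ℝ) < u * (a * Real.log n)} k) ∧
  (1 < u → τ < a * ff u → ∀ᶠ k : ℕ in atTop,
    (blk {n | u * ((⌊a * Real.log n ^ 2⌋₊ : ℝ) / Real.log n) ≤ cw S n ⌊a * Real.log n ^ 2⌋₊} k : ℝ) ≤
      (2 : ℝ) ^ ((k : ℝ) * (1 - τ))) ∧
  (u < 1 → τ < a * ff u → ∀ᶠ k : ℕ in atTop,
    (blk {n | (cw S n ⌊a * Real.log n ^ 2⌋₊ : ℝ) ≤ u * ((⌊a * Real.log n ^ 2⌋₊ : ℝ) / Real.log n)} k : ℝ) ≤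
      (2 : ℝ) ^ ((k : ℝ) * (1 - τ)))

variable {Ω : Type} [MeasurableSpace Ω] {μ : Measure Ω} {X : ℕ → Ω → ℕ} {D : ℕ → ℕ}

theorem floor_bd {a : ℝ} (ha : 0 < a) : ∀ᶠ n : ℕ in atTop, (⌊a * Real.log n ^ 2⌋₊ : ℝ) ≤ (a + 1) * Real.log n ^ 2 ∧
    ⌊a * Real.log n ^ 2⌋₊ ≤ 3 * n := by
  have g1 := tendsto_natCast_atTop_atTop (R := ℝ) |>.eventually (loggrow a 2 one_pos)
  filter_upwards [g1] with n g1
  have e0 : (Real.log n : ℝ) ^ (2 : ℝ) = Real.log n ^ 2 := by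
    rw [← Real.rpow_natCast]
    norm_num
  rw [e0, one_mul] at g1
  have h1 := Nat.floor_le (show 0 ≤ a * Real.log n ^ 2 by positivity)
  refine ⟨by nlinarith [sq_nonneg (Real.log n)], ?_⟩
  have h2 : (⌊a * Real.log n ^ 2⌋₊ : ℝ) ≤ ((3 * n : ℕ) : ℝ) := by
    push_cast
    have : (0 : ℝ) ≤ n := Nat.cast_nonneg n
    linarith
  exact_mod_cast h2

/-- from the tail bounds with the length of the window to powers of `n` -/
theorem to_pow {E : ℕ → ℕ → Set Ω} {a c : ℝ} (ha : 0 < a) (hc : 0 < c)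
    (hp : ∀ᶠ n : ℕ in atTop, ∀ h : ℕ, h ≤ 3 * n → μ.real (E n h) ≤ Real.exp (-(c * (h / Real.log n)))) :
    ∀ᶠ n : ℕ in atTop, μ.real (E n ⌊a * Real.log n ^ 2⌋₊) ≤ Real.exp c * (1 / (n : ℝ) ^ (a * c)) := by
  filter_upwards [hp, floor_bd ha, hlogN'.eventually_ge_atTop 1, eventually_gt_atTop 0] with n h1 h2 h3 h4
  refine (h1 _ h2.2).trans ?_
  rw [← exp_log_pow h4, ← Real.exp_add]
  apply Real.exp_le_exp.2
  have hl0 : 0 < Real.log n := by linarith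
  have h5 := floor_near ha n
  rw [abs_le] at h5
  have h6 : a * Real.log n - 1 ≤ (⌊a * Real.log n ^ 2⌋₊ : ℝ) / Real.log n := by
    rw [le_div_iff₀ hl0]
    nlinarith [h5.1]
  nlinarith

theorem ie_ae (hX : Disp μ X D) (hs : Tendsto (fun q : ℕ => (D q : ℝ) / q) atTop (𝓝 0))
    (h4 : ∀ᶠ q : ℕ in atTop, Real.log q ^ 4 ≤ D q)
    (hP : Tendsto (fun m : ℕ => dn D m * Real.log m) atTop (𝓝 1)) :
    ∀ᵐ ω ∂μ, ∀ a u τ : ℚ, 0 < a → 0 < u → 0 < τ → τ < 1 → IE (moved Nat.Prime X ω) a u τ := by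
  have hPr : IsProbabilityMeasure μ := hX.indep.isProbabilityMeasure
  rw [ae_all_iff]
  intro a
  rw [ae_all_iff]
  intro u
  rw [ae_all_iff]
  intro τ
  by_cases hall : 0 < a ∧ 0 < u ∧ 0 < τ ∧ τ < 1
  · obtain ⟨ha, hu, hτ0, hτ1⟩ := hall
    have ha' : (0 : ℝ) < a := by exact_mod_cast ha
    have hu' : (0 : ℝ) < u := by exact_mod_cast hu
    have hτ0' : (0 : ℝ) < τ := by exact_mod_cast hτ0
    have hτ1' : (τ : ℝ) < 1 := by exact_mod_cast hτ1
    have hh : ∀ n : ℕ, |(⌊(a : ℝ) * Real.log n ^ 2⌋₊ : ℝ) - a * Real.log n ^ 2| ≤ 1 := floor_near ha'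
    have hlen : ∀ᶠ n : ℕ in atTop, (⌊(a : ℝ) * Real.log n ^ 2⌋₊ : ℝ) ≤ (a + 1) * Real.log n ^ 2 :=
      (floor_bd ha').mono fun n h => h.1
    have hm1 : ∀ (n : ℕ) (t : ℝ), 0 ≤ t → MeasurableSet {ω | t < cw (moved Nat.Prime X ω) n ⌊(a : ℝ) * Real.log n ^ 2⌋₊} := by
      intro n t ht
      have e : {ω | t < cw (moved Nat.Prime X ω) n ⌊(a : ℝ) * Real.log n ^ 2⌋₊} =
          {ω | ⌊t⌋₊ + 1 ≤ cn (moved Nat.Prime X ω) (Ioc n (n + ⌊(a : ℝ) * Real.log n ^ 2⌋₊))} := by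
        ext ω
        exact lt_iff_nat ht _
      rw [e]
      exact meas_ge hX _ _ _
    have hmeas : ∀ n : ℕ, Measurable (fun ω => (cw (moved Nat.Prime X ω) n ⌊(a : ℝ) * Real.log n ^ 2⌋₊ : ℝ)) :=
      fun n => meas_cn hX Nat.Prime _
    have A1 : ∀ᵐ ω ∂μ, (1 : ℝ) < u → (a : ℝ) * ff u < τ → ∀ᶠ k : ℕ in atTop, (2 : ℝ) ^ ((k : ℝ) * (1 - τ)) ≤
        blk {n | (u : ℝ) * (a * Real.log n) < cw (moved Nat.Prime X ω) n ⌊(a : ℝ) * Real.log n ^ 2⌋₊} k := by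
      by_cases h1 : (1 : ℝ) < u
      · by_cases h2 : (a : ℝ) * ff u < τ
        · obtain ⟨σ, s0, s1, hp⟩ := prob_up hX hs h4 hP ha' zero_le_one
            (h := fun n => ⌊(a : ℝ) * Real.log n ^ 2⌋₊) hh h1 h2
          have hE : ∀ n : ℕ, {ω | (u : ℝ) * (a * Real.log n) < cw (moved Nat.Prime X ω) n ⌊(a : ℝ) * Real.log n ^ 2⌋₊} =
              {ω | ⌊(u : ℝ) * (a * Real.log n)⌋₊ + 1 ≤
                cn (moved Nat.Prime X ω) (Ioc n (n + ⌊(a : ℝ) * Real.log n ^ 2⌋₊))} := by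
            intro n
            ext ω
            have : 0 ≤ (u : ℝ) * (a * Real.log n) := by
              have := Real.log_natCast_nonneg n
              positivity
            exact lt_iff_nat this _
          have key := blocks_count (E := fun n => {ω | (u : ℝ) * (a * Real.log n) <
              cw (moved Nat.Prime X ω) n ⌊(a : ℝ) * Real.log n ^ 2⌋₊}) (h := fun n => ⌊(a : ℝ) * Real.log n ^ 2⌋₊)
            (C := (a : ℝ) + 1) (μ := μ) (τ := (τ : ℝ)) (by positivity)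
            (fun n => measurableSet_lt measurable_const (hmeas n)) (by
              intro m n hmn
              rw [hE m, hE n]
              exact neg_ge hX _ (disj_win hmn) _ _) hlen s0 s1 hτ1'.le hp
          filter_upwards [key] with ω hω _ _
          exact hω
        · exact Eventually.of_forall fun ω _ h => absurd h h2
      · exact Eventually.of_forall fun ω h => absurd h h1
    have A2 : ∀ᵐ ω ∂μ, (u : ℝ) < 1 → (a : ℝ) * ff u < τ → ∀ᶠ k : ℕ in atTop, (2 : ℝ) ^ ((k : ℝ) * (1 - τ)) ≤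
        blk {n | (cw (moved Nat.Prime X ω) n ⌊(a : ℝ) * Real.log n ^ 2⌋₊ : ℝ) < (u : ℝ) * (a * Real.log n)} k := by
      by_cases h2 : (a : ℝ) * ff u < τ
      · obtain ⟨σ, s0, s1, hp⟩ := prob_low hX hs h4 hP ha' zero_le_one
          (h := fun n => ⌊(a : ℝ) * Real.log n ^ 2⌋₊) hh hu' h2
        have hE : ∀ n : ℕ, {ω | (cw (moved Nat.Prime X ω) n ⌊(a : ℝ) * Real.log n ^ 2⌋₊ : ℝ) < (u : ℝ) * (a * Real.log n)} =
            {ω | cn (moved Nat.Prime X ω) (Ioc n (n + ⌊(a : ℝ) * Real.log n ^ 2⌋₊)) < ⌈(u : ℝ) * (a * Real.log n)⌉₊} := by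
          intro n
          ext ω
          exact lt_iff_nat' _
        have key := blocks_count (E := fun n => {ω | (cw (moved Nat.Prime X ω) n ⌊(a : ℝ) * Real.log n ^ 2⌋₊ : ℝ) <
            (u : ℝ) * (a * Real.log n)}) (h := fun n => ⌊(a : ℝ) * Real.log n ^ 2⌋₊)
          (C := (a : ℝ) + 1) (μ := μ) (τ := (τ : ℝ)) (by positivity)
          (fun n => measurableSet_lt (hmeas n) measurable_const) (by
            intro m n hmn
            rw [hE m, hE n]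
            exact neg_lt hX _ (disj_win hmn) _ _) hlen s0 s1 hτ1'.le hp
        filter_upwards [key] with ω hω _ _
        exact hω
      · exact Eventually.of_forall fun ω _ h => absurd h h2
    -- a constant for the upper bounds
    have hcc : (τ : ℝ) < a * ff u → 0 < (ff u + τ / a) / 2 ∧ (ff u + τ / a) / 2 < ff u ∧ (τ : ℝ) < a * ((ff u + τ / a) / 2) := by
      intro h
      have h5 : (τ : ℝ) / a < ff u := by
        rw [div_lt_iff₀ ha']
        linarith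
      have h6 : 0 < (τ : ℝ) / a := by positivity
      have h7 : (a : ℝ) * (τ / a) = τ := by field_simp
      refine ⟨by linarith, by linarith, by nlinarith⟩
    have A3 : ∀ᵐ ω ∂μ, (1 : ℝ) < u → (τ : ℝ) < a * ff u → ∀ᶠ k : ℕ in atTop,
        (blk {n | (u : ℝ) * ((⌊(a : ℝ) * Real.log n ^ 2⌋₊ : ℝ) / Real.log n) ≤
          cw (moved Nat.Prime X ω) n ⌊(a : ℝ) * Real.log n ^ 2⌋₊} k : ℝ) ≤ (2 : ℝ) ^ ((k : ℝ) * (1 - τ)) := by
      by_cases h1 : (1 : ℝ) < u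
      · by_cases h2 : (τ : ℝ) < a * ff u
        · obtain ⟨c0, c1, c2⟩ := hcc h2
          have hp := to_pow (E := fun n h => {ω | (u : ℝ) * (h / Real.log n) ≤ cw (moved Nat.Prime X ω) n h}) ha' c0
            (tail_up hX hP h1 c1)
          have key := blk_up (E := fun n => {ω | (u : ℝ) * ((⌊(a : ℝ) * Real.log n ^ 2⌋₊ : ℝ) / Real.log n) ≤
            cw (moved Nat.Prime X ω) n ⌊(a : ℝ) * Real.log n ^ 2⌋₊})
            (fun n => measurableSet_le measurable_const (hmeas n)) (by positivity) (Real.exp_pos _) c2 hp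
          filter_upwards [key] with ω hω _ _
          exact hω
        · exact Eventually.of_forall fun ω _ h => absurd h h2
      · exact Eventually.of_forall fun ω h => absurd h h1
    have A4 : ∀ᵐ ω ∂μ, (u : ℝ) < 1 → (τ : ℝ) < a * ff u → ∀ᶠ k : ℕ in atTop,
        (blk {n | (cw (moved Nat.Prime X ω) n ⌊(a : ℝ) * Real.log n ^ 2⌋₊ : ℝ) ≤
          (u : ℝ) * ((⌊(a : ℝ) * Real.log n ^ 2⌋₊ : ℝ) / Real.log n)} k : ℝ) ≤ (2 : ℝ) ^ ((k : ℝ) * (1 - τ)) := by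
      by_cases h1 : (u : ℝ) < 1
      · by_cases h2 : (τ : ℝ) < a * ff u
        · obtain ⟨c0, c1, c2⟩ := hcc h2
          have hp := to_pow (E := fun n h => {ω | (cw (moved Nat.Prime X ω) n h : ℝ) ≤ (u : ℝ) * (h / Real.log n)}) ha' c0
            (tail_low hX hP hu' h1 c1)
          have key := blk_up (E := fun n => {ω | (cw (moved Nat.Prime X ω) n ⌊(a : ℝ) * Real.log n ^ 2⌋₊ : ℝ) ≤
            (u : ℝ) * ((⌊(a : ℝ) * Real.log n ^ 2⌋₊ : ℝ) / Real.log n)})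
            (fun n => measurableSet_le (hmeas n) measurable_const) (by positivity) (Real.exp_pos _) c2 hp
          filter_upwards [key] with ω hω _ _
          exact hω
        · exact Eventually.of_forall fun ω _ h => absurd h h2
      · exact Eventually.of_forall fun ω h => absurd h h1
    filter_upwards [A1, A2, A3, A4] with ω b1 b2 b3 b4 _ _ _ _
    exact ⟨b1, b2, b3, b4⟩
  · exact Eventually.of_forall fun ω h1 h2 h3 h4 => absurd ⟨h1, h2, h3, h4⟩ hall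

end Pool.Agent.Q268.XL
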