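import Mathlib
import Pool.Agent.Q268.XL.Exc

/-!
The exponents of the exceptional sets, all real parameters.
-/

set_option autoImplicit false

namespace Pool.Agent.Q268.XL

open Filter Finset MeasureTheory ProbabilityTheory
open Pool.Agent.Q268.DP Pool.Agent.Q268.DL
open scoped ENNReal Topology

/-- the number of exceptional places -/
def EX (S : Set ℕ) (a : ℝ) : Prop := ∀ u : ℝ, 0 < u → a * ff u < 1 → ∀ δ : ℝ, 0 < δ →
  (1 < u → ∀ᶠ N : ℕ in atTop, (N : ℝ) ^ (1 - a * ff u - δ) ≤ cnt {n : ℕ | u ≤ Ra S a n} N ∧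
    (cnt {n : ℕ | u ≤ Ra S a n} N : ℝ) ≤ (N : ℝ) ^ (1 - a * ff u + δ)) ∧
  (u < 1 → ∀ᶠ N : ℕ in atTop, (N : ℝ) ^ (1 - a * ff u - δ) ≤ cnt {n : ℕ | Ra S a n ≤ u} N ∧
    (cnt {n : ℕ | Ra S a n ≤ u} N : ℝ) ≤ (N : ℝ) ^ (1 - a * ff u + δ))

theorem block_start {p : ℕ → Prop} (h : ∀ᶠ n : ℕ in atTop, p n) : ∀ᶠ k : ℕ in atTop, ∀ n, 2 ^ k ≤ n → p n := by
  obtain ⟨n₀, hn₀⟩ := eventually_atTop.1 h
  filter_upwards [eventually_ge_atTop n₀] with k hk n hn
  exact hn₀ n ((hk.trans Nat.lt_two_pow_self.le).trans hn)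

theorem cnt_from_blocks {B : Set ℕ} {β δ τ₁ τ₂ : ℝ} (h1 : 0 ≤ 1 - τ₁) (h2 : 0 ≤ 1 - τ₂) (hτ1 : β - δ < 1 - τ₁)
    (hτ1' : 0 < 1 - τ₁) (hτ2 : 1 - τ₂ < β + δ)
    (hl : ∀ᶠ k : ℕ in atTop, (2 : ℝ) ^ ((k : ℝ) * (1 - τ₁)) ≤ blk B k)
    (hu : ∀ᶠ k : ℕ in atTop, (blk B k : ℝ) ≤ (2 : ℝ) ^ ((k : ℝ) * (1 - τ₂))) :
    ∀ᶠ N : ℕ in atTop, (N : ℝ) ^ (β - δ) ≤ cnt B N ∧ (cnt B N : ℝ) ≤ (N : ℝ) ^ (β + δ) := by
  have l := cnt_low hl (le_max_left 0 (β - δ)) (max_lt hτ1' hτ1)
  have r := cnt_up h2 hu hτ2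
  filter_upwards [l, r, eventually_ge_atTop 1] with N e1 e2 e3
  refine ⟨le_trans ?_ e1, e2⟩
  exact Real.rpow_le_rpow_of_exponent_le (by exact_mod_cast e3) (le_max_right _ _)

theorem ex_of_ie {S : Set ℕ} (H : ∀ a u τ : ℚ, 0 < a → 0 < u → 0 < τ → τ < 1 → IE S a u τ) {a : ℝ} (ha : 0 < a) :
    EX S a := by
  intro u hu0 hau δ hδ
  have contu : Tendsto (fun v => a * ff v) (𝓝 u) (𝓝 (a * ff u)) := (continuous_const.mul ff_cont).tendsto u
  have conta : ∀ v : ℝ, Tendsto (fun b : ℝ => b * ff v) (𝓝 a) (𝓝 (a * ff v)) := fun v =>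
    (continuous_id.mul continuous_const).tendsto a
  -- rational exponents on both sides
  have hex1 : ∃ τ : ℚ, a * ff u < τ ∧ (τ : ℝ) < 1 ∧ (τ : ℝ) < a * ff u + δ := by
    obtain ⟨τ, h1, h2⟩ := exists_rat_btwn (show a * ff u < min 1 (a * ff u + δ) from lt_min hau (by linarith))
    exact ⟨τ, h1, h2.trans_le (min_le_left _ _), h2.trans_le (min_le_right _ _)⟩
  have hex2 : 0 < a * ff u → ∃ τ : ℚ, (0 : ℝ) < τ ∧ (τ : ℝ) < a * ff u ∧ a * ff u - δ < τ := by
    intro hpos
    obtain ⟨τ, h1, h2⟩ := exists_rat_btwn (show max 0 (a * ff u - δ) < a * ff u from max_lt hpos (by linarith))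
    exact ⟨τ, (le_max_left _ _).trans_lt h1, h2, (le_max_right _ _).trans_lt h1⟩
  obtain ⟨τ₁, t1, t2, t3⟩ := hex1
  have hτ1pos : (0 : ℝ) < τ₁ := lt_of_le_of_lt (mul_nonneg ha.le (ff_nonneg hu0)) t1
  refine ⟨?_, ?_⟩
  · intro hu
    have hpos : 0 < a * ff u := mul_pos ha (ff_pos hu0 (by intro h; linarith))
    obtain ⟨τ₂, s1, s2, s3⟩ := hex2 hpos
    refine cnt_from_blocks (B := {n : ℕ | u ≤ Ra S a n}) (τ₁ := τ₁) (τ₂ := τ₂) (by linarith) (by linarith)
      (by linarith) (by linarith) (by linarith) ?_ ?_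
    · obtain ⟨v, v1, v3⟩ := right_rat (p := fun v => a * ff v < τ₁) (contu.eventually_lt_const t1)
      have hv0 : (0 : ℝ) < v := by linarith
      obtain ⟨b, b1, b2, b3⟩ := left_rat (u := a) (p := fun b => 0 < b ∧ a * u / v < b)
        ((eventually_gt_nhds ha).and (eventually_gt_nhds (by
          rw [div_lt_iff₀ hv0]
          nlinarith)))
      rw [div_lt_iff₀ hv0] at b3
      have hbf : (b : ℝ) * ff v < τ₁ := by
        have := ff_nonneg hv0
        nlinarith
      have h1 := (H b v τ₁ (by exact_mod_cast b2) (by exact_mod_cast hv0) (by exact_mod_cast hτ1pos)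
        (by exact_mod_cast t2)).1 (by linarith) hbf
      filter_upwards [h1, block_start (hlogN'.eventually_ge_atTop 1)] with k h2 h3
      refine h2.trans ?_
      have h4 : blk {n : ℕ | (v : ℝ) * (b * Real.log n) < cw S n ⌊(b : ℝ) * Real.log n ^ 2⌋₊} k ≤
          blk {n : ℕ | u ≤ Ra S a n} k := by
        apply blk_mono
        intro n hn h5
        have h6 := h3 n hn
        have hl : 0 < Real.log n := by linarith
        change (v : ℝ) * (b * Real.log n) < cw S n ⌊(b : ℝ) * Real.log n ^ 2⌋₊ at h5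
        change u ≤ Ra S a n
        rw [Ra_nat S ha, le_div_iff₀ (by positivity)]
        have h7 : (cw S n ⌊(b : ℝ) * Real.log n ^ 2⌋₊ : ℝ) ≤ cw S n ⌊a * Real.log n ^ 2⌋₊ := by
          have : ⌊(b : ℝ) * Real.log n ^ 2⌋₊ ≤ ⌊a * Real.log n ^ 2⌋₊ := by
            apply Nat.floor_mono
            gcongr
          exact_mod_cast cw_mono S n this
        refine (le_trans ?_ h5.le).trans h7
        calc u * (a * Real.log n) = (a * u) * Real.log n := by ring
          _ ≤ (b * v) * Real.log n := by gcongr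
          _ = _ := by ring
      exact_mod_cast h4
    · obtain ⟨v, v1, v2, v3⟩ := left_rat (p := fun v => 1 < v ∧ τ₂ < a * ff v)
        ((eventually_gt_nhds hu).and (contu.eventually_const_lt s2))
      have hv0 : (0 : ℝ) < v := by linarith
      obtain ⟨b, b1, b3⟩ := right_rat (u := a) (p := fun b => b < a * u / v)
        (eventually_lt_nhds (by
          rw [lt_div_iff₀ hv0]
          nlinarith))
      rw [lt_div_iff₀ hv0] at b3
      have hb0 : (0 : ℝ) < b := by linarith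
      have hbf : (τ₂ : ℝ) < b * ff v := by
        have := ff_nonneg hv0
        nlinarith
      have h1 := (H b v τ₂ (by exact_mod_cast hb0) (by exact_mod_cast hv0) (by exact_mod_cast s1)
        (by exact_mod_cast (show (τ₂ : ℝ) < 1 by linarith))).2.2.1 v2 hbf
      filter_upwards [h1, block_start (hlogN'.eventually_ge_atTop 1)] with k h2 h3
      refine le_trans ?_ h2
      have h4 : blk {n : ℕ | u ≤ Ra S a n} k ≤ blk {n : ℕ | (v : ℝ) * ((⌊(b : ℝ) * Real.log n ^ 2⌋₊ : ℝ) / Real.log n) ≤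
          cw S n ⌊(b : ℝ) * Real.log n ^ 2⌋₊} k := by
        apply blk_mono
        intro n hn h5
        have h6 := h3 n hn
        have hl : 0 < Real.log n := by linarith
        change u ≤ Ra S a n at h5
        change (v : ℝ) * ((⌊(b : ℝ) * Real.log n ^ 2⌋₊ : ℝ) / Real.log n) ≤ cw S n ⌊(b : ℝ) * Real.log n ^ 2⌋₊
        rw [Ra_nat S ha, le_div_iff₀ (by positivity)] at h5
        have h7 : (cw S n ⌊a * Real.log n ^ 2⌋₊ : ℝ) ≤ cw S n ⌊(b : ℝ) * Real.log n ^ 2⌋₊ := by
          have : ⌊a * Real.log n ^ 2⌋₊ ≤ ⌊(b : ℝ) * Real.log n ^ 2⌋₊ := by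
            apply Nat.floor_mono
            gcongr
          exact_mod_cast cw_mono S n this
        refine (le_trans ?_ h5).trans h7
        have h8 : (⌊(b : ℝ) * Real.log n ^ 2⌋₊ : ℝ) / Real.log n ≤ b * Real.log n := by
          rw [div_le_iff₀ hl]
          have := Nat.floor_le (show 0 ≤ (b : ℝ) * Real.log n ^ 2 by positivity)
          nlinarith
        calc (v : ℝ) * ((⌊(b : ℝ) * Real.log n ^ 2⌋₊ : ℝ) / Real.log n) ≤ v * (b * Real.log n) := by gcongr
          _ = (b * v) * Real.log n := by ring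
          _ ≤ (a * u) * Real.log n := by gcongr
          _ = _ := by ring
      exact_mod_cast h4
  · intro hu
    have hpos : 0 < a * ff u := mul_pos ha (ff_pos hu0 (by intro h; linarith))
    obtain ⟨τ₂, s1, s2, s3⟩ := hex2 hpos
    refine cnt_from_blocks (B := {n : ℕ | Ra S a n ≤ u}) (τ₁ := τ₁) (τ₂ := τ₂) (by linarith) (by linarith)
      (by linarith) (by linarith) (by linarith) ?_ ?_
    · obtain ⟨v, v1, v2, v3⟩ := left_rat (p := fun v => 0 < v ∧ a * ff v < τ₁)
        ((eventually_gt_nhds hu0).and (contu.eventually_lt_const t1))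
      obtain ⟨b, b1, b3, b4⟩ := right_rat (u := a) (p := fun b => b < a * u / v ∧ b * ff v < τ₁)
        ((eventually_lt_nhds (by
          rw [lt_div_iff₀ v2]
          nlinarith)).and ((conta v).eventually_lt_const v3))
      rw [lt_div_iff₀ v2] at b3
      have hb0 : (0 : ℝ) < b := by linarith
      have h1 := (H b v τ₁ (by exact_mod_cast hb0) (by exact_mod_cast v2) (by exact_mod_cast hτ1pos)
        (by exact_mod_cast t2)).2.1 (by linarith) b4
      filter_upwards [h1, block_start (hlogN'.eventually_ge_atTop 1)] with k h2 h3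
      refine h2.trans ?_
      have h4 : blk {n : ℕ | (cw S n ⌊(b : ℝ) * Real.log n ^ 2⌋₊ : ℝ) < (v : ℝ) * (b * Real.log n)} k ≤
          blk {n : ℕ | Ra S a n ≤ u} k := by
        apply blk_mono
        intro n hn h5
        have h6 := h3 n hn
        have hl : 0 < Real.log n := by linarith
        change (cw S n ⌊(b : ℝ) * Real.log n ^ 2⌋₊ : ℝ) < (v : ℝ) * (b * Real.log n) at h5
        change Ra S a n ≤ u
        rw [Ra_nat S ha, div_le_iff₀ (by positivity)]
        have h7 : (cw S n ⌊a * Real.log n ^ 2⌋₊ : ℝ) ≤ cw S n ⌊(b : ℝ) * Real.log n ^ 2⌋₊ := by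
          have : ⌊a * Real.log n ^ 2⌋₊ ≤ ⌊(b : ℝ) * Real.log n ^ 2⌋₊ := by
            apply Nat.floor_mono
            gcongr
          exact_mod_cast cw_mono S n this
        refine h7.trans (h5.le.trans ?_)
        calc (v : ℝ) * (b * Real.log n) = (b * v) * Real.log n := by ring
          _ ≤ (a * u) * Real.log n := by gcongr
          _ = _ := by ring
      exact_mod_cast h4
    · obtain ⟨v, v1, v2, v3⟩ := right_rat (p := fun v => v < 1 ∧ τ₂ < a * ff v)
        ((eventually_lt_nhds hu).and (contu.eventually_const_lt s2))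
      have hv0 : (0 : ℝ) < v := by linarith
      obtain ⟨b, b1, ⟨b2, b3⟩, b4⟩ := left_rat (u := a) (p := fun b => (0 < b ∧ a * u / v < b) ∧ τ₂ < b * ff v)
        (((eventually_gt_nhds ha).and (eventually_gt_nhds (by
          rw [div_lt_iff₀ hv0]
          nlinarith))).and ((conta v).eventually_const_lt v3))
      rw [div_lt_iff₀ hv0] at b3
      have h1 := (H b v τ₂ (by exact_mod_cast b2) (by exact_mod_cast hv0) (by exact_mod_cast s1)
        (by exact_mod_cast (show (τ₂ : ℝ) < 1 by linarith))).2.2.2 v2 b4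
      have hgap : 0 < (b : ℝ) * v - a * u := by linarith
      filter_upwards [h1, block_start (hlogN'.eventually_ge_atTop (max 1 (v / (b * v - a * u))))] with k h2 h3
      refine le_trans ?_ h2
      have h4 : blk {n : ℕ | Ra S a n ≤ u} k ≤ blk {n : ℕ | (cw S n ⌊(b : ℝ) * Real.log n ^ 2⌋₊ : ℝ) ≤
          (v : ℝ) * ((⌊(b : ℝ) * Real.log n ^ 2⌋₊ : ℝ) / Real.log n)} k := by
        apply blk_mono
        intro n hn h5
        have h6 := h3 n hn
        have hl1 : 1 ≤ Real.log n := (le_max_left _ _).trans h6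
        have hl2 : v / (b * v - a * u) ≤ Real.log n := (le_max_right _ _).trans h6
        rw [div_le_iff₀ hgap] at hl2
        have hl : 0 < Real.log n := by linarith
        change Ra S a n ≤ u at h5
        change (cw S n ⌊(b : ℝ) * Real.log n ^ 2⌋₊ : ℝ) ≤ (v : ℝ) * ((⌊(b : ℝ) * Real.log n ^ 2⌋₊ : ℝ) / Real.log n)
        rw [Ra_nat S ha, div_le_iff₀ (by positivity)] at h5
        have h7 : (cw S n ⌊(b : ℝ) * Real.log n ^ 2⌋₊ : ℝ) ≤ cw S n ⌊a * Real.log n ^ 2⌋₊ := by
          have : ⌊(b : ℝ) * Real.log n ^ 2⌋₊ ≤ ⌊a * Real.log n ^ 2⌋₊ := by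
            apply Nat.floor_mono
            gcongr
          exact_mod_cast cw_mono S n this
        refine h7.trans (h5.trans ?_)
        have h8 : b * Real.log n - 1 ≤ (⌊(b : ℝ) * Real.log n ^ 2⌋₊ : ℝ) / Real.log n := by
          rw [le_div_iff₀ hl]
          have := floor_near b2 n
          rw [abs_le] at this
          nlinarith [this.1]
        calc u * (a * Real.log n) ≤ v * (b * Real.log n - 1) := by nlinarith
          _ ≤ v * ((⌊(b : ℝ) * Real.log n ^ 2⌋₊ : ℝ) / Real.log n) := by gcongr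
      exact_mod_cast h4

end Pool.Agent.Q268.XL
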