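import Mathlib
import Pool.Agent.Q268.XL.Conv
import Pool.Agent.Q268.DL.Long
import Pool.Agent.Q268.DL.ExT

/-!
The asymptotic formula in all windows longer than a power is equivalent to the formula in the windows
`(n, n + n^t]`, `0 < t < 1`.
-/

set_option autoImplicit false

namespace Pool.Agent.Q268.XL

open Filter Finset MeasureTheory ProbabilityTheory
open Pool.Agent.Q268.DP Pool.Agent.Q268.DL
open scoped ENNReal Topology

/-- the question -/
def QP : Prop := ∀ ε : ℝ, 0 < ε → ∀ δ : ℝ, 0 < δ → ∀ᶠ x : ℝ in atTop, ∀ y : ℝ, x ^ ε ≤ y → y ≤ x →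
  |(cR PP x y : ℝ) / (y / Real.log x) - 1| ≤ δ

theorem Dθ_L {t : ℝ} (h0 : 0 < t) : Tendsto (fun q : ℕ => (Dθ t q : ℝ) / Real.log q) atTop atTop := by
  rw [tendsto_atTop]
  intro K
  filter_upwards [Dθ_pow h0 2, hlogN'.eventually_ge_atTop (max 1 K)] with q h1 h2
  have h4 : 1 ≤ Real.log q := (le_max_left _ _).trans h2
  have h5 : K ≤ Real.log q := (le_max_right _ _).trans h2
  rw [le_div_iff₀ (by linarith)]
  refine le_trans ?_ h1
  nlinarith

theorem pow_cmp {t ε e : ℝ} (ht0 : 0 < t) (ht : t ≤ ε / 2) (ht1 : t ≤ 1 / 2) (hε : 0 < ε) (he : 0 < e) :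
    ∀ᶠ n : ℕ in atTop, ∀ h : ℕ, (n : ℝ) ^ ε / 2 ≤ h → (4 * (n : ℝ)) ^ t ≤ e * (h / Real.log n) := by
  have h1 := ((tendsto_rpow_atTop (show 0 < ε / 2 by positivity)).comp
    (tendsto_natCast_atTop_atTop (R := ℝ))).eventually (loggrow (16 / ε) 1 he)
  filter_upwards [h1, hlogN'.eventually_ge_atTop 1, eventually_ge_atTop 1] with n h1 h2 h3 h hh
  have hn : (1 : ℝ) ≤ n := by exact_mod_cast h3
  have hn0 : (0 : ℝ) < n := by linarith
  simp only [Function.comp_apply] at h1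
  rw [Real.log_rpow hn0, Real.rpow_one] at h1
  have h4 : 8 * Real.log n ≤ e * (n : ℝ) ^ (ε / 2) := by
    refine le_trans (le_of_eq ?_) h1
    field_simp
    norm_num
  have hl0 : 0 < Real.log n := by linarith
  have e1 : (4 * (n : ℝ)) ^ t ≤ 4 * (n : ℝ) ^ (ε / 2) := by
    rw [Real.mul_rpow (by norm_num) hn0.le]
    have e2 : (4 : ℝ) ^ t ≤ 4 := by
      calc (4 : ℝ) ^ t ≤ (4 : ℝ) ^ (1 : ℝ) := Real.rpow_le_rpow_of_exponent_le (by norm_num) (by linarith)
        _ = 4 := Real.rpow_one _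
    have e3 : (n : ℝ) ^ t ≤ (n : ℝ) ^ (ε / 2) := Real.rpow_le_rpow_of_exponent_le hn ht
    gcongr
  refine e1.trans ?_
  rw [← mul_div_assoc, le_div_iff₀ hl0]
  have e4 : (n : ℝ) ^ ε = (n : ℝ) ^ (ε / 2) * (n : ℝ) ^ (ε / 2) := by
    rw [← Real.rpow_add hn0]
    congr 1
    ring
  have e5 : (0 : ℝ) < (n : ℝ) ^ (ε / 2) := by positivity
  calc 4 * (n : ℝ) ^ (ε / 2) * Real.log n = (8 * Real.log n) * ((n : ℝ) ^ (ε / 2) / 2) := by ring
    _ ≤ (e * (n : ℝ) ^ (ε / 2)) * ((n : ℝ) ^ (ε / 2) / 2) := by gcongr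
    _ = e * ((n : ℝ) ^ ε / 2) := by rw [e4]; ring
    _ ≤ e * h := by gcongr

theorem QP_of {t ε : ℝ} (ht0 : 0 < t) (ht : t ≤ ε / 2) (ht1 : t ≤ 1 / 2) (hε : 0 < ε)
    (hP : Tendsto (RD (Dθ t)) atTop (𝓝 1)) {δ : ℝ} (hδ : 0 < δ) : ∀ᶠ x : ℝ in atTop, ∀ y : ℝ, x ^ ε ≤ y → y ≤ x →
    |(cR PP x y : ℝ) / (y / Real.log x) - 1| ≤ δ := by
  set e := min (δ / 8) (1 / 16) with he
  have he0 : 0 < e := lt_min (by positivity) (by norm_num)
  have he1 : e ≤ δ / 8 := min_le_left _ _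
  have he2 : e ≤ 1 / 16 := min_le_right _ _
  have hdn := dn_of_PF (Dθ_regular ht0 (by linarith)) (Dθ_L ht0) hP
  have hfl : Tendsto (fun x : ℝ => ⌊x⌋₊) atTop atTop := tendsto_nat_floor_atTop
  have hpw : Tendsto (fun n : ℕ => (n : ℝ) ^ ε) atTop atTop :=
    (tendsto_rpow_atTop hε).comp (tendsto_natCast_atTop_atTop (R := ℝ))
  filter_upwards [real_window he0 he2, hfl.eventually (mw_of_dn hdn he0), hfl.eventually (pow_cmp ht0 ht ht1 hε he0),
    hfl.eventually (eventually_ge_atTop 4), hfl.eventually (hpw.eventually_ge_atTop 2),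
    hfl.eventually (hpw.eventually_ge_atTop (1 / e)), hfl.eventually (hlogN'.eventually_ge_atTop 1)]
    with x h1 h2 h3 h4 h5 h6 h7 y hy1 hy2
  set n := ⌊x⌋₊ with hn
  have hx0 : 0 ≤ x := by
    by_contra hcon
    push Not at hcon
    rw [hn, Nat.floor_of_nonpos hcon.le] at h4
    omega
  have f1 : (n : ℝ) ≤ x := Nat.floor_le hx0
  have f2 : x < n + 1 := Nat.lt_floor_add_one x
  have hn4 : (4 : ℝ) ≤ n := by exact_mod_cast h4
  have hnx : (n : ℝ) ^ ε ≤ x ^ ε := Real.rpow_le_rpow (by linarith) f1 hε.le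
  have hy0 : 0 ≤ y := by linarith
  have hf := floor_len hx0 hy0
  rw [abs_le] at hf
  set h := ⌊x + y⌋₊ - n with hh
  have hlow : (n : ℝ) ^ ε / 2 ≤ h := by linarith [hf.1]
  have hup : h ≤ 3 * n := by
    have : (h : ℝ) ≤ ((3 * n : ℕ) : ℝ) := by
      push_cast
      linarith [hf.2]
    exact_mod_cast this
  have k1 := h2 h hup
  have k2 := h3 h hlow
  set K := ⌊(4 * (n : ℝ)) ^ t⌋₊ with hK
  have hKle : (K : ℝ) ≤ (4 * (n : ℝ)) ^ t := Nat.floor_le (by positivity)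
  have hKn : K ≤ n := by
    have e1 : (4 * (n : ℝ)) ^ t ≤ (4 * (n : ℝ)) ^ (1 / 2 : ℝ) :=
      Real.rpow_le_rpow_of_exponent_le (by linarith) ht1
    have e2 : (4 * (n : ℝ)) ^ (1 / 2 : ℝ) ≤ n := by
      rw [← Real.sqrt_eq_rpow, Real.sqrt_le_left (by linarith)]
      nlinarith
    have : (K : ℝ) ≤ n := by linarith
    exact_mod_cast this
  have hKq : ∀ q, q ≤ n + h → Dθ t q ≤ K := by
    intro q hq
    unfold Dθ
    apply Nat.floor_mono
    apply Real.rpow_le_rpow (Nat.cast_nonneg q) _ ht0.le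
    have : q ≤ 4 * n := by omega
    exact_mod_cast this
  have m1 := mean_le hKq hKn
  have m2 := le_mean hKq hKn
  have c1 := cw_le PP (n - K) K
  have c2 := cw_le PP (n + h - K) K
  have key : |(cw PP n h : ℝ) - h / Real.log n| ≤ 4 * e * (h / Real.log n) := by
    rw [abs_le] at k1 ⊢
    have : 0 ≤ e * ((h : ℝ) / Real.log n) := by positivity
    constructor <;> linarith [k1.1, k1.2]
  have hc : (cR PP x y : ℝ) = cw PP n h := cR_cw PP hx0 hy0
  have fin := h1 y (by linarith) (cR PP x y) (by rw [hc]; exact key)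
  linarith

theorem QP_iff : QP ↔ ∀ t : ℝ, 0 < t → t < 1 → Tendsto (RD (Dθ t)) atTop (𝓝 1) := by
  constructor
  · intro h t ht0 ht1
    rw [Metric.tendsto_atTop]
    intro δ hδ
    have h1 := (tendsto_natCast_atTop_atTop (R := ℝ)).eventually (h (t / 2) (by positivity) (δ / 2) (by positivity))
    have hpw : Tendsto (fun n : ℕ => (n : ℝ) ^ (t / 2)) atTop atTop :=
      (tendsto_rpow_atTop (by positivity)).comp (tendsto_natCast_atTop_atTop (R := ℝ))
    have h2 : ∀ᶠ n : ℕ in atTop, |RD (Dθ t) n - 1| ≤ δ / 2 := by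
      filter_upwards [h1, hpw.eventually_ge_atTop 2, eventually_ge_atTop 1] with n h1 h2 h3
      have hn : (1 : ℝ) ≤ n := by exact_mod_cast h3
      have hn0 : (0 : ℝ) < n := by linarith
      have e1 : (n : ℝ) ^ t = (n : ℝ) ^ (t / 2) * (n : ℝ) ^ (t / 2) := by
        rw [← Real.rpow_add hn0]
        congr 1
        ring
      have e2 : (n : ℝ) ^ t < Dθ t n + 1 := Nat.lt_floor_add_one _
      have e3 : (Dθ t n : ℝ) ≤ (n : ℝ) ^ t := Nat.floor_le (by positivity)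
      have e4 : (n : ℝ) ^ t ≤ n := by
        calc (n : ℝ) ^ t ≤ (n : ℝ) ^ (1 : ℝ) := Real.rpow_le_rpow_of_exponent_le hn ht1.le
          _ = n := Real.rpow_one _
      have h4 := h1 (Dθ t n) (by nlinarith) (by linarith)
      rw [cR_nat] at h4
      exact h4
    obtain ⟨M, hM⟩ := eventually_atTop.1 h2
    refine ⟨M, fun n hn => ?_⟩
    rw [Real.dist_eq]
    have := hM n hn
    linarith
  · intro h ε hε δ hδ
    have h1 : 0 < min (ε / 2) (1 / 2) := lt_min (by positivity) (by norm_num)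
    exact QP_of h1 (min_le_left _ _) (min_le_right _ _) hε
      (h _ h1 (lt_of_le_of_lt (min_le_right _ _) (by norm_num))) hδ

end Pool.Agent.Q268.XL
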